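import Pool.Agent.H39.TW.CaseOne

/-!
# Arrangements: letters and paths indexed by natural numbers
-/

set_option autoImplicit false

open scoped Classical

namespace Pool.Agent.H39.TW

open SimpleGraph

/-- `s` pairwise nonadjacent letters and `k` disjoint anticomplete induced paths; every letter has a
neighbour on each path. -/
structure Arr {V : Type*} (G : SimpleGraph V) (s k : ℕ) where
  star : Fin s → V
  len : Fin k → ℕ
  path : Fin k → ℕ → V
  star_inj : Function.Injective star
  star_stable : ∀ i j, ¬ G.Adj (star i) (star j)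
  star_path : ∀ i q a, a < len q → star i ≠ path q a
  path_inj : ∀ q q' a b, a < len q → b < len q' → path q a = path q' b → q = q' ∧ a = b
  path_adj : ∀ q q' a b, a < len q → b < len q' →
    (G.Adj (path q a) (path q' b) ↔ q = q' ∧ (a + 1 = b ∨ b + 1 = a))
  sees : ∀ i q, ∃ a < len q, G.Adj (star i) (path q a)

/-- Restriction to some of the letters and some of the paths. -/
def Arr.restrict {V : Type*} {G : SimpleGraph V} {s k s' k' : ℕ} (A : Arr G s k)
    (e : Fin s' → Fin s) (he : Function.Injective e) (f : Fin k' → Fin k)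
    (hf : Function.Injective f) : Arr G s' k' where
  star i := A.star (e i)
  len q := A.len (f q)
  path q a := A.path (f q) a
  star_inj _ _ h := he (A.star_inj h)
  star_stable i j := A.star_stable _ _
  star_path i q a h := A.star_path _ _ a h
  path_inj q q' a b ha hb h := by
    obtain ⟨h1, h2⟩ := A.path_inj _ _ a b ha hb h
    exact ⟨hf h1, h2⟩
  path_adj q q' a b ha hb := by
    rw [A.path_adj _ _ a b ha hb]
    constructor
    · rintro ⟨h1, h2⟩
      exact ⟨hf h1, h2⟩
    · rintro ⟨h1, h2⟩
      exact ⟨by rw [h1], h2⟩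
  sees i q := A.sees _ _

/-- A constellation gives an arrangement. -/
theorem Arr.of_constellation {V : Type*} {G : SimpleGraph V} {s k : ℕ} (C : Constellation G s k)
    (hs : 0 < s) : Nonempty (Arr G s k) := by
  obtain ⟨x₀⟩ : Nonempty V := ⟨C.star ⟨0, hs⟩⟩
  set path : Fin k → ℕ → V := fun q a => if h : a < C.len q then C.path q ⟨a, h⟩ else x₀ with hp
  have hpath : ∀ q a (h : a < C.len q), path q a = C.path q ⟨a, h⟩ := by
    intro q a h
    simp only [hp, h, dif_pos]
  refine ⟨⟨C.star, C.len, path, C.star_inj, C.star_stable, ?_, ?_, ?_, ?_⟩⟩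
  · intro i q a h
    rw [hpath q a h]
    exact C.star_path i q _
  · intro q q' a b ha hb h
    rw [hpath q a ha, hpath q' b hb] at h
    by_cases hq : q = q'
    · subst hq
      exact ⟨rfl, congrArg Fin.val (C.path_inj q h)⟩
    · exact absurd h (C.disjoint q q' _ _ hq)
  · intro q q' a b ha hb
    rw [hpath q a ha, hpath q' b hb]
    by_cases hq : q = q'
    · subst hq
      rw [C.path_adj q]
      simp
    · simp only [hq, false_and, iff_false]
      exact C.anticomplete q q' _ _ hq
  · intro i q
    obtain ⟨a, ha⟩ := C.sees i q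
    refine ⟨a, a.isLt, ?_⟩
    rw [hpath q a a.isLt]
    exact ha

/-- Spaced arrangements. -/
theorem Arr.caseOne {V : Type*} {G : SimpleGraph V} {r : ℕ} (A : Arr G r r)
    (spaced : ∀ i j q a b, i ≠ j → a < A.len q → b < A.len q → G.Adj (A.star i) (A.path q a) →
      G.Adj (A.star j) (A.path q b) → a + r ≤ b ∨ b + r ≤ a) : GoodSub G r :=
  Pool.Agent.H39.TW.caseOne G r A.star A.len A.path A.star_inj A.star_stable A.star_path A.path_inj
    A.path_adj A.sees spaced

end Pool.Agent.H39.TW
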