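import Pool.Agent.H39.TW.Lower

/-!
# Row Grid: rows and columns force treewidth

Proof: as `not_treewidthAtMost` (file `Lower`) with the sets `B i j = R i ∪ C j` (index them by
`Fin ((w + 2) * (w + 2))` through `finProdFinEquiv` for `helly`). `B i j` is connected (`ConnSet` is an induction
principle: go to a common element of `R i` and `C j`), and `B i j`, `B i' j'` have a common element (in
`R i ∩ C j'`), hence a common bag. So the node sets `{t | ∃ v ∈ B i j, v ∈ D.bag t}` are connected and pairwise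
meet; `helly` gives a bag meeting all `B i j`. This bag meets every `R i` or it meets every `C j` (if it misses `R i` and
`C j` it misses `B i j`), so it contains `w + 2` different vertices: contradiction (count as in `Lower`).
-/

set_option autoImplicit false

open scoped Classical

namespace Pool.Agent.H39.TW

open SimpleGraph

private theorem grid_union {V : Type*} {G : SimpleGraph V} {A B : Set V} (hA : ConnSet G A)
    (hB : ConnSet G B) {v : V} (hvA : v ∈ A) (hvB : v ∈ B) : ConnSet G (A ∪ B) := by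
  intro P hP s hs t ht hPs
  have hPA : ∀ x ∈ A, ∀ y ∈ A, G.Adj x y → P x → P y :=
    fun x hx y hy => hP x (Or.inl hx) y (Or.inl hy)
  have hPB : ∀ x ∈ B, ∀ y ∈ B, G.Adj x y → P x → P y :=
    fun x hx y hy => hP x (Or.inr hx) y (Or.inr hy)
  have hv : P v := by
    rcases hs with hs | hs
    · exact hA P hPA s hs v hvA hPs
    · exact hB P hPB s hs v hvB hPs
  rcases ht with ht | ht
  · exact hA P hPA v hvA t ht hv
  · exact hB P hPB v hvB t ht hv

private theorem grid_count {V : Type*} {w : ℕ} {S : Set V} (hS : S.encard ≤ ((w + 1 : ℕ) : ℕ∞))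
    {F : Fin (w + 2) → Set V} (hdis : ∀ i j, i ≠ j → Disjoint (F i) (F j))
    (h : ∀ i, ∃ v ∈ F i, v ∈ S) : False := by
  choose f hfB hft using h
  have hinj : Function.Injective f := by
    intro i j hij
    by_contra hne'
    exact Set.disjoint_left.1 (hdis i j hne') (hfB i) (hij ▸ hfB j)
  have h1 : Set.range f ⊆ S := by
    rintro _ ⟨i, rfl⟩
    exact hft i
  have h2 := Set.encard_le_encard h1
  have h3 : (Set.range f).encard = (w + 2 : ℕ) := by
    rw [← Set.image_univ, hinj.encard_image, Set.encard_univ]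
    simp only [ENat.card_eq_coe_fintype_card, Fintype.card_fin]
  rw [h3] at h2
  have h5 : ((w + 2 : ℕ) : ℕ∞) ≤ ((w + 1 : ℕ) : ℕ∞) := h2.trans hS
  rw [Nat.cast_le] at h5
  omega

theorem not_treewidthAtMost_grid {V : Type*} (G : SimpleGraph V) (w : ℕ)
    (R C : Fin (w + 2) → Set V) (hR : ∀ i, ConnSet G (R i)) (hC : ∀ j, ConnSet G (C j))
    (hRR : ∀ i j, i ≠ j → Disjoint (R i) (R j)) (hCC : ∀ i j, i ≠ j → Disjoint (C i) (C j))
    (hRC : ∀ i j, ∃ v, v ∈ R i ∧ v ∈ C j) : ¬ TreewidthAtMost G w := by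
  rintro ⟨D, hD⟩
  have hv : ∀ v, ConnSet D.tree {t | v ∈ D.bag t} := fun v => connSet_of_induce _ _ (D.connected v)
  have hconn : ∀ i j, ConnSet G (R i ∪ C j) := by
    intro i j
    obtain ⟨v, h1, h2⟩ := hRC i j
    exact grid_union (hR i) (hC j) h1 h2
  have hA1 : ∀ i j, ConnSet D.tree {t | ∃ v ∈ R i ∪ C j, v ∈ D.bag t} := by
    intro i j P hP s hs t ht hPs
    obtain ⟨v, hvB, hvs⟩ := hs
    obtain ⟨v', hvB', hvt⟩ := ht
    have hstep : ∀ v ∈ R i ∪ C j, ∀ s, v ∈ D.bag s → P s → ∀ t, v ∈ D.bag t → P t := by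
      intro v hvB s hs hPs t ht
      refine hv v P ?_ s hs t ht hPs
      intro x hx y hy hxy
      exact hP x ⟨v, hvB, hx⟩ y ⟨v, hvB, hy⟩ hxy
    have hQ := hconn i j (fun v => ∀ t, v ∈ D.bag t → P t) ?_ v hvB v' hvB'
      (hstep v hvB s hvs hPs)
    · exact hQ t hvt
    · intro x hx y hy hxy hQx
      obtain ⟨s', hs1, hs2⟩ := D.edge x y hxy
      exact hstep y hy s' hs2 (hQx s' hs1)
  obtain ⟨t, ht⟩ := helly D.tree D.isTree (r := (w + 2) * (w + 2)) (by positivity)
    (fun k => {t | ∃ v ∈ R (finProdFinEquiv.symm k).1 ∪ C (finProdFinEquiv.symm k).2, v ∈ D.bag t})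
    (fun k => hA1 _ _) (by
      intro k l
      obtain ⟨v, h1, h2⟩ := hRC (finProdFinEquiv.symm k).1 (finProdFinEquiv.symm l).2
      obtain ⟨t, ht⟩ := D.vertex v
      exact ⟨t, ⟨v, Or.inl h1, ht⟩, ⟨v, Or.inr h2, ht⟩⟩)
  have ht' : ∀ i j, ∃ v ∈ R i ∪ C j, v ∈ D.bag t := by
    intro i j
    have h1 := ht (finProdFinEquiv (i, j))
    simp only [Equiv.symm_apply_apply] at h1
    exact h1
  by_cases hall : ∀ i, ∃ v ∈ R i, v ∈ D.bag t
  · exact grid_count (hD t) hRR hall
  · push Not at hall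
    obtain ⟨i, hi⟩ := hall
    refine grid_count (hD t) hCC fun j => ?_
    obtain ⟨v, hv1, hv2⟩ := ht' i j
    rcases hv1 with h | h
    · exact absurd hv2 (hi v h)
    · exact ⟨v, h, hv2⟩

end Pool.Agent.H39.TW
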