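import Pool.Agent.H39.TW.Def

/-!
# Isomorphism invariance of twin-width and treewidth
-/

set_option autoImplicit false

open scoped Classical

namespace Pool.Agent.H39.TW

open SimpleGraph

theorem TreewidthAtMost.of_comap {V W : Type*} {G : SimpleGraph V} {k : ℕ} (e : W ≃ V)
    (h : TreewidthAtMost (G.comap e) k) : TreewidthAtMost G k := by
  obtain ⟨D, hD⟩ := h
  refine ⟨⟨D.node, D.tree, D.isTree, fun t => e.symm ⁻¹' D.bag t, ?_, ?_, ?_⟩, ?_⟩
  · exact fun v => D.vertex (e.symm v)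
  · intro u v huv
    exact D.edge (e.symm u) (e.symm v) (by simpa using huv)
  · exact fun v => D.connected (e.symm v)
  · intro t
    refine le_trans (le_of_eq ?_) (hD t)
    exact Set.encard_preimage_of_injective_subset_range e.symm.injective (by simp)

theorem classes_comap {V W : Type*} (P : Setoid V) (e : W ≃ V) :
    (P.comap e).classes = (fun X : Set V => e ⁻¹' X) '' P.classes := by
  ext X
  constructor
  · rintro ⟨y, rfl⟩
    exact ⟨{x | P x (e y)}, ⟨e y, rfl⟩, rfl⟩
  · rintro ⟨_, ⟨y, rfl⟩, rfl⟩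
    exact ⟨e.symm y, by ext x; simp [Setoid.comap_rel]⟩

theorem homogeneous_comap {V W : Type*} (G : SimpleGraph V) (e : W ≃ V) (X Y : Set V)
    (h : Homogeneous G X Y) : Homogeneous (G.comap e) (e ⁻¹' X) (e ⁻¹' Y) := by
  rcases h with h | h
  · exact Or.inl fun x hx y hy => h _ hx _ hy
  · exact Or.inr fun x hx y hy => h _ hx _ hy

theorem redDegree_comap {V W : Type*} (G : SimpleGraph V) (e : W ≃ V) (P : Setoid V) (d : ℕ)
    (h : RedDegreeAtMost G P d) : RedDegreeAtMost (G.comap e) (P.comap e) d := by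
  intro X' hX'
  rw [classes_comap] at hX'
  obtain ⟨X, hX, rfl⟩ := hX'
  refine le_trans (le_trans (Set.encard_le_encard ?_)
    (Set.encard_image_le (fun X : Set V => e ⁻¹' X) _)) (h X hX)
  rintro Y' ⟨hY', hne, hnh⟩
  rw [classes_comap] at hY'
  obtain ⟨Y, hY, rfl⟩ := hY'
  refine ⟨Y, ⟨hY, fun h => hne (by rw [h]), fun h => hnh (homogeneous_comap G e X Y h)⟩, rfl⟩

theorem contracts_comap {V W : Type*} (e : W ≃ V) (P Q : Setoid V) (h : Contracts P Q) :
    Contracts (P.comap e) (Q.comap e) := by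
  obtain ⟨X, hX, Y, hY, hne, hQ⟩ := h
  have hinj : Function.Injective (fun X : Set V => e ⁻¹' X) := Set.preimage_injective.mpr e.surjective
  refine ⟨e ⁻¹' X, ?_, e ⁻¹' Y, ?_, fun h => hne (hinj h), ?_⟩
  · rw [classes_comap]
    exact ⟨X, hX, rfl⟩
  · rw [classes_comap]
    exact ⟨Y, hY, rfl⟩
  · rw [classes_comap, classes_comap, hQ, Set.image_insert_eq, Set.image_sdiff hinj, Set.image_pair]
    rfl

theorem TwinWidthAtMost.comap {V W : Type*} {G : SimpleGraph V} {d : ℕ}
    (h : TwinWidthAtMost G d) (e : W ≃ V) : TwinWidthAtMost (G.comap e) d := by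
  obtain ⟨m, P, h0, hm, hc, hr⟩ := h
  refine ⟨m, fun i => (P i).comap e, ?_, ?_, ?_, ?_⟩
  · show (P 0).comap e = ⊥
    rw [h0]
    ext x y
    simp
  · show (P m).comap e = ⊤
    rw [hm]
    ext x y
    simp [Setoid.comap_rel, Setoid.top_def]
  · exact fun i hi => contracts_comap e _ _ (hc i hi)
  · exact fun i hi => redDegree_comap G e _ d (hr i hi)

theorem RedDegreeAtMost.mono {V : Type*} {G : SimpleGraph V} {P : Setoid V} {d d' : ℕ}
    (h : RedDegreeAtMost G P d) (hd : d ≤ d') : RedDegreeAtMost G P d' := by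
  intro X hX
  exact (h X hX).trans (by exact_mod_cast hd)

theorem TwinWidthAtMost.mono {V : Type*} {G : SimpleGraph V} {d d' : ℕ}
    (h : TwinWidthAtMost G d) (hd : d ≤ d') : TwinWidthAtMost G d' := by
  obtain ⟨m, P, h0, hm, hc, hr⟩ := h
  exact ⟨m, P, h0, hm, hc, fun i hi => (hr i hi).mono hd⟩

/-- An induced subgraph of a member of a hereditary class, up to isomorphism. -/
theorem of_indContained (C : (n : ℕ) → SimpleGraph (Fin n) → Prop) (hC : Hereditary C) (w d n : ℕ)
    (G : SimpleGraph (Fin n)) (hG : C n G) {α : Type*} [Finite α] (H : SimpleGraph α)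
    (hH : H ⊴ G) (h1 : TwinWidthAtMost H d) (h2 : ¬ TreewidthAtMost H w) :
    ∃ (m : ℕ) (H : SimpleGraph (Fin m)), C m H ∧ TwinWidthAtMost H d ∧ ¬ TreewidthAtMost H w := by
  obtain ⟨f⟩ := hH
  obtain ⟨m, ⟨e⟩⟩ := Finite.exists_equiv_fin α
  set g : Fin m ↪ Fin n := e.symm.toEmbedding.trans f.toEmbedding with hg
  have hcomap : G.comap g = H.comap e.symm := by
    ext x y
    exact f.map_rel_iff'
  refine ⟨m, G.comap g, hC m n G g hG, ?_, ?_⟩
  · rw [hcomap]
    exact h1.comap e.symm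
  · rw [hcomap]
    exact fun h => h2 (h.of_comap e.symm)

end Pool.Agent.H39.TW
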