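import Pool.Agent.H39.TW.Sweep

/-!
# Row LineSweep: twin-width of the line graph of a graph with a sweep

Proof. `twinWidth_sweep` for `H.lineGraph` with `F = 15`. Let `N` be larger than all ranks. For an edge `e` with ends
`x, y`: `rk e = max (rk x) (rk y) * N + min (rk x) (rk y)` (injective: division with remainder, then `rk` injective), `col e =
min (col x) (col y)` (both well defined on `Sym2 V` by `Sym2.lift`, or choose the ends by `Quot.out`/`Sym2.ind`; it may be
convenient to define them with `Sym2.lift ⟨fun x y => .., symmetry⟩`).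
* `hcc`: edges `e = s(x, y)`, `f = s(y, z)`: `col e ∈ {col y, col y - 1}` since `col y ≤ col x + 1`, same for `f`: differ by at most 1.
* front of `(τ', c)`: let `τ = τ' / N`. Let `e = s(x, y)` with `rk e < τ'`, `col e = c` and `f = s(y, z)` with `τ' ≤ rk f` share
  `y`. Then `rk y ≤ τ` (as `rk y * N ≤ rk e < τ'`), and `τ ≤ max (rk y) (rk z)` (as `τ' ≤ rk f < (max + 1) * N`). If `rk y = τ`, `f` is an edge at
  the vertex `y` of rank `τ`. If `rk y < τ` then `τ ≤ rk z`, and `z` is in the front of `(τ, col y)` for `H`, with `col y ∈ {c, c + 1}`.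
  So `f` is an edge at a vertex of `Z = {v | rk v = τ} ∪ front τ c ∪ front τ (c + 1)`, a set of at most `1 + 2 + 2 = 5` vertices,
  each on at most `3` edges (`hdeg`): at most `15` edges.
-/

set_option autoImplicit false

open scoped Classical

namespace Pool.Agent.H39.TW

open SimpleGraph

private theorem lineSweep_card {E V : Type*} [Finite E] [Finite V] (S : Set E) (Z : Set V)
    (F : V → Set E) (hZ : Z.encard ≤ 5) (hF : ∀ v, (F v).encard ≤ 3)
    (hS : ∀ f ∈ S, ∃ v ∈ Z, f ∈ F v) : S.encard ≤ 15 := by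
  have := Fintype.ofFinite V
  have := Fintype.ofFinite E
  have h1 : S ⊆ ((Z.toFinset.biUnion fun v => (F v).toFinset : Finset E) : Set E) := by
    intro f hf
    obtain ⟨v, hv, hfv⟩ := hS f hf
    rw [Finset.mem_coe, Finset.mem_biUnion]
    exact ⟨v, Set.mem_toFinset.2 hv, Set.mem_toFinset.2 hfv⟩
  have h2 : Z.toFinset.card ≤ 5 := by
    rw [Set.encard_eq_coe_toFinset_card] at hZ
    exact_mod_cast hZ
  have h3 : ∀ v, (F v).toFinset.card ≤ 3 := by
    intro v
    have h := hF v
    rw [Set.encard_eq_coe_toFinset_card] at h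
    exact_mod_cast h
  have h4 : (Z.toFinset.biUnion fun v => (F v).toFinset).card ≤ Z.toFinset.card * 3 :=
    Finset.card_biUnion_le_card_mul _ _ _ fun v _ => h3 v
  refine (Set.encard_le_encard h1).trans ?_
  rw [Set.encard_coe_eq_coe_finsetCard]
  have h5 : (Z.toFinset.biUnion fun v => (F v).toFinset).card ≤ 15 := by omega
  exact_mod_cast h5

theorem twinWidth_lineGraph {V : Type*} [Finite V] (H : SimpleGraph V)
    (col rk : V → ℕ) (hrk : Function.Injective rk) (hcc : ∀ u v, H.Adj u v → col u ≤ col v + 1)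
    (hfront : ∀ τ c, {v | τ ≤ rk v ∧ ∃ u, rk u < τ ∧ col u = c ∧ H.Adj u v}.encard ≤ 2)
    (hdeg : ∀ v, {u | H.Adj v u}.encard ≤ 3) :
    TwinWidthAtMost H.lineGraph 17 := by
  obtain ⟨N, hN⟩ : ∃ N : ℕ, ∀ v, rk v < N := by
    obtain ⟨M, hM⟩ := (Set.finite_range rk).bddAbove
    exact ⟨M + 1, fun v => Nat.lt_succ_of_le (hM ⟨v, rfl⟩)⟩
  have hends : ∀ e : H.edgeSet, ∃ x y : V, (e : Sym2 V) = s(x, y) ∧ H.Adj x y ∧ rk x < rk y := by
    rintro ⟨e, he⟩
    induction e using Sym2.ind with
    | _ x y =>
      have hxy : H.Adj x y := he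
      rcases lt_or_gt_of_ne (fun h => hxy.ne (hrk h) : rk x ≠ rk y) with h | h
      · exact ⟨x, y, rfl, hxy, h⟩
      · exact ⟨y, x, Sym2.eq_swap, hxy.symm, h⟩
  choose lo hi hlh hadj hlt using hends
  have hmem : ∀ (e : H.edgeSet) (w : V), w ∈ (e : Sym2 V) → w = lo e ∨ w = hi e := by
    intro e w hw
    rw [hlh e] at hw
    exact Sym2.mem_iff.1 hw
  have hcol : ∀ (e : H.edgeSet) (w : V), w ∈ (e : Sym2 V) →
      min (col (lo e)) (col (hi e)) ≤ col w ∧ col w ≤ min (col (lo e)) (col (hi e)) + 1 := by
    intro e w hw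
    have h1 := hcc _ _ (hadj e)
    have h2 := hcc _ _ (hadj e).symm
    rcases hmem e w hw with rfl | rfl
    · omega
    · omega
  refine twinWidth_sweep H.lineGraph 15 (by norm_num) (fun e => min (col (lo e)) (col (hi e)))
    (fun e => rk (hi e) * N + rk (lo e)) ?_ ?_ ?_
  · intro e f hef
    have hef' : rk (hi e) * N + rk (lo e) = rk (hi f) * N + rk (lo f) := hef
    have h1 := hN (lo e)
    have h2 := hN (lo f)
    have hN0 : 0 < N := by omega
    have h3 : rk (hi e) = rk (hi f) := by
      have e1 : (rk (hi e) * N + rk (lo e)) / N = rk (hi e) := by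
        rw [mul_comm, Nat.mul_add_div hN0, Nat.div_eq_of_lt h1, add_zero]
      have e2 : (rk (hi f) * N + rk (lo f)) / N = rk (hi f) := by
        rw [mul_comm, Nat.mul_add_div hN0, Nat.div_eq_of_lt h2, add_zero]
      rw [← e1, ← e2, hef']
    rw [h3] at hef'
    have h4 : rk (lo e) = rk (lo f) := by omega
    apply Subtype.ext
    rw [hlh e, hlh f, hrk h3, hrk h4]
  · intro e f hef
    rw [lineGraph_adj_iff_exists] at hef
    obtain ⟨-, w, hwe, hwf⟩ := hef
    have h1 := (hcol e w hwe).1
    have h2 := (hcol f w hwf).2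
    exact h1.trans h2
  · intro τ' c
    obtain ⟨τ, hτ⟩ : ∃ τ, τ = τ' / N := ⟨_, rfl⟩
    refine lineSweep_card _ ({v | rk v = τ} ∪
      {v | τ ≤ rk v ∧ ∃ u, rk u < τ ∧ col u = c ∧ H.Adj u v} ∪
      {v | τ ≤ rk v ∧ ∃ u, rk u < τ ∧ col u = c + 1 ∧ H.Adj u v})
      (fun v => {f : H.edgeSet | v ∈ (f : Sym2 V)}) ?_ ?_ ?_
    · have h1 : ({v | rk v = τ} : Set V).encard ≤ 1 := by
        rw [Set.encard_le_one_iff]
        intro a b ha hb
        exact hrk (Eq.trans ha (Eq.symm hb))
      calc _ ≤ ({v | rk v = τ} ∪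
            {v | τ ≤ rk v ∧ ∃ u, rk u < τ ∧ col u = c ∧ H.Adj u v} : Set V).encard + _ :=
            Set.encard_union_le _ _
        _ ≤ (1 + 2) + 2 := by
            refine add_le_add ((Set.encard_union_le _ _).trans (add_le_add h1 (hfront τ c))) ?_
            exact hfront τ (c + 1)
        _ = 5 := by norm_num
    · intro v
      have h1 : ((fun f : H.edgeSet => (f : Sym2 V)) '' {f : H.edgeSet | v ∈ (f : Sym2 V)}) ⊆
          (fun u => s(v, u)) '' {u | H.Adj v u} := by
        rintro _ ⟨f, hf, rfl⟩
        have hfa := hadj f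
        rcases hmem f v hf with h | h
        · refine ⟨hi f, ?_, ?_⟩
          · rw [h]
            exact hfa
          · change s(v, hi f) = (f : Sym2 V)
            rw [hlh f, ← h]
        · refine ⟨lo f, ?_, ?_⟩
          · rw [h]
            exact hfa.symm
          · change s(v, lo f) = (f : Sym2 V)
            rw [hlh f, ← h, Sym2.eq_swap]
      have h2 := Set.encard_le_encard h1
      rw [Function.Injective.encard_image Subtype.val_injective] at h2
      exact h2.trans ((Set.encard_image_le _ _).trans (hdeg v))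
    · rintro f ⟨hf, e, he, hec, hef⟩
      rw [lineGraph_adj_iff_exists] at hef
      obtain ⟨-, w, hwe, hwf⟩ := hef
      have hf' : τ' ≤ rk (hi f) * N + rk (lo f) := hf
      have he' : rk (hi e) * N + rk (lo e) < τ' := he
      have hc' : min (col (lo e)) (col (hi e)) = c := hec
      have hN0 : 0 < N := by have := hN w; omega
      have h1 : rk (hi e) ≤ τ := by
        rw [hτ, Nat.le_div_iff_mul_le hN0]
        omega
      have h2 : rk w ≤ τ := by
        rcases hmem e w hwe with rfl | rfl
        · exact (hlt e).le.trans h1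
        · exact h1
      have h3 : τ ≤ rk (hi f) := by
        have h4 : τ' < (rk (hi f) + 1) * N := by
          have := hN (lo f)
          rw [add_mul, one_mul]
          omega
        have h5 : τ' / N < rk (hi f) + 1 := (Nat.div_lt_iff_lt_mul hN0).2 h4
        omega
      rcases h2.lt_or_eq with h2 | h2
      · have hwl : w = lo f := by
          rcases hmem f w hwf with h | h
          · exact h
          · rw [h] at h2
            omega
        have hcw := hcol e w hwe
        rw [hc'] at hcw
        have hhi : hi f ∈ (f : Sym2 V) := by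
          rw [hlh f]
          exact Sym2.mem_mk_right _ _
        have hA : H.Adj w (hi f) := by
          rw [hwl]
          exact hadj f
        rcases (by omega : col w = c ∨ col w = c + 1) with h | h
        · exact ⟨hi f, Or.inl (Or.inr ⟨h3, w, h2, h, hA⟩), hhi⟩
        · exact ⟨hi f, Or.inr ⟨h3, w, h2, h, hA⟩, hhi⟩
      · exact ⟨w, Or.inl (Or.inl h2), hwf⟩

end Pool.Agent.H39.TW
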