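import Pool.Agent.H39.TW.Lower

/-!
# Row LineTW: treewidth of line graphs

Proof. Let `D` be a tree decomposition of `H.lineGraph`. Same tree, new bags
`bag' t = {v | ∃ e ∈ D.bag t, v ∈ (e : Sym2 V)}`. Its number of elements is at most `2 * (w + 1)` (each edge has two ends:
`bag'` is the union of the images of two functions on `D.bag t`, or a biUnion; `Set.encard`). Every vertex `v` has an edge
`e = s(v, u)`, which is in a bag; the two ends of an edge are in `bag' t` for a `t` with `e ∈ D.bag t`. The node set of `v`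
is the union of the node sets of the edges at `v`; each is preconnected, and two edges at `v` are equal or adjacent in the
line graph (`SimpleGraph.lineGraph_adj_iff_exists`), hence in a common bag: the union is preconnected.
(For preconnectedness of the union: choose an edge `e₀` at `v` and connect everything to a node of `e₀`; map the
walks of the smaller induced subgraph into the larger one, e.g. with `SimpleGraph.induceHomOfLE` and
`Reachable.map`.)
-/

set_option autoImplicit false

open scoped Classical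

namespace Pool.Agent.H39.TW

open SimpleGraph

theorem treewidth_lineGraph {V : Type*} (H : SimpleGraph V) (w : ℕ)
    (hiso : ∀ v, ∃ u, H.Adj v u) (h : TreewidthAtMost H.lineGraph w) :
    TreewidthAtMost H (2 * w + 1) := by
  obtain ⟨D, hD⟩ := h
  let B : D.node → Set V := fun t => {v | ∃ e : H.edgeSet, e ∈ D.bag t ∧ v ∈ (e : Sym2 V)}
  have hsub : ∀ (e : H.edgeSet) (v : V), v ∈ (e : Sym2 V) →
      {t | e ∈ D.bag t} ⊆ {t | v ∈ B t} := fun e v hv t ht => ⟨e, ht, hv⟩
  have hreach : ∀ (e : H.edgeSet) (v : V), v ∈ (e : Sym2 V) → ∀ (t t' : {t | v ∈ B t}),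
      e ∈ D.bag t.1 → e ∈ D.bag t'.1 → (D.tree.induce {t | v ∈ B t}).Reachable t t' := by
    intro e v hv t t' ht ht'
    have h1 := D.connected e ⟨t.1, ht⟩ ⟨t'.1, ht'⟩
    exact h1.map (SimpleGraph.induceHomOfLE D.tree (hsub e v hv)).toHom
  refine ⟨⟨D.node, D.tree, D.isTree, B, ?_, ?_, ?_⟩, ?_⟩
  · intro v
    obtain ⟨u, hu⟩ := hiso v
    obtain ⟨t, ht⟩ := D.vertex ⟨s(v, u), hu⟩
    exact ⟨t, ⟨s(v, u), hu⟩, ht, Sym2.mem_mk_left v u⟩
  · intro u v huv
    obtain ⟨t, ht⟩ := D.vertex ⟨s(u, v), huv⟩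
    exact ⟨t, ⟨⟨s(u, v), huv⟩, ht, Sym2.mem_mk_left u v⟩, ⟨s(u, v), huv⟩, ht, Sym2.mem_mk_right u v⟩
  · intro v
    rintro ⟨t, e, he, hv⟩ ⟨t', e', he', hv'⟩
    by_cases hee : e = e'
    · subst hee
      exact hreach e v hv _ _ he he'
    · have hadj : H.lineGraph.Adj e e' := by
        rw [SimpleGraph.lineGraph_adj_iff_exists]
        exact ⟨hee, v, hv, hv'⟩
      obtain ⟨t₀, h0, h0'⟩ := D.edge e e' hadj
      have hm : t₀ ∈ {t | v ∈ B t} := ⟨e, h0, hv⟩
      exact (hreach e v hv ⟨t, e, he, hv⟩ ⟨t₀, hm⟩ he h0).trans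
        (hreach e' v hv' ⟨t₀, hm⟩ ⟨t', e', he', hv'⟩ h0' he')
  · intro t
    have h1 : B t ⊆ (fun e : H.edgeSet => (Quot.out (e : Sym2 V)).1) '' D.bag t ∪
        (fun e : H.edgeSet => (Quot.out (e : Sym2 V)).2) '' D.bag t := by
      rintro v ⟨e, he, hv⟩
      have h2 : (e : Sym2 V) = s((Quot.out (e : Sym2 V)).1, (Quot.out (e : Sym2 V)).2) :=
        (Quot.out_eq (e : Sym2 V)).symm
      rw [h2, Sym2.mem_iff] at hv
      rcases hv with hv | hv
      · exact Or.inl ⟨e, he, hv.symm⟩
      · exact Or.inr ⟨e, he, hv.symm⟩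
    have h3 : (B t).encard ≤ (w + 1 : ℕ) + (w + 1 : ℕ) :=
      (Set.encard_le_encard h1).trans ((Set.encard_union_le _ _).trans
        (add_le_add ((Set.encard_image_le _ _).trans (hD t)) ((Set.encard_image_le _ _).trans (hD t))))
    refine h3.trans (le_of_eq ?_)
    rw [← Nat.cast_add]
    congr 1
    omega

end Pool.Agent.H39.TW
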