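import Pool.Agent.H39.TW.Wall

/-!
# Five obstructions to small treewidth
-/

set_option autoImplicit false

namespace Pool.Agent.H39.TW

open SimpleGraph

/-- The graph `G` has one of five obstructions of size `k` to small treewidth: as an induced
subgraph the complete graph `K_k`, the complete bipartite graph `K_{k,k}`, a subdivision of the wall
with `k` rows or the line graph of such a subdivision, or a `(k, k)`-constellation. -/
def HasObstruction {V : Type} (G : SimpleGraph V) (k : ℕ) : Prop :=
  (⊤ : SimpleGraph (Fin k)) ⊴ G ∨ completeBipartiteGraph (Fin k) (Fin k) ⊴ G ∨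
    (∃ a b, subdividedWall k a b ⊴ G) ∨ (∃ a b, (subdividedWall k a b).lineGraph ⊴ G) ∨
      Nonempty (Constellation G k k)

end Pool.Agent.H39.TW
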