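import Pool.Agent.H39.TW.Def

/-!
# Lower bound for the treewidth by a clique minor (Helly property of subtrees)
-/

set_option autoImplicit false

namespace Pool.Agent.H39.TW

open SimpleGraph

/-- connectedness of a set as an induction principle -/
def ConnSet {V : Type*} (G : SimpleGraph V) (A : Set V) : Prop :=
  ∀ P : V → Prop, (∀ x ∈ A, ∀ y ∈ A, G.Adj x y → P x → P y) → ∀ s ∈ A, ∀ t ∈ A, P s → P t

theorem connSet_of_induce {V : Type*} (G : SimpleGraph V) (A : Set V)
    (h : (G.induce A).Preconnected) : ConnSet G A := by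
  intro P hP s hs t ht hPs
  obtain ⟨w⟩ := h ⟨s, hs⟩ ⟨t, ht⟩
  have key : ∀ (x y : A), (G.induce A).Walk x y → P x → P y := by
    intro x y w
    induction w with
    | nil => exact id
    | cons hadj _ ih => exact fun hx => ih (hP _ (Subtype.property _) _ (Subtype.property _) hadj hx)
  exact key _ _ w hPs

/-- `a` separates `x` from the root `o` (or is equal to one of them) -/
def Below {N : Type*} (T : SimpleGraph N) (o a x : N) : Prop := ∀ p : T.Walk o x, a ∈ p.support

theorem below_self {N : Type*} (T : SimpleGraph N) (o a : N) : Below T o a a :=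
  fun p => p.end_mem_support

theorem below_step {N : Type*} (T : SimpleGraph N) (o a x y : N) (hxy : T.Adj x y)
    (hx : Below T o a x) (hy : ¬ Below T o a y) : x = a := by
  unfold Below at hy
  push Not at hy
  obtain ⟨p, hp⟩ := hy
  have h1 := hx (p.concat hxy.symm)
  rw [Walk.support_concat] at h1
  simp only [List.mem_append, List.mem_singleton] at h1
  rcases h1 with h1 | h1
  · exact absurd h1 hp
  · exact h1.symm

theorem below_dist {N : Type*} (T : SimpleGraph N) (hT : T.IsTree) (o a x : N)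
    (h : Below T o a x) (hne : a ≠ x) : T.dist o a < T.dist o x := by
  classical
  obtain ⟨p, hp⟩ := (hT.connected o x).exists_walk_length_eq_dist
  have hmem := h p
  have h1 : T.dist o a ≤ (p.takeUntil a hmem).length := dist_le _
  have h2 : (p.takeUntil a hmem).length < p.length := by
    apply Walk.length_takeUntil_lt_length hmem hne
  omega

theorem parent_dist {N : Type*} (T : SimpleGraph N) (hT : T.IsTree) (o x y : N) (hxy : T.Adj x y)
    (h : ¬ Below T o x y) : T.dist o y < T.dist o x := by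
  classical
  by_contra hcon
  push Not at hcon
  obtain ⟨q, hq, hql⟩ := hT.connected.exists_path_of_dist o x
  unfold Below at h
  push Not at h
  obtain ⟨p, hp⟩ := h
  have hy : y ∉ q.support := by
    intro hmem
    have h1 : T.dist o y ≤ (q.takeUntil y hmem).length := dist_le _
    have h2 : (q.takeUntil y hmem).length < q.length :=
      Walk.length_takeUntil_lt_length hmem hxy.ne'
    omega
  have hp' : x ∉ (p.toPath : T.Walk o y).support := fun hh => hp (Walk.support_toPath_subset_support p hh)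
  have h3 := hT.isAcyclic.mem_support_of_ne_mem_support_of_adj_of_isPath (p := (p.toPath : T.Walk o y))
    (q := q) p.toPath.property hq hxy.symm hy
  exact hp' h3

/-- Helly property: finitely many pairwise meeting connected sets of nodes of a tree have a common
node. -/
theorem helly {N : Type*} (T : SimpleGraph N) (hT : T.IsTree) {r : ℕ} (hr : 0 < r)
    (A : Fin r → Set N) (hc : ∀ i, ConnSet T (A i)) (hm : ∀ i j, ∃ z, z ∈ A i ∧ z ∈ A j) :
    ∃ t, ∀ i, t ∈ A i := by
  classical
  obtain ⟨o⟩ := hT.connected.nonempty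
  have hne : ∀ i, (A i).Nonempty := fun i => by
    obtain ⟨z, hz, _⟩ := hm i i
    exact ⟨z, hz⟩
  -- the node of each set nearest to the root
  have htop : ∀ i, ∃ a ∈ A i, ∀ b ∈ A i, T.dist o a ≤ T.dist o b := by
    intro i
    have h1 := exists_minimalFor_of_wellFoundedLT (fun b => b ∈ A i) (fun b => T.dist o b) (hne i)
    obtain ⟨a, ha, hmin⟩ := h1
    refine ⟨a, ha, fun b hb => ?_⟩
    by_contra hcon
    push Not at hcon
    exact absurd (hmin hb hcon.le) (by simpa using hcon)
  choose a haA hamin using htop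
  -- every node of the set is below its top
  have hbelow : ∀ i, ∀ b ∈ A i, Below T o (a i) b := by
    intro i b hb
    refine hc i (fun x => Below T o (a i) x) ?_ (a i) (haA i) b hb (below_self T o (a i))
    intro x hx y hy hxy hbx
    by_contra hcon
    have hxa := below_step T o (a i) x y hxy hbx hcon
    subst hxa
    have := parent_dist T hT o _ y hxy hcon
    have := hamin i y hy
    omega
  obtain ⟨m, _, hmax⟩ := Finset.exists_max_image (Finset.univ : Finset (Fin r))
    (fun i => T.dist o (a i)) ⟨⟨0, hr⟩, Finset.mem_univ _⟩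
  refine ⟨a m, fun i => ?_⟩
  by_contra hcon
  obtain ⟨z, hzi, hzm⟩ := hm i m
  have hnb : ¬ Below T o (a m) (a i) := by
    intro hb
    have hne : a m ≠ a i := fun h => hcon (h ▸ haA i)
    have h1 := below_dist T hT o (a m) (a i) hb hne
    have h2 := hmax i (Finset.mem_univ _)
    omega
  have := hc i (fun x => ¬ Below T o (a m) x) ?_ (a i) (haA i) z hzi hnb
  · exact this (hbelow m z hzm)
  · intro x hx y hy hxy hnx hby
    have := below_step T o (a m) y x hxy.symm hby hnx
    exact hcon (this ▸ hy)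

/-- `r` disjoint nonempty connected pairwise adjacent vertex sets. -/
def CliqueMinor {V : Type*} (G : SimpleGraph V) (r : ℕ) : Prop :=
  ∃ B : Fin r → Set V, (∀ i, (B i).Nonempty) ∧ (∀ i j, i ≠ j → Disjoint (B i) (B j)) ∧
    (∀ i, ConnSet G (B i)) ∧ ∀ i j, i ≠ j → ∃ u ∈ B i, ∃ v ∈ B j, G.Adj u v

theorem not_treewidthAtMost {V : Type*} (G : SimpleGraph V) (w : ℕ)
    (h : CliqueMinor G (w + 2)) : ¬ TreewidthAtMost G w := by
  classical
  rintro ⟨D, hD⟩
  obtain ⟨B, hne, hdis, hconn, hadj⟩ := h
  have hv : ∀ v, ConnSet D.tree {t | v ∈ D.bag t} := fun v => connSet_of_induce _ _ (D.connected v)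
  have hA1 : ∀ i, ConnSet D.tree {t | ∃ v ∈ B i, v ∈ D.bag t} := by
    intro i P hP s hs t ht hPs
    obtain ⟨v, hvB, hvs⟩ := hs
    obtain ⟨v', hvB', hvt⟩ := ht
    have hstep : ∀ v ∈ B i, ∀ s, v ∈ D.bag s → P s → ∀ t, v ∈ D.bag t → P t := by
      intro v hvB s hs hPs t ht
      refine hv v P ?_ s hs t ht hPs
      intro x hx y hy hxy
      exact hP x ⟨v, hvB, hx⟩ y ⟨v, hvB, hy⟩ hxy
    have hQ := hconn i (fun v => ∀ t, v ∈ D.bag t → P t) ?_ v hvB v' hvB'
      (hstep v hvB s hvs hPs)
    · exact hQ t hvt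
    · intro x hx y hy hxy hQx
      obtain ⟨s', hs1, hs2⟩ := D.edge x y hxy
      exact hstep y hy s' hs2 (hQx s' hs1)
  have hA2 : ∀ i j, ∃ z, z ∈ {t | ∃ v ∈ B i, v ∈ D.bag t} ∧ z ∈ {t | ∃ v ∈ B j, v ∈ D.bag t} := by
    intro i j
    rcases eq_or_ne i j with rfl | hij
    · obtain ⟨v, hv⟩ := hne i
      obtain ⟨t, ht⟩ := D.vertex v
      exact ⟨t, ⟨v, hv, ht⟩, ⟨v, hv, ht⟩⟩
    · obtain ⟨u, hu, v, hv, huv⟩ := hadj i j hij
      obtain ⟨t, h1, h2⟩ := D.edge u v huv
      exact ⟨t, ⟨u, hu, h1⟩, ⟨v, hv, h2⟩⟩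
  obtain ⟨t, ht⟩ := helly D.tree D.isTree (Nat.succ_pos (w + 1))
    (fun i => {t | ∃ v ∈ B i, v ∈ D.bag t}) hA1 hA2
  choose f hfB hft using ht
  have hinj : Function.Injective f := by
    intro i j hij
    by_contra hne'
    exact Set.disjoint_left.1 (hdis i j hne') (hfB i) (hij ▸ hfB j)
  have h1 : Set.range f ⊆ D.bag t := by
    rintro _ ⟨i, rfl⟩
    exact hft i
  have h2 := Set.encard_le_encard h1
  have h3 : (Set.range f).encard = (w + 2 : ℕ) := by
    rw [← Set.image_univ, hinj.encard_image, Set.encard_univ]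
    simp only [ENat.card_eq_coe_fintype_card, Fintype.card_fin]
  have h4 := hD t
  rw [h3] at h2
  have h5 : ((w + 2 : ℕ) : ℕ∞) ≤ ((w + 1 : ℕ) : ℕ∞) := h2.trans h4
  rw [Nat.cast_le] at h5
  omega

end Pool.Agent.H39.TW
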