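import Pool.Agent.H39.TW.Wall
import Pool.Agent.H39.TW.Lower

/-!
# Row WallGrid: rows and columns of a subdivided wall

`R i` = the vertices `(i, j, 0, p)` (row `i`); `C j` = the vertices `(i, 2 j, 0, p)`, `(i, 2 j + 1, 0, 0)`, and the vertical
ones `(i, 2 j, 1, p)`, `(i, 2 j + 1, 1, p)`.
-/

set_option autoImplicit false

open scoped Classical

namespace Pool.Agent.H39.TW

open SimpleGraph

theorem connSet_of_root {V : Type*} (G : SimpleGraph V) (A : Set V) (o : V)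
    (h : ∀ P : V → Prop, (∀ x ∈ A, ∀ y ∈ A, G.Adj x y → (P x ↔ P y)) → ∀ s ∈ A, (P s ↔ P o)) :
    ConnSet G A := by
  intro P hP s hs t ht hPs
  have h1 : ∀ x ∈ A, ∀ y ∈ A, G.Adj x y → (P x ↔ P y) := fun x hx y hy e =>
    ⟨hP x hx y hy e, hP y hy x hx e.symm⟩
  exact (h P h1 t ht).2 ((h P h1 s hs).1 hPs)

section

variable {h : ℕ} {a b : ℕ → ℕ → ℕ}

theorem wv0 {i j : ℕ} (hi : i < h) (hj : j < 2 * h) : WallVertex h a b (i, j, 0, 0) :=
  ⟨hi, hj, Or.inl ⟨rfl, rfl⟩⟩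

theorem wvr {i j p : ℕ} (hi : i < h) (hj : j + 1 < 2 * h) (hp : p ≤ a i j) :
    WallVertex h a b (i, j, 0, p) := by
  rcases Nat.eq_zero_or_pos p with rfl | hp0
  · exact wv0 hi (by omega)
  · exact ⟨hi, by show j < 2 * h; omega, Or.inr (Or.inl ⟨rfl, hp0, hp, hj⟩)⟩

theorem wvc {i j p : ℕ} (hi : i + 1 < h) (hj : j < 2 * h) (hp0 : 1 ≤ p) (hp : p ≤ b i j)
    (he : Even (i + j)) : WallVertex h a b (i, j, 1, p) :=
  ⟨by show i < h; omega, hj, Or.inr (Or.inr ⟨rfl, hp0, hp, hi, he⟩)⟩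

theorem adj_row {i j p : ℕ} (hx : WallVertex h a b (i, j, 0, p))
    (hy : WallVertex h a b (i, j, 0, p + 1)) :
    (subdividedWall h a b).Adj ⟨(i, j, 0, p), hx⟩ ⟨(i, j, 0, p + 1), hy⟩ :=
  Or.inl (Or.inl ⟨rfl, rfl, rfl, Or.inl ⟨rfl, rfl⟩⟩)

theorem adj_row' {i j p : ℕ} (hp : p = a i j) (hx : WallVertex h a b (i, j, 0, p))
    (hy : WallVertex h a b (i, j + 1, 0, 0)) :
    (subdividedWall h a b).Adj ⟨(i, j, 0, p), hx⟩ ⟨(i, j + 1, 0, 0), hy⟩ :=
  Or.inl (Or.inl ⟨rfl, rfl, rfl, Or.inr ⟨rfl, hp, rfl⟩⟩)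

theorem adj_col {i j p : ℕ} (he : Even (i + j)) (hx : WallVertex h a b (i, j, 1, p))
    (hy : WallVertex h a b (i, j, 1, p + 1)) :
    (subdividedWall h a b).Adj ⟨(i, j, 1, p), hx⟩ ⟨(i, j, 1, p + 1), hy⟩ :=
  Or.inl (Or.inr ⟨Or.inl rfl, he, rfl, Or.inl ⟨rfl, rfl, rfl⟩⟩)

theorem adj_col0 {i j : ℕ} (he : Even (i + j)) (hx : WallVertex h a b (i, j, 0, 0))
    (hy : WallVertex h a b (i, j, 1, 1)) :
    (subdividedWall h a b).Adj ⟨(i, j, 0, 0), hx⟩ ⟨(i, j, 1, 1), hy⟩ :=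
  Or.inl (Or.inr ⟨Or.inr rfl, he, rfl, Or.inl ⟨rfl, rfl, rfl⟩⟩)

theorem adj_col' {i j t p : ℕ} (ht : t = 1 ∨ p = 0) (hp : p = b i j) (he : Even (i + j))
    (hx : WallVertex h a b (i, j, t, p)) (hy : WallVertex h a b (i + 1, j, 0, 0)) :
    (subdividedWall h a b).Adj ⟨(i, j, t, p), hx⟩ ⟨(i + 1, j, 0, 0), hy⟩ :=
  Or.inl (Or.inr ⟨ht, he, rfl, Or.inr ⟨rfl, hp, rfl, rfl⟩⟩)

/-- Row `i`. -/
def rowSet (h : ℕ) (a b : ℕ → ℕ → ℕ) (i : ℕ) : Set {x : ℕ × ℕ × ℕ × ℕ // WallVertex h a b x} :=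
  {v | v.1.1 = i ∧ v.1.2.2.1 = 0}

/-- Column pair `j`. -/
def colSet (h : ℕ) (a b : ℕ → ℕ → ℕ) (j : ℕ) : Set {x : ℕ × ℕ × ℕ × ℕ // WallVertex h a b x} :=
  {v | v.1.2.1 = 2 * j ∨ (v.1.2.1 = 2 * j + 1 ∧ (v.1.2.2.1 = 1 ∨ v.1.2.2.2 = 0))}

theorem row_conn {i : ℕ} (hi : i < h) : ConnSet (subdividedWall h a b) (rowSet h a b i) := by
  have h0 : WallVertex h a b (i, 0, 0, 0) := wv0 hi (by omega)
  refine connSet_of_root _ _ ⟨(i, 0, 0, 0), h0⟩ ?_
  intro P hP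
  have key : ∀ j p (hv : WallVertex h a b (i, j, 0, p)),
      (P ⟨(i, j, 0, p), hv⟩ ↔ P ⟨(i, 0, 0, 0), h0⟩) := by
    intro j
    induction j with
    | zero =>
      intro p
      induction p with
      | zero => exact fun _ => Iff.rfl
      | succ p ih =>
        intro hv
        have hv' : WallVertex h a b (i, 0, 0, p) := by
          obtain ⟨h1, h2, h3⟩ := hv
          rcases h3 with h3 | h3 | h3
          · exact absurd h3.2 (Nat.succ_ne_zero p)
          · exact wvr h1 h3.2.2.2 (by have := h3.2.2.1; simp only at this; omega)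
          · exact absurd h3.1 (by simp)
        rw [← ih hv']
        exact (hP _ ⟨rfl, rfl⟩ _ ⟨rfl, rfl⟩ (adj_row hv' hv)).symm
    | succ j ihj =>
      intro p
      induction p with
      | zero =>
        intro hv
        have hj : j + 1 < 2 * h := hv.2.1
        have hv' : WallVertex h a b (i, j, 0, a i j) := wvr hi hj le_rfl
        rw [← ihj (a i j) hv']
        exact (hP _ ⟨rfl, rfl⟩ _ ⟨rfl, rfl⟩ (adj_row' rfl hv' hv)).symm
      | succ p ih =>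
        intro hv
        have hv' : WallVertex h a b (i, j + 1, 0, p) := by
          obtain ⟨h1, h2, h3⟩ := hv
          rcases h3 with h3 | h3 | h3
          · exact absurd h3.2 (Nat.succ_ne_zero p)
          · exact wvr h1 h3.2.2.2 (by have := h3.2.2.1; simp only at this; omega)
          · exact absurd h3.1 (by simp)
        rw [← ih hv']
        exact (hP _ ⟨rfl, rfl⟩ _ ⟨rfl, rfl⟩ (adj_row hv' hv)).symm
  rintro ⟨⟨i', j, t, p⟩, hv⟩ ⟨h1, h2⟩
  simp only at h1 h2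
  subst h1 h2
  exact key j p hv

theorem col_conn {j : ℕ} (hj : 2 * j + 1 < 2 * h) :
    ConnSet (subdividedWall h a b) (colSet h a b j) := by
  have h0 : WallVertex h a b (0, 2 * j, 0, 0) := wv0 (by omega) (by omega)
  refine connSet_of_root _ _ ⟨(0, 2 * j, 0, 0), h0⟩ ?_
  intro P hP
  -- along the horizontal edge
  have k1 : ∀ i p (hv : WallVertex h a b (i, 2 * j, 0, p)) (hw : WallVertex h a b (i, 2 * j, 0, 0)),
      (P ⟨(i, 2 * j, 0, p), hv⟩ ↔ P ⟨(i, 2 * j, 0, 0), hw⟩) := by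
    intro i p
    induction p with
    | zero => exact fun _ _ => Iff.rfl
    | succ p ih =>
      intro hv hw
      have hv' : WallVertex h a b (i, 2 * j, 0, p) := by
        obtain ⟨h1, h2, h3⟩ := hv
        rcases h3 with h3 | h3 | h3
        · exact absurd h3.2 (Nat.succ_ne_zero p)
        · exact wvr h1 h3.2.2.2 (by have := h3.2.2.1; simp only at this; omega)
        · exact absurd h3.1 (by simp)
      rw [← ih hv' hw]
      exact (hP _ (Or.inl rfl) _ (Or.inl rfl) (adj_row hv' hv)).symm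
  -- the second branch vertex
  have k2 : ∀ i (hv : WallVertex h a b (i, 2 * j + 1, 0, 0)) (hw : WallVertex h a b (i, 2 * j, 0, 0)),
      (P ⟨(i, 2 * j + 1, 0, 0), hv⟩ ↔ P ⟨(i, 2 * j, 0, 0), hw⟩) := by
    intro i hv hw
    have hv' : WallVertex h a b (i, 2 * j, 0, a i (2 * j)) := wvr hv.1 hj le_rfl
    rw [← k1 i _ hv' hw]
    exact (hP _ (Or.inl rfl) _ (Or.inr ⟨rfl, Or.inr rfl⟩) (adj_row' rfl hv' hv)).symm
  -- the vertical edges
  have k3 : ∀ i c, (c = 2 * j ∨ c = 2 * j + 1) → ∀ p (hv : WallVertex h a b (i, c, 1, p + 1))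
      (hw : WallVertex h a b (i, c, 0, 0)),
      (P ⟨(i, c, 1, p + 1), hv⟩ ↔ P ⟨(i, c, 0, 0), hw⟩) := by
    intro i c hc p
    have hm1 : ∀ q (hv : WallVertex h a b (i, c, 1, q)), (⟨(i, c, 1, q), hv⟩ :
        {x : ℕ × ℕ × ℕ × ℕ // WallVertex h a b x}) ∈ colSet h a b j := by
      intro q hv
      rcases hc with hc | hc
      · exact Or.inl hc
      · exact Or.inr ⟨hc, Or.inl rfl⟩
    have hm0 : ∀ (hv : WallVertex h a b (i, c, 0, 0)), (⟨(i, c, 0, 0), hv⟩ :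
        {x : ℕ × ℕ × ℕ × ℕ // WallVertex h a b x}) ∈ colSet h a b j := by
      intro hv
      rcases hc with hc | hc
      · exact Or.inl hc
      · exact Or.inr ⟨hc, Or.inr rfl⟩
    induction p with
    | zero =>
      intro hv hw
      have he : Even (i + c) := by
        obtain ⟨_, _, h3⟩ := hv
        rcases h3 with h3 | h3 | h3
        · exact absurd h3.1 (by simp)
        · exact absurd h3.1 (by simp)
        · exact h3.2.2.2.2
      exact (hP _ (hm0 hw) _ (hm1 _ hv) (adj_col0 he hw hv)).symm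
    | succ p ih =>
      intro hv hw
      obtain ⟨h1, h2, h3⟩ := id hv
      rcases h3 with h3 | h3 | h3
      · exact absurd h3.1 (by simp)
      · exact absurd h3.1 (by simp)
      · obtain ⟨_, _, h5, h6, he⟩ := h3
        simp only at h5 h6 he h2
        have hv' : WallVertex h a b (i, c, 1, p + 1) := wvc h6 h2 (by omega) (by omega) he
        rw [← ih hv' hw]
        exact (hP _ (hm1 _ hv') _ (hm1 _ hv) (adj_col he hv' hv)).symm
  -- from one row to the next in one column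
  have k4 : ∀ i c, (c = 2 * j ∨ c = 2 * j + 1) → Even (i + c) →
      ∀ (hv : WallVertex h a b (i + 1, c, 0, 0)) (hw : WallVertex h a b (i, c, 0, 0)),
      (P ⟨(i + 1, c, 0, 0), hv⟩ ↔ P ⟨(i, c, 0, 0), hw⟩) := by
    intro i c hc he hv hw
    have hm : ∀ i' t q (hv : WallVertex h a b (i', c, t, q)), (t = 1 ∨ q = 0) →
        (⟨(i', c, t, q), hv⟩ :
        {x : ℕ × ℕ × ℕ × ℕ // WallVertex h a b x}) ∈ colSet h a b j := by
      intro i' t q hv ht
      rcases hc with hc | hc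
      · exact Or.inl hc
      · exact Or.inr ⟨hc, ht⟩
    rcases Nat.eq_zero_or_pos (b i c) with hb | hb
    · exact (hP _ (hm _ _ _ hw (Or.inr rfl)) _ (hm _ _ _ hv (Or.inr rfl))
        (adj_col' (Or.inr rfl) hb.symm he hw hv)).symm
    · have hv' : WallVertex h a b (i, c, 1, b i c) := wvc hv.1 hv.2.1 hb le_rfl he
      have e1 := (hP _ (hm _ _ _ hv' (Or.inl rfl)) _ (hm _ _ _ hv (Or.inr rfl))
        (adj_col' (Or.inl rfl) rfl he hv' hv)).symm
      obtain ⟨q, hq⟩ : ∃ q, b i c = q + 1 := ⟨b i c - 1, by omega⟩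
      have e2 : ∀ p (hp : p = q + 1) (hv : WallVertex h a b (i, c, 1, p)),
          (P ⟨(i, c, 1, p), hv⟩ ↔ P ⟨(i, c, 0, 0), hw⟩) := by
        intro p hp hv
        subst hp
        exact k3 i c hc q hv hw
      exact e1.trans (e2 _ hq hv')
  have k5 : ∀ i (hv : WallVertex h a b (i, 2 * j, 0, 0)),
      (P ⟨(i, 2 * j, 0, 0), hv⟩ ↔ P ⟨(0, 2 * j, 0, 0), h0⟩) := by
    intro i
    induction i with
    | zero => exact fun _ => Iff.rfl
    | succ i ih =>
      intro hv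
      have hi : i + 1 < h := hv.1
      have hw : WallVertex h a b (i, 2 * j, 0, 0) := wv0 (by omega) (by omega)
      rw [← ih hw]
      rcases Nat.even_or_odd i with he | ho
      · exact k4 i (2 * j) (Or.inl rfl) (he.add (even_two_mul j)) hv hw
      · have hv1 : WallVertex h a b (i + 1, 2 * j + 1, 0, 0) := wv0 hi hj
        have hw1 : WallVertex h a b (i, 2 * j + 1, 0, 0) := wv0 (by omega) hj
        have he : Even (i + (2 * j + 1)) := ho.add_odd (odd_two_mul_add_one j)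
        exact ((k2 (i + 1) hv1 hv).symm.trans (k4 i (2 * j + 1) (Or.inr rfl) he hv1 hw1)).trans
          (k2 i hw1 hw)
  have k6 : ∀ i c, (c = 2 * j ∨ c = 2 * j + 1) → ∀ (hv : WallVertex h a b (i, c, 0, 0)),
      (P ⟨(i, c, 0, 0), hv⟩ ↔ P ⟨(0, 2 * j, 0, 0), h0⟩) := by
    intro i c hc hv
    rcases hc with hc | hc
    · subst hc
      exact k5 i hv
    · subst hc
      have hw : WallVertex h a b (i, 2 * j, 0, 0) := wv0 hv.1 (by omega)
      exact (k2 i hv hw).trans (k5 i hw)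
  rintro ⟨⟨i, c, t, p⟩, hv⟩ hmem
  have hc : c = 2 * j ∨ c = 2 * j + 1 := by
    rcases hmem with h1 | h1
    · exact Or.inl h1
    · exact Or.inr h1.1
  obtain ⟨h1, h2, h3⟩ := id hv
  simp only at h1 h2 h3
  have hw : WallVertex h a b (i, c, 0, 0) := wv0 h1 h2
  rcases h3 with ⟨h3, h4⟩ | ⟨h3, h4, h5, h6⟩ | ⟨h3, h4, h5, h6, h7⟩
  · subst h3 h4
    exact k6 i c hc hv
  · subst h3
    rcases hmem with h8 | h8
    · simp only at h8
      subst h8
      exact (k1 i p hv hw).trans (k5 i hw)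
    · rcases h8.2 with h9 | h9
      · simp only at h9
        omega
      · simp only at h9
        omega
  · subst h3
    obtain ⟨q, rfl⟩ : ∃ q, p = q + 1 := ⟨p - 1, by omega⟩
    exact (k3 i c hc q hv hw).trans (k6 i c hc hw)

end

theorem wall_grid (w h : ℕ) (hh : w + 2 ≤ h) (a b : ℕ → ℕ → ℕ) :
    ∃ R C : Fin (w + 2) → Set {x : ℕ × ℕ × ℕ × ℕ // WallVertex h a b x},
      (∀ i, ConnSet (subdividedWall h a b) (R i)) ∧ (∀ j, ConnSet (subdividedWall h a b) (C j)) ∧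
      (∀ i j, i ≠ j → Disjoint (R i) (R j)) ∧ (∀ i j, i ≠ j → Disjoint (C i) (C j)) ∧
      ∀ i j, ∃ v, v ∈ R i ∧ v ∈ C j := by
  refine ⟨fun i => rowSet h a b i, fun j => colSet h a b j, ?_, ?_, ?_, ?_, ?_⟩
  · intro i
    exact row_conn (by have := i.2; omega)
  · intro j
    exact col_conn (by have := j.2; omega)
  · intro i j hij
    rw [Set.disjoint_left]
    intro v h1 h2
    exact hij (Fin.ext (h1.1.symm.trans h2.1))
  · intro i j hij
    rw [Set.disjoint_left]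
    intro v h1 h2
    apply hij
    apply Fin.ext
    rcases h1 with h1 | h1 <;> rcases h2 with h2 | h2 <;> omega
  · intro i j
    exact ⟨⟨((i : ℕ), 2 * (j : ℕ), 0, 0), wv0 (by have := i.2; omega) (by have := j.2; omega)⟩,
      ⟨rfl, rfl⟩, Or.inl rfl⟩

theorem wall_noniso (h : ℕ) (a b : ℕ → ℕ → ℕ) (v : {x : ℕ × ℕ × ℕ × ℕ // WallVertex h a b x}) :
    ∃ u, (subdividedWall h a b).Adj v u := by
  obtain ⟨⟨i, j, t, p⟩, hv⟩ := v
  obtain ⟨h1, h2, h3⟩ := id hv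
  simp only at h1 h2 h3
  have hrow : ∀ p (hv : WallVertex h a b (i, j, 0, p)), j + 1 < 2 * h → p ≤ a i j →
      ∃ u, (subdividedWall h a b).Adj ⟨(i, j, 0, p), hv⟩ u := by
    intro p hv hj hp
    rcases hp.lt_or_eq with hp | hp
    · exact ⟨⟨(i, j, 0, p + 1), wvr h1 hj hp⟩, adj_row _ _⟩
    · exact ⟨⟨(i, j + 1, 0, 0), wv0 h1 hj⟩, adj_row' hp _ _⟩
  rcases h3 with ⟨h3, h4⟩ | ⟨h3, h4, h5, h6⟩ | ⟨h3, h4, h5, h6, h7⟩
  · subst h3 h4
    by_cases hj : j + 1 < 2 * h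
    · exact hrow 0 hv hj (Nat.zero_le _)
    · obtain ⟨j', rfl⟩ : ∃ j', j = j' + 1 := ⟨j - 1, by omega⟩
      exact ⟨⟨(i, j', 0, a i j'), wvr h1 h2 le_rfl⟩, (adj_row' rfl _ _).symm⟩
  · subst h3
    exact hrow p hv h6 h5
  · subst h3
    rcases h5.lt_or_eq with h5 | h5
    · exact ⟨⟨(i, j, 1, p + 1), wvc h6 h2 (by omega) h5 h7⟩, adj_col h7 _ _⟩
    · exact ⟨⟨(i + 1, j, 0, 0), wv0 h6 h2⟩, adj_col' (Or.inl rfl) h5 h7 _ _⟩

end Pool.Agent.H39.TW
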