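import Pool.Agent.H39.TW.Wall
import Mathlib

/-!
# Row WallSweep: a subdivided wall has a sweep

Proof. `col (i, j, k, p) = j`. Let `B` be larger than all `a i j + 1` and `b i j + 1` (`i < h`, `j < 2 h`), and
`rk (i, j, k, p) = ((2 * i + k) * (2 * h) + j) * B + p` (lexicographic order of `(2 i + k, j, p)`; for valid vertices `k ≤ 1`,
`j < 2 h`, `p < B`, so `rk` is injective and its order is the lexicographic one).
* Degree: `y` is next to `x` (`WallNext x y`) in at most two ways (one with `y` in the same row, one in the vertical path), and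
  `WallNext y x` for at most two `y`; a branch vertex has no vertical next if `i + j` is odd, and no vertical
  predecessor if `i + j` is even (its predecessor would be in column `j` of row `i - 1`, `i - 1 + j` even); subdivision vertices
  have one next and one predecessor. So at most 3.
* Front of `(τ, c)`: let `u` be in column `c`, `rk u < τ ≤ rk v`, `u` adjacent to `v`. Horizontal kind (`u`, `v` in the same row, i.e. both
  `k = 0` and the same `i`): then `v` is the successor of `u` in the order of all `k = 0` vertices of this row, so `v` is the unique vertex of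
  least rank `≥ τ` with `k = 0` (the order of ranks among the vertices is that of the row, nothing is between `u` and `v`): such `v` is
  unique. Vertical kind: `u`, `v` are consecutive on the vertical path from `(i, c, 0, 0)` to `(i + 1, c, 0, 0)`; ranks increase along it
  (`2 i, 2 i + 1, .., 2 i + 1, 2 i + 2` in the first coordinate); two such pairs crossing `τ` are equal, because the intervals of ranks of
  different pairs (for the same `c`) do not overlap: the pairs of column `c` form chains with increasing ranks, the chain of `i`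
  inside the ranks from that of `(i, c, 0, 0)` to that of `(i + 1, c, 0, 0)`. So at most one such `v`. Total `≤ 2`.
  (In a crossing pair `u` is always the smaller one: `WallNext u v`, since `WallNext` increases `rk`.)
-/

set_option autoImplicit false

open scoped Classical

namespace Pool.Agent.H39.TW

open SimpleGraph

/-- Horizontal part of `WallNext`. -/
def WsH (a : ℕ → ℕ → ℕ) (x y : ℕ × ℕ × ℕ × ℕ) : Prop :=
  x.2.2.1 = 0 ∧ y.2.2.1 = 0 ∧ x.1 = y.1 ∧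
    ((x.2.1 = y.2.1 ∧ x.2.2.2 + 1 = y.2.2.2) ∨
      (x.2.1 + 1 = y.2.1 ∧ x.2.2.2 = a x.1 x.2.1 ∧ y.2.2.2 = 0))

/-- Vertical part of `WallNext`. -/
def WsV (b : ℕ → ℕ → ℕ) (x y : ℕ × ℕ × ℕ × ℕ) : Prop :=
  (x.2.2.1 = 1 ∨ x.2.2.2 = 0) ∧ (x.1 + x.2.1) % 2 = 0 ∧ x.2.1 = y.2.1 ∧
    ((x.1 = y.1 ∧ y.2.2.1 = 1 ∧ x.2.2.2 + 1 = y.2.2.2) ∨
      (x.1 + 1 = y.1 ∧ x.2.2.2 = b x.1 x.2.1 ∧ y.2.2.1 = 0 ∧ y.2.2.2 = 0))

theorem ws_next (a b : ℕ → ℕ → ℕ) (x y : ℕ × ℕ × ℕ × ℕ) :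
    WallNext a b x y ↔ WsH a x y ∨ WsV b x y := by
  unfold WallNext WsH WsV
  rw [Nat.even_iff]

theorem ws_vertex {h : ℕ} {a b : ℕ → ℕ → ℕ} {x : ℕ × ℕ × ℕ × ℕ} (hx : WallVertex h a b x) :
    x.1 < h ∧ x.2.1 < 2 * h ∧
    ((x.2.2.1 = 0 ∧ x.2.2.2 = 0) ∨
      (x.2.2.1 = 0 ∧ 1 ≤ x.2.2.2 ∧ x.2.2.2 ≤ a x.1 x.2.1) ∨
      (x.2.2.1 = 1 ∧ 1 ≤ x.2.2.2 ∧ x.2.2.2 ≤ b x.1 x.2.1)) := by
  obtain ⟨h1, h2, h3⟩ := hx
  refine ⟨h1, h2, ?_⟩
  rcases h3 with h3 | h3 | h3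
  · exact Or.inl h3
  · exact Or.inr (Or.inl ⟨h3.1, h3.2.1, h3.2.2.1⟩)
  · exact Or.inr (Or.inr ⟨h3.1, h3.2.1, h3.2.2.1⟩)

theorem ws_bound (h : ℕ) (a b : ℕ → ℕ → ℕ) :
    ∃ B : ℕ, ∀ x, WallVertex h a b x → x.2.2.2 < B := by
  refine ⟨∑ i ∈ Finset.range h, ∑ j ∈ Finset.range (2 * h), (a i j + b i j) + 1, ?_⟩
  intro x hx
  obtain ⟨h1, h2, h3⟩ := ws_vertex hx
  have h4 : ∑ j ∈ Finset.range (2 * h), (a x.1 j + b x.1 j) ≤
      ∑ i ∈ Finset.range h, ∑ j ∈ Finset.range (2 * h), (a i j + b i j) :=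
    Finset.single_le_sum (f := fun i => ∑ j ∈ Finset.range (2 * h), (a i j + b i j))
      (fun _ _ => Nat.zero_le _) (Finset.mem_range.2 h1)
  have h5 : a x.1 x.2.1 + b x.1 x.2.1 ≤ ∑ j ∈ Finset.range (2 * h), (a x.1 j + b x.1 j) :=
    Finset.single_le_sum (f := fun j => a x.1 j + b x.1 j)
      (fun _ _ => Nat.zero_le _) (Finset.mem_range.2 h2)
  omega

/-- The rank of a vertex. -/
def wsRk (h B : ℕ) (x : ℕ × ℕ × ℕ × ℕ) : ℕ :=
  ((2 * x.1 + x.2.2.1) * (2 * h) + x.2.1) * B + x.2.2.2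

theorem ws_lex_aux {A A' p p' B : ℕ} (hp : p < B) (hp' : p' < B) :
    A * B + p < A' * B + p' ↔ A < A' ∨ (A = A' ∧ p < p') := by
  rcases lt_trichotomy A A' with h | h | h
  · have h1 : (A + 1) * B ≤ A' * B := Nat.mul_le_mul_right B h
    rw [Nat.add_mul, one_mul] at h1
    constructor
    · intro _; exact Or.inl h
    · intro _; omega
  · subst h
    omega
  · have h1 : (A' + 1) * B ≤ A * B := Nat.mul_le_mul_right B h
    rw [Nat.add_mul, one_mul] at h1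
    constructor
    · intro _; omega
    · intro _; omega

theorem ws_lex {h B : ℕ} {x y : ℕ × ℕ × ℕ × ℕ} (hx : x.2.1 < 2 * h) (hy : y.2.1 < 2 * h)
    (hxB : x.2.2.2 < B) (hyB : y.2.2.2 < B) :
    wsRk h B x < wsRk h B y ↔ 2 * x.1 + x.2.2.1 < 2 * y.1 + y.2.2.1 ∨
      (2 * x.1 + x.2.2.1 = 2 * y.1 + y.2.2.1 ∧
        (x.2.1 < y.2.1 ∨ (x.2.1 = y.2.1 ∧ x.2.2.2 < y.2.2.2))) := by
  unfold wsRk
  rw [ws_lex_aux hxB hyB, ws_lex_aux hx hy]
  constructor
  · rintro ((h1 | h1) | ⟨h1, h2⟩)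
    · exact Or.inl h1
    · exact Or.inr ⟨h1.1, Or.inl h1.2⟩
    · have h3 : ¬ ((2 * x.1 + x.2.2.1) * (2 * h) + x.2.1 < (2 * y.1 + y.2.2.1) * (2 * h) + y.2.1) := by
        omega
      have h4 : ¬ ((2 * y.1 + y.2.2.1) * (2 * h) + y.2.1 < (2 * x.1 + x.2.2.1) * (2 * h) + x.2.1) := by
        omega
      rw [ws_lex_aux hx hy] at h3
      rw [ws_lex_aux hy hx] at h4
      omega
  · rintro (h1 | ⟨h1, h2 | ⟨h2, h3⟩⟩)
    · exact Or.inl (Or.inl h1)
    · exact Or.inl (Or.inr ⟨h1, h2⟩)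
    · refine Or.inr ⟨?_, h3⟩
      rw [h1, h2]

theorem ws_ext {x y : ℕ × ℕ × ℕ × ℕ} (h1 : x.1 = y.1) (h2 : x.2.1 = y.2.1)
    (h3 : x.2.2.1 = y.2.2.1) (h4 : x.2.2.2 = y.2.2.2) : x = y :=
  Prod.ext h1 (Prod.ext h2 (Prod.ext h3 h4))

theorem ws_H_next_unique {h : ℕ} {a b : ℕ → ℕ → ℕ} {x y z : ℕ × ℕ × ℕ × ℕ}
    (hy : WallVertex h a b y) (hz : WallVertex h a b z) (h1 : WsH a x y) (h2 : WsH a x z) :
    y = z := by
  obtain ⟨xi, xj, xk, xp⟩ := x
  obtain ⟨yi, yj, yk, yp⟩ := y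
  obtain ⟨zi, zj, zk, zp⟩ := z
  have hy' := ws_vertex hy
  have hz' := ws_vertex hz
  unfold WsH at h1 h2
  dsimp only at h1 h2 hy' hz'
  obtain ⟨e1, e2, e3, e4⟩ := h1
  obtain ⟨f1, f2, f3, f4⟩ := h2
  subst e3 f3
  rcases e4 with ⟨g1, g2⟩ | ⟨g1, g2, g3⟩ <;> rcases f4 with ⟨k1, k2⟩ | ⟨k1, k2, k3⟩
  · exact ws_ext rfl (by dsimp only; omega) (by dsimp only; omega) (by dsimp only; omega)
  · subst g1
    omega
  · subst k1
    omega
  · exact ws_ext rfl (by dsimp only; omega) (by dsimp only; omega) (by dsimp only; omega)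

theorem ws_H_prev_unique {a : ℕ → ℕ → ℕ} {x y z : ℕ × ℕ × ℕ × ℕ}
    (h1 : WsH a y x) (h2 : WsH a z x) :
    y = z := by
  obtain ⟨xi, xj, xk, xp⟩ := x
  obtain ⟨yi, yj, yk, yp⟩ := y
  obtain ⟨zi, zj, zk, zp⟩ := z
  unfold WsH at h1 h2
  dsimp only at h1 h2
  obtain ⟨e1, e2, e3, e4⟩ := h1
  obtain ⟨f1, f2, f3, f4⟩ := h2
  subst e3 f3
  rcases e4 with ⟨g1, g2⟩ | ⟨g1, g2, g3⟩ <;> rcases f4 with ⟨k1, k2⟩ | ⟨k1, k2, k3⟩
  · exact ws_ext rfl (by dsimp only; omega) (by dsimp only; omega) (by dsimp only; omega)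
  · omega
  · omega
  · have h5 : yj = zj := by omega
    subst h5
    exact ws_ext rfl rfl (by dsimp only; omega) (by dsimp only; omega)

theorem ws_V_next_unique {h : ℕ} {a b : ℕ → ℕ → ℕ} {x y z : ℕ × ℕ × ℕ × ℕ}
    (hy : WallVertex h a b y) (hz : WallVertex h a b z) (h1 : WsV b x y) (h2 : WsV b x z) :
    y = z := by
  obtain ⟨xi, xj, xk, xp⟩ := x
  obtain ⟨yi, yj, yk, yp⟩ := y
  obtain ⟨zi, zj, zk, zp⟩ := z
  have hy' := ws_vertex hy
  have hz' := ws_vertex hz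
  unfold WsV at h1 h2
  dsimp only at h1 h2 hy' hz'
  obtain ⟨e1, e2, e3, e4⟩ := h1
  obtain ⟨f1, f2, f3, f4⟩ := h2
  subst e3 f3
  rcases e4 with ⟨g1, g2, g3⟩ | ⟨g1, g2, g3, g4⟩ <;> rcases f4 with ⟨k1, k2, k3⟩ | ⟨k1, k2, k3, k4⟩
  · exact ws_ext (by dsimp only; omega) rfl (by dsimp only; omega) (by dsimp only; omega)
  · subst g1
    omega
  · subst k1
    omega
  · exact ws_ext (by dsimp only; omega) rfl (by dsimp only; omega) (by dsimp only; omega)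

theorem ws_V_prev_unique {h : ℕ} {a b : ℕ → ℕ → ℕ} {x y z : ℕ × ℕ × ℕ × ℕ}
    (hy : WallVertex h a b y) (hz : WallVertex h a b z) (h1 : WsV b y x) (h2 : WsV b z x) :
    y = z := by
  obtain ⟨xi, xj, xk, xp⟩ := x
  obtain ⟨yi, yj, yk, yp⟩ := y
  obtain ⟨zi, zj, zk, zp⟩ := z
  have hy' := ws_vertex hy
  have hz' := ws_vertex hz
  unfold WsV at h1 h2
  dsimp only at h1 h2 hy' hz'
  obtain ⟨e1, e2, e3, e4⟩ := h1
  obtain ⟨f1, f2, f3, f4⟩ := h2
  subst e3 f3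
  rcases e4 with ⟨g1, g2, g3⟩ | ⟨g1, g2, g3, g4⟩ <;> rcases f4 with ⟨k1, k2, k3⟩ | ⟨k1, k2, k3, k4⟩
  · exact ws_ext (by dsimp only; omega) rfl (by dsimp only; omega) (by dsimp only; omega)
  · omega
  · omega
  · have h5 : yi = zi := by omega
    subst h5
    exact ws_ext rfl rfl (by dsimp only; omega) (by dsimp only; omega)

theorem ws_V_mixed {b : ℕ → ℕ → ℕ} {x y z : ℕ × ℕ × ℕ × ℕ} (hx : x.2.2.1 = 0)
    (h1 : WsV b x y) (h2 : WsV b z x) : False := by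
  obtain ⟨xi, xj, xk, xp⟩ := x
  obtain ⟨yi, yj, yk, yp⟩ := y
  obtain ⟨zi, zj, zk, zp⟩ := z
  unfold WsV at h1 h2
  dsimp only at h1 h2 hx
  omega

theorem ws_H_k {a : ℕ → ℕ → ℕ} {x y : ℕ × ℕ × ℕ × ℕ} (h1 : WsH a x y) :
    x.2.2.1 = 0 ∧ y.2.2.1 = 0 := ⟨h1.1, h1.2.1⟩

theorem ws_H_lt {h B : ℕ} {a b : ℕ → ℕ → ℕ} {x y : ℕ × ℕ × ℕ × ℕ}
    (hB : ∀ x, WallVertex h a b x → x.2.2.2 < B)
    (hx : WallVertex h a b x) (hy : WallVertex h a b y) (h1 : WsH a x y) :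
    wsRk h B x < wsRk h B y := by
  rw [ws_lex (ws_vertex hx).2.1 (ws_vertex hy).2.1 (hB x hx) (hB y hy)]
  unfold WsH at h1
  omega

theorem ws_V_lt {h B : ℕ} {a b : ℕ → ℕ → ℕ} {x y : ℕ × ℕ × ℕ × ℕ}
    (hB : ∀ x, WallVertex h a b x → x.2.2.2 < B)
    (hx : WallVertex h a b x) (hy : WallVertex h a b y) (h1 : WsV b x y) :
    wsRk h B x < wsRk h B y := by
  rw [ws_lex (ws_vertex hx).2.1 (ws_vertex hy).2.1 (hB x hx) (hB y hy)]
  have h2 := ws_vertex hx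
  unfold WsV at h1
  omega

/-- two crossing horizontal pairs -/
theorem ws_H_cross {h B : ℕ} {a b : ℕ → ℕ → ℕ} {x y x' y' : ℕ × ℕ × ℕ × ℕ}
    (hB : ∀ x, WallVertex h a b x → x.2.2.2 < B)
    (hx : WallVertex h a b x) (hy : WallVertex h a b y)
    (hx' : WallVertex h a b x') (hy' : WallVertex h a b y')
    (h1 : WsH a x y) (h2 : WsH a x' y') (hc : x.2.1 = x'.2.1)
    (h3 : wsRk h B x < wsRk h B y') (h4 : wsRk h B x' < wsRk h B y) : x = x' := by
  rw [ws_lex (ws_vertex hx).2.1 (ws_vertex hy').2.1 (hB x hx) (hB y' hy')] at h3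
  rw [ws_lex (ws_vertex hx').2.1 (ws_vertex hy).2.1 (hB x' hx') (hB y hy)] at h4
  have hxv := ws_vertex hx
  have hxv' := ws_vertex hx'
  obtain ⟨xi, xj, xk, xp⟩ := x
  obtain ⟨yi, yj, yk, yp⟩ := y
  obtain ⟨zi, zj, zk, zp⟩ := x'
  obtain ⟨wi, wj, wk, wp⟩ := y'
  unfold WsH at h1 h2
  dsimp only at *
  subst hc
  have h5 : xi = zi := by omega
  subst h5
  exact ws_ext rfl rfl (by dsimp only; omega) (by dsimp only; omega)

/-- two crossing vertical pairs -/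
theorem ws_V_cross {h B : ℕ} {a b : ℕ → ℕ → ℕ} {x y x' y' : ℕ × ℕ × ℕ × ℕ}
    (hB : ∀ x, WallVertex h a b x → x.2.2.2 < B)
    (hx : WallVertex h a b x) (hy : WallVertex h a b y)
    (hx' : WallVertex h a b x') (hy' : WallVertex h a b y')
    (h1 : WsV b x y) (h2 : WsV b x' y') (hc : x.2.1 = x'.2.1)
    (h3 : wsRk h B x < wsRk h B y') (h4 : wsRk h B x' < wsRk h B y) : x = x' := by
  rw [ws_lex (ws_vertex hx).2.1 (ws_vertex hy').2.1 (hB x hx) (hB y' hy')] at h3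
  rw [ws_lex (ws_vertex hx').2.1 (ws_vertex hy).2.1 (hB x' hx') (hB y hy)] at h4
  have hxv := ws_vertex hx
  have hxv' := ws_vertex hx'
  obtain ⟨xi, xj, xk, xp⟩ := x
  obtain ⟨yi, yj, yk, yp⟩ := y
  obtain ⟨zi, zj, zk, zp⟩ := x'
  obtain ⟨wi, wj, wk, wp⟩ := y'
  unfold WsV at h1 h2
  dsimp only at *
  subst hc
  have h5 : xi = zi := by omega
  subst h5
  have h6 : xk = zk := by omega
  subst h6
  exact ws_ext rfl rfl rfl (by dsimp only; omega)

theorem wall_finite (h : ℕ) (a b : ℕ → ℕ → ℕ) :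
    Finite {x : ℕ × ℕ × ℕ × ℕ // WallVertex h a b x} := by
  obtain ⟨B, hB⟩ := ws_bound h a b
  have h1 : {x : ℕ × ℕ × ℕ × ℕ | WallVertex h a b x} ⊆
      (Set.Iio h) ×ˢ ((Set.Iio (2 * h)) ×ˢ ((Set.Iic 1) ×ˢ (Set.Iio B))) := by
    intro x hx
    have h2 := ws_vertex hx
    have h3 := hB x hx
    refine ⟨h2.1, h2.2.1, ?_, h3⟩
    change x.2.2.1 ≤ 1
    omega
  have h2 : Set.Finite {x : ℕ × ℕ × ℕ × ℕ | WallVertex h a b x} := by
    refine Set.Finite.subset ?_ h1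
    exact (Set.finite_Iio h).prod ((Set.finite_Iio (2 * h)).prod
      ((Set.finite_Iic 1).prod (Set.finite_Iio B)))
  exact h2.to_subtype

theorem ws_encard_two {α : Type*} {S S1 S2 : Set α} (hS : S ⊆ S1 ∪ S2)
    (h1 : ∀ x y, x ∈ S1 → y ∈ S1 → x = y) (h2 : ∀ x y, x ∈ S2 → y ∈ S2 → x = y) :
    S.encard ≤ 2 := by
  have h3 := Set.encard_le_one_iff.2 h1
  have h4 := Set.encard_le_one_iff.2 h2
  refine (Set.encard_le_encard hS).trans ((Set.encard_union_le _ _).trans ?_)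
  refine (add_le_add h3 h4).trans ?_
  rw [one_add_one_eq_two]

theorem ws_encard_three {α : Type*} {S S1 S2 S3 : Set α} (hS : S ⊆ S1 ∪ S2 ∪ S3)
    (h1 : ∀ x y, x ∈ S1 → y ∈ S1 → x = y) (h2 : ∀ x y, x ∈ S2 → y ∈ S2 → x = y)
    (h3 : ∀ x y, x ∈ S3 → y ∈ S3 → x = y) :
    S.encard ≤ 3 := by
  have h4 := Set.encard_le_one_iff.2 h3
  have h5 := ws_encard_two (S := S1 ∪ S2) (Set.Subset.refl _) h1 h2
  refine (Set.encard_le_encard hS).trans ((Set.encard_union_le _ _).trans ?_)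
  refine (add_le_add h5 h4).trans ?_
  rw [two_add_one_eq_three]

theorem wall_sweep (h : ℕ) (a b : ℕ → ℕ → ℕ) :
    ∃ col rk : {x : ℕ × ℕ × ℕ × ℕ // WallVertex h a b x} → ℕ, Function.Injective rk ∧
      (∀ u v, (subdividedWall h a b).Adj u v → col u ≤ col v + 1) ∧
      (∀ τ c, {v | τ ≤ rk v ∧ ∃ u, rk u < τ ∧ col u = c ∧
        (subdividedWall h a b).Adj u v}.encard ≤ 2) ∧
      ∀ v, {u | (subdividedWall h a b).Adj v u}.encard ≤ 3 := by
  obtain ⟨B, hB⟩ := ws_bound h a b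
  refine ⟨fun x => x.1.2.1, fun x => wsRk h B x.1, ?_, ?_, ?_, ?_⟩
  · intro x y hxy
    dsimp only at hxy
    have h1 : ¬ wsRk h B x.1 < wsRk h B y.1 := by omega
    have h2 : ¬ wsRk h B y.1 < wsRk h B x.1 := by omega
    rw [ws_lex (ws_vertex x.2).2.1 (ws_vertex y.2).2.1 (hB _ x.2) (hB _ y.2)] at h1
    rw [ws_lex (ws_vertex y.2).2.1 (ws_vertex x.2).2.1 (hB _ y.2) (hB _ x.2)] at h2
    have h3 := ws_vertex x.2
    have h4 := ws_vertex y.2
    apply Subtype.ext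
    exact ws_ext (by omega) (by omega) (by omega) (by omega)
  · intro u v huv
    dsimp only
    have h1 : WallNext a b u.1 v.1 ∨ WallNext a b v.1 u.1 := huv
    unfold WallNext at h1
    omega
  · intro τ c
    refine ws_encard_two (S1 := {v | τ ≤ wsRk h B v.1 ∧
        ∃ u : {x : ℕ × ℕ × ℕ × ℕ // WallVertex h a b x}, wsRk h B u.1 < τ ∧ u.1.2.1 = c ∧ WsH a u.1 v.1})
      (S2 := {v | τ ≤ wsRk h B v.1 ∧
        ∃ u : {x : ℕ × ℕ × ℕ × ℕ // WallVertex h a b x}, wsRk h B u.1 < τ ∧ u.1.2.1 = c ∧ WsV b u.1 v.1})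
      ?_ ?_ ?_
    · rintro v ⟨hv, u, hu, hc, huv⟩
      dsimp only at hv hu hc
      have h1 : WallNext a b u.1 v.1 ∨ WallNext a b v.1 u.1 := huv
      rw [ws_next, ws_next] at h1
      rcases h1 with (h1 | h1) | (h1 | h1)
      · exact Or.inl ⟨hv, u, hu, hc, h1⟩
      · exact Or.inr ⟨hv, u, hu, hc, h1⟩
      · exfalso
        have h2 := ws_H_lt hB v.2 u.2 h1
        omega
      · exfalso
        have h2 := ws_V_lt hB v.2 u.2 h1
        omega
    · rintro v v' ⟨hv, u, hu, hc, huv⟩ ⟨hv', u', hu', hc', huv'⟩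
      have h1 : u.1 = u'.1 := ws_H_cross hB u.2 v.2 u'.2 v'.2 huv huv' (by omega) (by omega) (by omega)
      rw [← h1] at huv'
      exact Subtype.ext (ws_H_next_unique v.2 v'.2 huv huv')
    · rintro v v' ⟨hv, u, hu, hc, huv⟩ ⟨hv', u', hu', hc', huv'⟩
      have h1 : u.1 = u'.1 := ws_V_cross hB u.2 v.2 u'.2 v'.2 huv huv' (by omega) (by omega) (by omega)
      rw [← h1] at huv'
      exact Subtype.ext (ws_V_next_unique v.2 v'.2 huv huv')
  · intro v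
    by_cases hk : v.1.2.2.1 = 0
    · refine ws_encard_three (S1 := {u | WsH a v.1 u.1}) (S2 := {u | WsH a u.1 v.1})
        (S3 := {u | WsV b v.1 u.1 ∨ WsV b u.1 v.1}) ?_ ?_ ?_ ?_
      · intro u huv
        have h1 : WallNext a b v.1 u.1 ∨ WallNext a b u.1 v.1 := huv
        rw [ws_next, ws_next] at h1
        rcases h1 with (h1 | h1) | (h1 | h1)
        · exact Or.inl (Or.inl h1)
        · exact Or.inr (Or.inl h1)
        · exact Or.inl (Or.inr h1)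
        · exact Or.inr (Or.inr h1)
      · intro x y hx hy
        exact Subtype.ext (ws_H_next_unique x.2 y.2 hx hy)
      · intro x y hx hy
        exact Subtype.ext (ws_H_prev_unique hx hy)
      · rintro x y (hx | hx) (hy | hy)
        · exact Subtype.ext (ws_V_next_unique x.2 y.2 hx hy)
        · exact (ws_V_mixed hk hx hy).elim
        · exact (ws_V_mixed hk hy hx).elim
        · exact Subtype.ext (ws_V_prev_unique x.2 y.2 hx hy)
    · refine ws_encard_three (S1 := {u | WsV b v.1 u.1}) (S2 := {u | WsV b u.1 v.1})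
        (S3 := ∅) ?_ ?_ ?_ ?_
      · intro u huv
        have h1 : WallNext a b v.1 u.1 ∨ WallNext a b u.1 v.1 := huv
        rw [ws_next, ws_next] at h1
        rcases h1 with (h1 | h1) | (h1 | h1)
        · exact (hk (ws_H_k h1).1).elim
        · exact Or.inl (Or.inl h1)
        · exact (hk (ws_H_k h1).2).elim
        · exact Or.inl (Or.inr h1)
      · intro x y hx hy
        exact Subtype.ext (ws_V_next_unique x.2 y.2 hx hy)
      · intro x y hx hy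
        exact Subtype.ext (ws_V_prev_unique x.2 y.2 hx hy)
      · intro x y hx _
        exact hx.elim

end Pool.Agent.H39.TW
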