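import Pool.Agent.H39.TW.Ext
import Pool.Agent.H39.TW.Iso
import Pool.Agent.H39.TW.Obs
import Pool.Agent.H39.TW.LineSweep
import Pool.Agent.H39.TW.Grid
import Pool.Agent.H39.TW.LineTW
import Pool.Agent.H39.TW.WallSweep
import Pool.Agent.H39.TW.WallGrid

/-!
# Assembly
-/

set_option autoImplicit false

open scoped Classical

namespace Pool.Agent.H39.TW

open SimpleGraph

theorem twinWidth_complete (n d : ℕ) : TwinWidthAtMost (⊤ : SimpleGraph (Fin n)) d := by
  apply twinWidthAtMost_of_HC
  refine HC_stageOne _ d (fun _ => True) (fun v : Fin n => (v : ℕ)) (fun _ => ())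
    (fun u v _ _ h => Fin.ext h) ?_ n ?_
  · intro τ X hX
    have : {Y | Y ∈ (Setoid.ker (stageOne (fun _ => True) (fun v : Fin n => (v : ℕ))
        (fun _ => ()) τ)).classes ∧ Y ≠ X ∧ ¬ Homogeneous (⊤ : SimpleGraph (Fin n)) X Y} = ∅ := by
      ext Y
      simp only [Set.mem_ofPred_eq, Set.mem_empty_iff_false, iff_false]
      rintro ⟨hY, hne, hnh⟩
      apply hnh
      left
      intro x hx y hy
      rw [top_adj]
      rintro rfl
      obtain ⟨a, rfl⟩ := hX
      obtain ⟨b, rfl⟩ := hY
      apply hne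
      ext z
      simp only [Set.mem_ofPred_eq, Setoid.ker_def] at *
      rw [← hx, ← hy]
    rw [this]
    simp
  · have : Setoid.ker (stageOne (fun _ => True) (fun v : Fin n => (v : ℕ)) (fun _ => ()) n) = ⊤ := by
      ext x y
      simp [Setoid.ker_def, stageOne, Setoid.top_def]
    rw [this]
    exact HC.top

theorem cliqueMinor_complete (n r : ℕ) (h : r ≤ n) : CliqueMinor (⊤ : SimpleGraph (Fin n)) r := by
  refine ⟨fun i => {Fin.castLE h i}, ?_, ?_, ?_, ?_⟩
  · exact fun i => ⟨_, rfl⟩
  · intro i j hij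
    rw [Set.disjoint_singleton]
    exact fun h' => hij (Fin.castLE_injective h h')
  · intro i P _ s hs t ht hP
    rw [Set.mem_singleton_iff] at hs ht
    rw [ht, ← hs]
    exact hP
  · intro i j hij
    exact ⟨_, rfl, _, rfl, fun h' => hij (Fin.castLE_injective h h')⟩

theorem main (C : (n : ℕ) → SimpleGraph (Fin n) → Prop) (hC : Hereditary C)
    (h : ∀ k, ∃ (n : ℕ) (G : SimpleGraph (Fin n)), C n G ∧ HasObstruction G k) (w : ℕ) :
    ∃ (m : ℕ) (H : SimpleGraph (Fin m)), C m H ∧ TwinWidthAtMost H 17 ∧ ¬ TreewidthAtMost H w := by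
  obtain ⟨K, hK⟩ := extract (w + 2) (by omega)
  obtain ⟨n, G, hG, hobs⟩ := h (max K (2 * w + 3))
  set k := max K (2 * w + 3) with hk
  have hk1 : K ≤ k := le_max_left _ _
  have hk2 : 2 * w + 3 ≤ k := le_max_right _ _
  rcases hobs with h1 | ⟨⟨f⟩⟩ | ⟨a, b, h1⟩ | ⟨a, b, h1⟩ | h1
  · exact of_indContained C hC w 17 n G hG _ h1 (twinWidth_complete _ _)
      (not_treewidthAtMost _ w (cliqueMinor_complete _ _ (by omega)))
  · have hg : GoodSub G (w + 2) := by
      refine caseZero G (w + 2) (fun i => f (Sum.inl (Fin.castLE (by omega) i)))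
        (fun i => f (Sum.inr (Fin.castLE (by omega) i))) ?_ ?_ ?_ ?_ ?_
      · exact fun i j hij => Fin.castLE_injective _ (Sum.inl_injective (f.injective hij))
      · exact fun i j hij => Fin.castLE_injective _ (Sum.inr_injective (f.injective hij))
      · intro i j
        rw [SimpleGraph.Embedding.map_adj_iff]
        simp
      · intro i j
        rw [SimpleGraph.Embedding.map_adj_iff]
        simp
      · intro i j
        rw [SimpleGraph.Embedding.map_adj_iff]
        simp
    obtain ⟨m, H, g1, g2, g3⟩ := of_goodSub C hC w n G hG hg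
    exact ⟨m, H, g1, g2.mono (by omega), g3⟩
  · have := wall_finite k a b
    obtain ⟨col, rk, h2, h3, h4, h5⟩ := wall_sweep k a b
    obtain ⟨R, D, g1, g2, g3, g4, g5⟩ := wall_grid w k (by omega) a b
    exact of_indContained C hC w 17 n G hG _ h1
      ((twinWidth_sweep _ 2 (by omega) col rk h2 h3 h4).mono (by omega))
      (not_treewidthAtMost_grid _ w R D g1 g2 g3 g4 g5)
  · have := wall_finite k a b
    obtain ⟨col, rk, h2, h3, h4, h5⟩ := wall_sweep k a b
    obtain ⟨R, D, g1, g2, g3, g4, g5⟩ := wall_grid (2 * w + 1) k (by omega) a b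
    refine of_indContained C hC w 17 n G hG _ h1 (twinWidth_lineGraph _ col rk h2 h3 h4 h5) ?_
    intro htw
    exact not_treewidthAtMost_grid _ (2 * w + 1) R D g1 g2 g3 g4 g5
      (treewidth_lineGraph _ w (wall_noniso k a b) htw)
  · obtain ⟨m, H, g1, g2, g3⟩ := of_goodSub C hC w n G hG (hK k hk1 _ G h1)
    exact ⟨m, H, g1, g2.mono (by omega), g3⟩

end Pool.Agent.H39.TW
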