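import Pool.Agent.H39.TW.CaseOne

/-!
# Row CaseTwo: a subdivided complete graph of letters and connectors

Letters `star p`, `p : Ix r = Fin r ⊕ (Fin r × Fin r × Fin r)`: `u_i = inl i`, `z_{ijt} = inr (i, j, t)`.
For `i < j` the chain is `u_i, z_{ij0}, ..., z_{ij(r-1)}, u_j`; its `t`-th consecutive pair (`t : Fin (r + 1)`) is
`src i j t, tgt i j t`; the connector `con i j t 0, ..., con i j t (n i j t)` is an induced path whose first vertex
is seen by the source and whose last vertex is seen by the target, and by no other letter (`sees`).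

Proof. `α = {p : Ix r} ⊕ Σ x : {x : Fin r × Fin r × Fin (r + 1) // x.1 < x.2.1}, Fin (n x + 1)` (letters `inr (i, j, t)`
with `j ≤ i` are isolated, they may be kept or dropped), `val` = `star` and `con`.
* `CliqueMinor`: `B i` = all items with first index `i` and second index `j > i` (if they have one), plus `u_i`. Connected:
  (`ConnSet` is an induction principle) every item is linked to `u_i` by induction on `t` and the position. `B i`
  touches `B j` (`i < j`): `con i j r (n i j r)` is adjacent to `u_j`. (See the definition of `CliqueMinor`; for `j < i` use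
  symmetry.)
* `SpacedSystem` (left alternative): `isX` = the items `u_i`; `col u_i = i`, `col z_{ijt} = min (i + t) j`,
  `col (con i j t c) = min (i + t) j`; with `E = (i * r + j) * (r + 1) + t` and `B` larger than all `n i j t + 1`:
  `rk (con i j t c) = E * (B + 1) + c`, `rk z_{ijt} = E * (B + 1) + B`. Adjacent Y-items: two successive vertices of a connector;
  or `con i j t (n i j t)` and `z_{ijt}` (`t < r`); or `z_{ijt}` and `con i j (t + 1) 0`: all consecutive in `rk`, `col` differs by at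
  most 1. `u_i` sees `con i j 0 0` (col `min i j = i`) and `con i' i r (n ..)` (col `min (i' + r) i = i`).
`r = 0` is included (everything is empty).
-/

set_option autoImplicit false

open scoped Classical

namespace Pool.Agent.H39.TW

open SimpleGraph

/-- Index type of the letters. -/
abbrev Ix (r : ℕ) : Type := Fin r ⊕ (Fin r × Fin r × Fin r)

/-- Source letter of the `t`-th connector of the chain from `i` to `j`. -/
def src {r : ℕ} (i j : Fin r) (t : Fin (r + 1)) : Ix r :=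
  if h : (t : ℕ) = 0 then Sum.inl i else Sum.inr (i, j, ⟨(t : ℕ) - 1, by omega⟩)

/-- Target letter of the `t`-th connector of the chain from `i` to `j`. -/
def tgt {r : ℕ} (i j : Fin r) (t : Fin (r + 1)) : Ix r :=
  if h : (t : ℕ) = r then Sum.inl j else Sum.inr (i, j, ⟨(t : ℕ), by omega⟩)

/-- digits -/
theorem c2_digit {m a b a' b' : ℕ} (hb : b < m) (hb' : b' < m) (h : a * m + b = a' * m + b') :
    a = a' ∧ b = b' := by
  have h1 : (a * m + b) / m = a := by
    rw [Nat.add_comm, Nat.add_mul_div_right _ _ (by omega), Nat.div_eq_of_lt hb]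
    simp
  have h2 : (a' * m + b') / m = a' := by
    rw [Nat.add_comm, Nat.add_mul_div_right _ _ (by omega), Nat.div_eq_of_lt hb']
    simp
  have h3 : a = a' := by rw [← h1, ← h2, h]
  subst h3
  exact ⟨rfl, by omega⟩

/-- the third index of a letter as an element of `Fin r` -/
def c2_fz {r : ℕ} (i : Fin r) (t : ℕ) : Fin r := ⟨min t (r - 1), by have := i.isLt; omega⟩

theorem c2_src {r : ℕ} {i j : Fin r} {t : Fin (r + 1)} {i' j' k' : Fin r}
    (h : (Sum.inr (i', j', k') : Ix r) = src i j t) : i' = i ∧ j' = j ∧ (k' : ℕ) + 1 = t := by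
  unfold src at h
  split_ifs at h with h0
  have h1 := Sum.inr_injective h
  simp only [Prod.mk.injEq] at h1
  obtain ⟨h2, h3, h4⟩ := h1
  refine ⟨h2, h3, ?_⟩
  rw [h4]
  simp only
  omega

theorem c2_tgt {r : ℕ} {i j : Fin r} {t : Fin (r + 1)} {i' j' k' : Fin r}
    (h : (Sum.inr (i', j', k') : Ix r) = tgt i j t) : i' = i ∧ j' = j ∧ (k' : ℕ) = t := by
  unfold tgt at h
  split_ifs at h with h0
  have h1 := Sum.inr_injective h
  simp only [Prod.mk.injEq] at h1
  obtain ⟨h2, h3, h4⟩ := h1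
  refine ⟨h2, h3, ?_⟩
  rw [h4]

theorem c2_srcl {r : ℕ} {i j : Fin r} {t : Fin (r + 1)} {i' : Fin r}
    (h : (Sum.inl i' : Ix r) = src i j t) : i' = i ∧ (t : ℕ) = 0 := by
  unfold src at h
  split_ifs at h with h0
  exact ⟨Sum.inl_injective h, h0⟩

theorem c2_tgtl {r : ℕ} {i j : Fin r} {t : Fin (r + 1)} {i' : Fin r}
    (h : (Sum.inl i' : Ix r) = tgt i j t) : i' = j ∧ (t : ℕ) = r := by
  unfold tgt at h
  split_ifs at h with h0
  exact ⟨Sum.inl_injective h, h0⟩

/-- The vertex of an item of a chain. -/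
noncomputable def c2_item {V : Type*} {r : ℕ} (star : Ix r → V) (n : Fin r → Fin r → Fin (r + 1) → ℕ)
    (con : Fin r → Fin r → Fin (r + 1) → ℕ → V) (i j : Fin r) (t : Fin (r + 1)) (c : ℕ) : V :=
  if c ≤ n i j t then con i j t c else star (Sum.inr (i, j, c2_fz i t))

theorem c2_item_pos {V : Type*} {r : ℕ} (star : Ix r → V) (n : Fin r → Fin r → Fin (r + 1) → ℕ)
    (con : Fin r → Fin r → Fin (r + 1) → ℕ → V) (i j : Fin r) (t : Fin (r + 1)) (c : ℕ) (h : c ≤ n i j t) :
    c2_item star n con i j t c = con i j t c := if_pos h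

theorem c2_item_neg {V : Type*} {r : ℕ} (star : Ix r → V) (n : Fin r → Fin r → Fin (r + 1) → ℕ)
    (con : Fin r → Fin r → Fin (r + 1) → ℕ → V) (i j : Fin r) (t : Fin (r + 1)) (c : ℕ) (h : ¬ c ≤ n i j t) :
    c2_item star n con i j t c = star (Sum.inr (i, j, c2_fz i t)) := if_neg h

/-- Index type of the items of the chains. -/
abbrev c2_Y (r : ℕ) (n : Fin r → Fin r → Fin (r + 1) → ℕ) : Type :=
  Σ x : {x : Fin r × Fin r × Fin (r + 1) // x.1 < x.2.1},
    Fin (n x.1.1 x.1.2.1 x.1.2.2 + 1 + (if (x.1.2.2 : ℕ) < r then 1 else 0))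

/-- validity of a position -/
def c2_ok {r : ℕ} (n : Fin r → Fin r → Fin (r + 1) → ℕ) (i j : Fin r) (t : Fin (r + 1)) (c : ℕ) : Prop :=
  c ≤ n i j t ∨ (c = n i j t + 1 ∧ (t : ℕ) < r)

theorem c2_Y_ok {r : ℕ} {n : Fin r → Fin r → Fin (r + 1) → ℕ} (p : c2_Y r n) :
    c2_ok n p.1.1.1 p.1.1.2.1 p.1.1.2.2 p.2 := by
  obtain ⟨⟨⟨i, j, t⟩, h⟩, c, hc⟩ := p
  simp only at hc
  unfold c2_ok
  simp only
  split_ifs at hc with h1
  · omega
  · left; omega

theorem c2_fz_val {r : ℕ} (i : Fin r) (t : ℕ) (ht : t < r) : (c2_fz i t : ℕ) = t := by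
  unfold c2_fz
  simp only
  omega

/-- successive items -/
def c2_next {r : ℕ} (n : Fin r → Fin r → Fin (r + 1) → ℕ) (i j : Fin r) (t : Fin (r + 1)) (c : ℕ)
    (i' j' : Fin r) (t' : Fin (r + 1)) (c' : ℕ) : Prop :=
  i = i' ∧ j = j' ∧ ((t = t' ∧ c + 1 = c') ∨ ((t : ℕ) + 1 = t' ∧ c = n i j t + 1 ∧ c' = 0))

section

variable {V : Type*} (G : SimpleGraph V) (r : ℕ) (star : Ix r → V)
    (n : Fin r → Fin r → Fin (r + 1) → ℕ) (con : Fin r → Fin r → Fin (r + 1) → ℕ → V)

theorem c2_adj (star_stable : ∀ p p', ¬ G.Adj (star p) (star p'))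
    (con_adj : ∀ i j t c i' j' t' c', i < j → i' < j' → c ≤ n i j t → c' ≤ n i' j' t' →
      (G.Adj (con i j t c) (con i' j' t' c') ↔
        i = i' ∧ j = j' ∧ t = t' ∧ (c + 1 = c' ∨ c' + 1 = c)))
    (sees : ∀ p i j t c, i < j → c ≤ n i j t →
      (G.Adj (star p) (con i j t c) ↔ (p = src i j t ∧ c = 0) ∨ (p = tgt i j t ∧ c = n i j t)))
    {i j : Fin r} {t : Fin (r + 1)} {c : ℕ} {i' j' : Fin r} {t' : Fin (r + 1)} {c' : ℕ}
    (hij : i < j) (hij' : i' < j') (hc : c2_ok n i j t c) (hc' : c2_ok n i' j' t' c')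
    (h : G.Adj (c2_item star n con i j t c) (c2_item star n con i' j' t' c')) :
    c2_next n i j t c i' j' t' c' ∨ c2_next n i' j' t' c' i j t c := by
  -- mixed case
  have mixed : ∀ (i j : Fin r) (t : Fin (r + 1)) (c : ℕ) (i' j' : Fin r) (t' : Fin (r + 1)) (c' : ℕ),
      i' < j' → c ≤ n i' j' t' → c' = n i j t + 1 → (t : ℕ) < r →
      G.Adj (star (Sum.inr (i, j, c2_fz i t))) (con i' j' t' c) →
      c2_next n i j t c' i' j' t' c ∨ c2_next n i' j' t' c i j t c' := by
    intro i j t c i' j' t' c' hij' hc hc' ht hadj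
    rw [sees _ i' j' t' c hij' hc] at hadj
    rcases hadj with ⟨h1, h2⟩ | ⟨h1, h2⟩
    · obtain ⟨e1, e2, e3⟩ := c2_src h1
      rw [c2_fz_val i t ht] at e3
      exact Or.inl ⟨e1, e2, Or.inr ⟨e3, hc', h2⟩⟩
    · obtain ⟨e1, e2, e3⟩ := c2_tgt h1
      rw [c2_fz_val i t ht] at e3
      subst e1 e2
      have e4 : t' = t := Fin.ext e3.symm
      subst e4
      exact Or.inr ⟨rfl, rfl, Or.inl ⟨rfl, by omega⟩⟩
  unfold c2_item at h
  rcases hc with h1 | ⟨h1, ht⟩ <;> rcases hc' with h2 | ⟨h2, ht'⟩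
  · rw [if_pos h1, if_pos h2, con_adj i j t c i' j' t' c' hij hij' h1 h2] at h
    obtain ⟨e1, e2, e3, e4 | e4⟩ := h
    · exact Or.inl ⟨e1, e2, Or.inl ⟨e3, e4⟩⟩
    · exact Or.inr ⟨e1.symm, e2.symm, Or.inl ⟨e3.symm, e4⟩⟩
  · rw [if_pos h1, if_neg (by omega)] at h
    exact (mixed i' j' t' c i j t c' hij h1 h2 ht' h.symm).symm
  · rw [if_neg (by omega), if_pos h2] at h
    exact mixed i j t c' i' j' t' c hij' h2 h1 ht h
  · rw [if_neg (by omega), if_neg (by omega)] at h
    exact absurd h (star_stable _ _)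

theorem c2_adj_next 
    (con_adj : ∀ i j t c i' j' t' c', i < j → i' < j' → c ≤ n i j t → c' ≤ n i' j' t' →
      (G.Adj (con i j t c) (con i' j' t' c') ↔
        i = i' ∧ j = j' ∧ t = t' ∧ (c + 1 = c' ∨ c' + 1 = c)))
    (sees : ∀ p i j t c, i < j → c ≤ n i j t →
      (G.Adj (star p) (con i j t c) ↔ (p = src i j t ∧ c = 0) ∨ (p = tgt i j t ∧ c = n i j t)))
    {i j : Fin r} {t : Fin (r + 1)} {c : ℕ} {i' j' : Fin r} {t' : Fin (r + 1)} {c' : ℕ}
    (hij : i < j) (_ : c2_ok n i j t c) (hc' : c2_ok n i' j' t' c')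
    (h : c2_next n i j t c i' j' t' c') :
    G.Adj (c2_item star n con i j t c) (c2_item star n con i' j' t' c') := by
  obtain ⟨e1, e2, e3⟩ := h
  subst e1 e2
  unfold c2_item
  rcases e3 with ⟨e3, e4⟩ | ⟨e3, e4, e5⟩
  · subst e3
    rcases hc' with h2 | ⟨h2, ht'⟩
    · rw [if_pos (by omega), if_pos h2, con_adj i j t c i j t c' hij hij (by omega) h2]
      exact ⟨rfl, rfl, rfl, Or.inl e4⟩
    · rw [if_pos (by omega), if_neg (by omega)]
      apply SimpleGraph.Adj.symm
      rw [sees _ i j t c hij (by omega)]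
      right
      refine ⟨?_, by omega⟩
      unfold tgt
      rw [dif_neg (by omega)]
      congr 3
      apply Fin.ext
      exact c2_fz_val i t ht'
  · subst e5
    have ht : (t : ℕ) < r := by have := t'.isLt; omega
    rw [if_neg (by omega), if_pos (by omega)]
    rw [sees _ i j t' 0 hij (by omega)]
    left
    refine ⟨?_, rfl⟩
    unfold src
    rw [dif_neg (by omega)]
    congr 3
    apply Fin.ext
    rw [c2_fz_val i t ht]
    simp only
    omega

end

theorem caseTwo {V : Type*} (G : SimpleGraph V) (r : ℕ) (star : Ix r → V)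
    (n : Fin r → Fin r → Fin (r + 1) → ℕ) (con : Fin r → Fin r → Fin (r + 1) → ℕ → V)
    (star_inj : Function.Injective star) (star_stable : ∀ p p', ¬ G.Adj (star p) (star p'))
    (star_con : ∀ p i j t c, i < j → c ≤ n i j t → star p ≠ con i j t c)
    (con_inj : ∀ i j t c i' j' t' c', i < j → i' < j' → c ≤ n i j t → c' ≤ n i' j' t' →
      con i j t c = con i' j' t' c' → i = i' ∧ j = j' ∧ t = t' ∧ c = c')
    (con_adj : ∀ i j t c i' j' t' c', i < j → i' < j' → c ≤ n i j t → c' ≤ n i' j' t' →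
      (G.Adj (con i j t c) (con i' j' t' c') ↔
        i = i' ∧ j = j' ∧ t = t' ∧ (c + 1 = c' ∨ c' + 1 = c)))
    (sees : ∀ p i j t c, i < j → c ≤ n i j t →
      (G.Adj (star p) (con i j t c) ↔ (p = src i j t ∧ c = 0) ∨ (p = tgt i j t ∧ c = n i j t))) :
    GoodSub G r := by
  set val : Fin r ⊕ c2_Y r n → V := fun x =>
    Sum.elim (fun i => star (Sum.inl i)) (fun p => c2_item star n con p.1.1.1 p.1.1.2.1 p.1.1.2.2 p.2) x with hval
  have hadj := @c2_adj V G r star n con star_stable con_adj sees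
  have hnext := @c2_adj_next V G r star n con con_adj sees
  have hinj : Function.Injective val := by
    rintro (i | p) (k | q) h
    · exact congrArg Sum.inl (Sum.inl_injective (star_inj h))
    · exfalso
      have h' : star (Sum.inl i) = c2_item star n con q.1.1.1 q.1.1.2.1 q.1.1.2.2 q.2 := h
      by_cases h1 : (q.2 : ℕ) ≤ n q.1.1.1 q.1.1.2.1 q.1.1.2.2
      · rw [c2_item_pos star n con _ _ _ _ h1] at h'
        exact star_con _ _ _ _ _ q.1.2 h1 h'
      · rw [c2_item_neg star n con _ _ _ _ h1] at h'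
        exact absurd (star_inj h') (by simp)
    · exfalso
      have h' : c2_item star n con p.1.1.1 p.1.1.2.1 p.1.1.2.2 p.2 = star (Sum.inl k) := h
      by_cases h1 : (p.2 : ℕ) ≤ n p.1.1.1 p.1.1.2.1 p.1.1.2.2
      · rw [c2_item_pos star n con _ _ _ _ h1] at h'
        exact star_con _ _ _ _ _ p.1.2 h1 h'.symm
      · rw [c2_item_neg star n con _ _ _ _ h1] at h'
        exact absurd (star_inj h') (by simp)
    · have h' : c2_item star n con p.1.1.1 p.1.1.2.1 p.1.1.2.2 p.2 =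
          c2_item star n con q.1.1.1 q.1.1.2.1 q.1.1.2.2 q.2 := h
      have hp := c2_Y_ok p
      have hq := c2_Y_ok q
      have key : p.1.1.1 = q.1.1.1 ∧ p.1.1.2.1 = q.1.1.2.1 ∧ p.1.1.2.2 = q.1.1.2.2 ∧ (p.2 : ℕ) = q.2 := by
        rcases hp with h1 | ⟨h1, ht⟩ <;> rcases hq with h2 | ⟨h2, ht'⟩
        · rw [c2_item_pos star n con _ _ _ _ h1, c2_item_pos star n con _ _ _ _ h2] at h'
          exact con_inj _ _ _ _ _ _ _ _ p.1.2 q.1.2 h1 h2 h'
        · rw [c2_item_pos star n con _ _ _ _ h1, c2_item_neg star n con _ _ _ _ (by omega)] at h'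
          exact absurd h'.symm (star_con _ _ _ _ _ p.1.2 h1)
        · rw [c2_item_neg star n con _ _ _ _ (by omega : ¬ (p.2 : ℕ) ≤ _), c2_item_pos star n con _ _ _ _ h2] at h'
          exact absurd h' (star_con _ _ _ _ _ q.1.2 h2)
        · rw [c2_item_neg star n con _ _ _ _ (by omega : ¬ (p.2 : ℕ) ≤ _),
            c2_item_neg star n con _ _ _ _ (by omega : ¬ (q.2 : ℕ) ≤ _)] at h'
          have h3 := Sum.inr_injective (star_inj h')
          simp only [Prod.mk.injEq] at h3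
          obtain ⟨e1, e2, e3⟩ := h3
          have e4 := congrArg Fin.val e3
          rw [c2_fz_val _ _ ht, c2_fz_val _ _ ht'] at e4
          have e5 : p.1.1.2.2 = q.1.1.2.2 := Fin.ext e4
          refine ⟨e1, e2, e5, ?_⟩
          rw [h1, h2, e1, e2, e5]
      obtain ⟨⟨⟨i, j, t⟩, hij⟩, c, hc⟩ := p
      obtain ⟨⟨⟨i', j', t'⟩, hij'⟩, c', hc'⟩ := q
      simp only at key
      obtain ⟨e1, e2, e3, e4⟩ := key
      subst e1 e2 e3 e4
      rfl
  refine ⟨Fin r ⊕ c2_Y r n, inferInstance, val, hinj, ?_, Or.inl ?_⟩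
  · -- clique minor
    refine ⟨fun i => {x | Sum.elim (fun j => j = i) (fun p : c2_Y r n => p.1.1.1 = i) x}, ?_, ?_, ?_, ?_⟩
    · intro i
      exact ⟨Sum.inl i, rfl⟩
    · intro i j hij
      rw [Set.disjoint_left]
      rintro (a | q) h1 h2
      · exact hij ((show a = i from h1).symm.trans h2)
      · exact hij ((show q.1.1.1 = i from h1).symm.trans h2)
    · intro i P hP
      have hsym : ∀ x ∈ {x : Fin r ⊕ c2_Y r n | Sum.elim (fun j => j = i) (fun p : c2_Y r n => p.1.1.1 = i) x},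
          ∀ y ∈ {x : Fin r ⊕ c2_Y r n | Sum.elim (fun j => j = i) (fun p : c2_Y r n => p.1.1.1 = i) x},
          (G.comap val).Adj x y → (P x ↔ P y) := fun x hx y hy hxy =>
        ⟨hP x hx y hy hxy, hP y hy x hx hxy.symm⟩
      have h2 : ∀ (j : Fin r) (hij : i < j) (t : ℕ) (ht : t < r + 1) (c : ℕ)
          (hc : c < n i j ⟨t, ht⟩ + 1 + (if t < r then 1 else 0)),
          P (Sum.inr ⟨⟨(i, j, ⟨t, ht⟩), hij⟩, ⟨c, hc⟩⟩) ↔ P (Sum.inl i) := by
        intro j hij t
        induction t with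
        | zero =>
          intro ht c
          induction c with
          | zero =>
            intro hc
            apply hsym
            · exact (rfl : i = i)
            · exact (rfl : i = i)
            · show G.Adj (c2_item star n con i j ⟨0, ht⟩ 0) (star (Sum.inl i))
              unfold c2_item
              rw [if_pos (by omega)]
              apply SimpleGraph.Adj.symm
              rw [sees _ i j ⟨0, ht⟩ 0 hij (by omega)]
              left
              refine ⟨?_, rfl⟩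
              unfold src
              rw [dif_pos rfl]
          | succ c ih =>
            intro hc
            rw [← ih (by omega)]
            apply hsym
            · exact (rfl : i = i)
            · exact (rfl : i = i)
            · show G.Adj (c2_item star n con i j ⟨0, ht⟩ (c + 1)) (c2_item star n con i j ⟨0, ht⟩ c)
              apply SimpleGraph.Adj.symm
              refine hnext hij ?_ ?_ ⟨rfl, rfl, Or.inl ⟨rfl, rfl⟩⟩
              · exact c2_Y_ok (⟨⟨(i, j, ⟨0, ht⟩), hij⟩, ⟨c, Nat.lt_of_succ_lt hc⟩⟩ : c2_Y r n)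
              · exact c2_Y_ok (⟨⟨(i, j, ⟨0, ht⟩), hij⟩, ⟨c + 1, hc⟩⟩ : c2_Y r n)
        | succ t iht =>
          intro ht c
          induction c with
          | zero =>
            intro hc
            have htr : t < r := by omega
            have hc2 : n i j ⟨t, by omega⟩ + 1 < n i j ⟨t, by omega⟩ + 1 + (if t < r then 1 else 0) := by
              rw [if_pos htr]; omega
            rw [← iht (by omega) (n i j ⟨t, by omega⟩ + 1) hc2]
            apply hsym
            · exact (rfl : i = i)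
            · exact (rfl : i = i)
            · show G.Adj (c2_item star n con i j ⟨t + 1, ht⟩ 0)
                (c2_item star n con i j ⟨t, by omega⟩ (n i j ⟨t, by omega⟩ + 1))
              apply SimpleGraph.Adj.symm
              refine hnext hij ?_ ?_ ⟨rfl, rfl, Or.inr ⟨rfl, rfl, rfl⟩⟩
              · exact c2_Y_ok (⟨⟨(i, j, ⟨t, by omega⟩), hij⟩, ⟨n i j ⟨t, by omega⟩ + 1, hc2⟩⟩ : c2_Y r n)
              · exact c2_Y_ok (⟨⟨(i, j, ⟨t + 1, ht⟩), hij⟩, ⟨0, hc⟩⟩ : c2_Y r n)
          | succ c ih =>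
            intro hc
            rw [← ih (by omega)]
            apply hsym
            · exact (rfl : i = i)
            · exact (rfl : i = i)
            · show G.Adj (c2_item star n con i j ⟨t + 1, ht⟩ (c + 1)) (c2_item star n con i j ⟨t + 1, ht⟩ c)
              apply SimpleGraph.Adj.symm
              refine hnext hij ?_ ?_ ⟨rfl, rfl, Or.inl ⟨rfl, rfl⟩⟩
              · exact c2_Y_ok (⟨⟨(i, j, ⟨t + 1, ht⟩), hij⟩, ⟨c, Nat.lt_of_succ_lt hc⟩⟩ : c2_Y r n)
              · exact c2_Y_ok (⟨⟨(i, j, ⟨t + 1, ht⟩), hij⟩, ⟨c + 1, hc⟩⟩ : c2_Y r n)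
      have h3 : ∀ x ∈ {x : Fin r ⊕ c2_Y r n | Sum.elim (fun j => j = i) (fun p : c2_Y r n => p.1.1.1 = i) x},
          (P x ↔ P (Sum.inl i)) := by
        rintro (j | ⟨⟨⟨i', j, t, ht⟩, hij⟩, c, hc⟩) hx
        · rw [show j = i from hx]
        · obtain rfl : i' = i := hx
          exact h2 j hij t ht c hc
      intro s hs t ht hPs
      rw [h3 t ht, ← h3 s hs]
      exact hPs
    · have hone : ∀ i j : Fin r, i < j → ∃ p : c2_Y r n, p.1.1.1 = i ∧ G.Adj (star (Sum.inl j)) (val (Sum.inr p)) := by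
        intro i j hij
        refine ⟨⟨⟨(i, j, ⟨r, by omega⟩), hij⟩, ⟨n i j ⟨r, by omega⟩, by simp only; omega⟩⟩, rfl, ?_⟩
        show G.Adj (star (Sum.inl j)) (c2_item star n con i j ⟨r, by omega⟩ (n i j ⟨r, by omega⟩))
        unfold c2_item
        rw [if_pos (le_refl _), sees _ i j ⟨r, by omega⟩ _ hij (le_refl _)]
        right
        refine ⟨?_, rfl⟩
        unfold tgt
        rw [dif_pos rfl]
      intro i j hij
      rcases lt_or_gt_of_ne hij with h | h
      · obtain ⟨p, hp1, hp2⟩ := hone i j h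
        exact ⟨Sum.inr p, hp1, Sum.inl j, rfl, hp2.symm⟩
      · obtain ⟨p, hp1, hp2⟩ := hone j i h
        exact ⟨Sum.inl i, rfl, Sum.inr p, hp1, hp2⟩
  · -- spaced system
    obtain ⟨B, hB⟩ : ∃ B, ∀ i j t, n i j t + 2 ≤ B := by
      refine ⟨(Finset.univ.sup (fun x : Fin r × Fin r × Fin (r + 1) => n x.1 x.2.1 x.2.2)) + 2, fun i j t => ?_⟩
      have := Finset.le_sup (f := fun x : Fin r × Fin r × Fin (r + 1) => n x.1 x.2.1 x.2.2)
        (Finset.mem_univ (i, j, t))
      simp only at this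
      omega
    have hlt : ∀ p : c2_Y r n, (p.2 : ℕ) < B := by
      intro p
      have h1 := c2_Y_ok p
      have h2 := hB p.1.1.1 p.1.1.2.1 p.1.1.2.2
      rcases h1 with h1 | ⟨h1, _⟩ <;> omega
    have hdig : ∀ p q : c2_Y r n,
        Nat.pair p.1.1.1 p.1.1.2.1 * (r + 1) + p.1.1.2.2 = Nat.pair q.1.1.1 q.1.1.2.1 * (r + 1) + q.1.1.2.2 →
        p.1 = q.1 := by
      intro p q h
      obtain ⟨h1, h2⟩ := c2_digit p.1.1.2.2.isLt q.1.1.2.2.isLt h
      have h3 := Nat.pair_eq_pair.mp h1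
      apply Subtype.ext
      apply Prod.ext
      · exact Fin.ext h3.1
      · apply Prod.ext
        · exact Fin.ext h3.2
        · exact Fin.ext h2
    refine ⟨fun x => x.isLeft = true,
      fun x : Fin r ⊕ c2_Y r n => Sum.elim (fun i : Fin r => (i : ℕ))
        (fun p : c2_Y r n => min ((p.1.1.1 : ℕ) + p.1.1.2.2) p.1.1.2.1) x,
      fun x : Fin r ⊕ c2_Y r n => Sum.elim (fun _ : Fin r => 0)
        (fun p : c2_Y r n => (Nat.pair p.1.1.1 p.1.1.2.1 * (r + 1) + p.1.1.2.2) * B + (p.2 : ℕ)) x,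
      ?_, ?_, ?_, ?_, ?_, ?_⟩
    · rintro (i | p) (j | p') h1 h2 <;> simp at h1 h2
      exact star_stable _ _
    · rintro (i | p) (j | p') h1 h2 h3 <;> simp at h1 h2
      exact congrArg Sum.inl (Fin.ext h3)
    · rintro (i | p) (j | q) h1 h2 h3 <;> simp at h1 h2
      have h4 : (Nat.pair p.1.1.1 p.1.1.2.1 * (r + 1) + p.1.1.2.2) * B + (p.2 : ℕ) =
        (Nat.pair q.1.1.1 q.1.1.2.1 * (r + 1) + q.1.1.2.2) * B + (q.2 : ℕ) := h3
      obtain ⟨h5, h6⟩ := c2_digit (hlt p) (hlt q) h4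
      have h7 := hdig p q h5
      obtain ⟨x, c⟩ := p
      obtain ⟨y, d⟩ := q
      simp only at h7 h6
      subst h7
      rw [Fin.ext h6]
    · rintro (i | p) (j | q) h1 h2 h3 <;> simp at h1 h2
      have h4 := hadj p.1.2 q.1.2 (c2_Y_ok p) (c2_Y_ok q) h3
      show min ((p.1.1.1 : ℕ) + p.1.1.2.2) p.1.1.2.1 ≤ min ((q.1.1.1 : ℕ) + q.1.1.2.2) q.1.1.2.1 + 1
      rcases h4 with ⟨e1, e2, ⟨e3, _⟩ | ⟨e3, _⟩⟩ | ⟨e1, e2, ⟨e3, _⟩ | ⟨e3, _⟩⟩
      · rw [e1, e2, e3]; omega
      · rw [e1, e2]; omega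
      · rw [e1, e2, e3]; omega
      · rw [e1, e2]; omega
    · rintro (i | p) (j | q) h1 h2 h3 <;> simp at h1 h2
      have h4 : G.Adj (star (Sum.inl i)) (c2_item star n con q.1.1.1 q.1.1.2.1 q.1.1.2.2 q.2) := h3
      show min ((q.1.1.1 : ℕ) + q.1.1.2.2) q.1.1.2.1 = (i : ℕ)
      by_cases h5 : (q.2 : ℕ) ≤ n q.1.1.1 q.1.1.2.1 q.1.1.2.2
      · rw [c2_item_pos star n con _ _ _ _ h5, sees _ _ _ _ _ q.1.2 h5] at h4
        have hlt2 : (q.1.1.1 : ℕ) < q.1.1.2.1 := q.1.2
        rcases h4 with ⟨h6, _⟩ | ⟨h6, _⟩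
        · obtain ⟨e1, e2⟩ := c2_srcl h6
          rw [e1, e2]; omega
        · obtain ⟨e1, e2⟩ := c2_tgtl h6
          have := q.1.1.2.1.isLt
          rw [e1, e2]; omega
      · rw [c2_item_neg star n con _ _ _ _ h5] at h4
        exact absurd h4 (star_stable _ _)
    · rintro (i | p) (j | q) (k | z) h1 h2 h2' h3 h4 <;> simp at h1 h2 h2'
      have h5 := hadj p.1.2 q.1.2 (c2_Y_ok p) (c2_Y_ok q) h3
      have h6 : (Nat.pair p.1.1.1 p.1.1.2.1 * (r + 1) + p.1.1.2.2) * B + (p.2 : ℕ) <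
        (Nat.pair q.1.1.1 q.1.1.2.1 * (r + 1) + q.1.1.2.2) * B + (q.2 : ℕ) := h4
      show (Nat.pair z.1.1.1 z.1.1.2.1 * (r + 1) + z.1.1.2.2) * B + (z.2 : ℕ) ≤
          (Nat.pair p.1.1.1 p.1.1.2.1 * (r + 1) + p.1.1.2.2) * B + (p.2 : ℕ) ∨
        (Nat.pair q.1.1.1 q.1.1.2.1 * (r + 1) + q.1.1.2.2) * B + (q.2 : ℕ) ≤
          (Nat.pair z.1.1.1 z.1.1.2.1 * (r + 1) + z.1.1.2.2) * B + (z.2 : ℕ)
      rcases h5 with ⟨e1, e2, ⟨e3, e4⟩ | ⟨e3, e4, e5⟩⟩ | ⟨e1, e2, ⟨e3, e4⟩ | ⟨e3, e4, e5⟩⟩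
      · have hE : Nat.pair q.1.1.1 q.1.1.2.1 * (r + 1) + q.1.1.2.2 =
            (Nat.pair p.1.1.1 p.1.1.2.1 * (r + 1) + p.1.1.2.2) := by
          rw [← e1, ← e2, ← e3]
        rw [hE]
        omega
      · -- from the last item before the letter
        by_contra hcon
        push Not at hcon
        obtain ⟨g1, g2⟩ := hcon
        have hE : Nat.pair q.1.1.1 q.1.1.2.1 * (r + 1) + q.1.1.2.2 =
            (Nat.pair p.1.1.1 p.1.1.2.1 * (r + 1) + p.1.1.2.2) + 1 := by
          rw [← e1, ← e2]; omega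
        rw [hE, e5] at g2
        have hz := hlt z
        have hEz : Nat.pair p.1.1.1 p.1.1.2.1 * (r + 1) + p.1.1.2.2 =
            Nat.pair z.1.1.1 z.1.1.2.1 * (r + 1) + z.1.1.2.2 := by
          generalize Nat.pair p.1.1.1 p.1.1.2.1 * (r + 1) + (p.1.1.2.2 : ℕ) = a at *
          generalize Nat.pair z.1.1.1 z.1.1.2.1 * (r + 1) + (z.1.1.2.2 : ℕ) = b at *
          have hB0 : 0 < B := by omega
          rcases lt_trichotomy a b with hab | hab | hab
          · have : (a + 1) * B ≤ b * B := Nat.mul_le_mul_right B hab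
            omega
          · exact hab
          · have h8 : (b + 1) * B ≤ a * B := Nat.mul_le_mul_right B hab
            rw [Nat.add_mul, one_mul] at h8
            omega
        have hpz := hdig p z hEz
        rw [hEz] at g1
        have hzok := c2_Y_ok z
        have hn : n z.1.1.1 z.1.1.2.1 z.1.1.2.2 = n p.1.1.1 p.1.1.2.1 p.1.1.2.2 := by rw [hpz]
        rcases hzok with h8 | ⟨h8, _⟩ <;> omega
      · have hE : Nat.pair q.1.1.1 q.1.1.2.1 * (r + 1) + q.1.1.2.2 =
            (Nat.pair p.1.1.1 p.1.1.2.1 * (r + 1) + p.1.1.2.2) := by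
          rw [← e1, ← e2, ← e3]
        rw [hE] at h6
        omega
      · exfalso
        have hE : Nat.pair p.1.1.1 p.1.1.2.1 * (r + 1) + p.1.1.2.2 =
            (Nat.pair q.1.1.1 q.1.1.2.1 * (r + 1) + q.1.1.2.2) + 1 := by
          rw [← e1, ← e2]; omega
        rw [hE, Nat.add_mul, one_mul] at h6
        have hq := hlt q
        omega

end Pool.Agent.H39.TW
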