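import Mathlib

/-!
# Row Free: free sets for a bounded set mapping of pairs

Counting: for `M > m ^ 3 * (b + 1)` fewer than `M ^ m` functions `φ : Fin m → Fin M` have a triple `(x, y, c)`,
`c ≠ x, y`, with `φ c ∈ insert (φ x) (F (φ x) (φ y))`.
-/

set_option autoImplicit false

open scoped Classical

namespace Pool.Agent.H39.TW

/-- The bad functions for one triple. -/
theorem free_count (m M b : ℕ) (G : Fin M → Fin M → Finset (Fin M)) (hG : ∀ i j, (G i j).card ≤ b)
    (x y c : Fin m) (hx : c ≠ x) (hy : c ≠ y) :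
    (Finset.univ.filter fun φ : Fin m → Fin M => φ c ∈ G (φ x) (φ y)).card ≤ b * M ^ (m - 1) := by
  set s := Finset.univ.filter fun φ : Fin m → Fin M => φ c ∈ G (φ x) (φ y) with hs
  let f : (Fin m → Fin M) → ({i : Fin m // i ≠ c} → Fin M) := fun φ i => φ i
  have h1 : s.card ≤ b * (s.image f).card := by
    refine Finset.card_le_mul_card_image s b ?_
    intro g _
    refine le_trans ?_ (hG (g ⟨x, fun h => hx h.symm⟩) (g ⟨y, fun h => hy h.symm⟩))
    refine Finset.card_le_card_of_injOn (fun φ => φ c) ?_ ?_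
    · intro φ hφ
      rw [Finset.mem_coe, Finset.mem_filter] at hφ
      obtain ⟨h2, h3⟩ := hφ
      have h4 := (Finset.mem_filter.mp h2).2
      rw [← h3]
      exact h4
    · intro φ hφ ψ hψ h
      rw [Finset.mem_coe, Finset.mem_filter] at hφ hψ
      funext i
      by_cases hi : i = c
      · rw [hi]; exact h
      · have h5 : f φ ⟨i, hi⟩ = f ψ ⟨i, hi⟩ := by rw [hφ.2, hψ.2]
        exact h5
  have h2 : (s.image f).card ≤ M ^ (m - 1) := by
    refine (Finset.card_le_univ _).trans (le_of_eq ?_)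
    rw [Fintype.card_fun, Fintype.card_fin]
    congr 1
    rw [Fintype.card_subtype_compl, Fintype.card_fin, Fintype.card_subtype_eq]
  exact h1.trans (Nat.mul_le_mul_left _ h2)

theorem free_fun (m b : ℕ) : ∃ M, ∀ F : Fin M → Fin M → Finset (Fin M), (∀ i j, (F i j).card ≤ b) →
    ∃ φ : Fin m → Fin M, Function.Injective φ ∧
      ∀ x y c, c ≠ x → c ≠ y → φ c ∉ F (φ x) (φ y) := by
  rcases Nat.eq_zero_or_pos m with rfl | hm
  · exact ⟨0, fun F _ => ⟨fun i => i.elim0, fun i => i.elim0, fun i => i.elim0⟩⟩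
  obtain ⟨M, hM⟩ : ∃ M, M = m ^ 3 * (b + 1) + 1 := ⟨_, rfl⟩
  refine ⟨M, fun F hF => ?_⟩
  let G : Fin M → Fin M → Finset (Fin M) := fun i j => insert i (F i j)
  have hG : ∀ i j, (G i j).card ≤ b + 1 := fun i j =>
    (Finset.card_insert_le _ _).trans (Nat.add_le_add_right (hF i j) 1)
  let T : Finset (Fin m × Fin m × Fin m) :=
    Finset.univ.filter fun t => t.2.2 ≠ t.1 ∧ t.2.2 ≠ t.2.1
  let bad : Finset (Fin m → Fin M) :=
    T.biUnion fun t => Finset.univ.filter fun φ : Fin m → Fin M => φ t.2.2 ∈ G (φ t.1) (φ t.2.1)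
  have h1 : bad.card ≤ m ^ 3 * ((b + 1) * M ^ (m - 1)) := by
    refine Finset.card_biUnion_le.trans ?_
    refine (Finset.sum_le_card_nsmul T _ ((b + 1) * M ^ (m - 1)) ?_).trans ?_
    · intro t ht
      have h := (Finset.mem_filter.mp ht).2
      exact free_count m M (b + 1) G hG t.1 t.2.1 t.2.2 h.1 h.2
    · rw [smul_eq_mul]
      refine Nat.mul_le_mul_right _ ((Finset.card_le_univ _).trans (le_of_eq ?_))
      rw [Fintype.card_prod, Fintype.card_prod, Fintype.card_fin]
      ring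
  have h2 : bad.card < (Finset.univ : Finset (Fin m → Fin M)).card := by
    refine h1.trans_lt ?_
    rw [Finset.card_univ, Fintype.card_fun, Fintype.card_fin, Fintype.card_fin]
    have h3 : M ^ m = M * M ^ (m - 1) := by
      rw [← pow_succ']; congr 1; omega
    rw [h3, ← mul_assoc]
    refine Nat.mul_lt_mul_of_pos_right ?_ (Nat.pow_pos (by omega))
    omega
  obtain ⟨φ, _, hφ⟩ := Finset.exists_mem_notMem_of_card_lt_card h2
  have h3 : ∀ x y c, c ≠ x → c ≠ y → φ c ∉ G (φ x) (φ y) := by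
    intro x y c hx hy h
    apply hφ
    rw [Finset.mem_biUnion]
    exact ⟨(x, y, c), Finset.mem_filter.mpr ⟨Finset.mem_univ _, hx, hy⟩,
      Finset.mem_filter.mpr ⟨Finset.mem_univ _, h⟩⟩
  refine ⟨φ, ?_, fun x y c hx hy h => h3 x y c hx hy (Finset.mem_insert_of_mem h)⟩
  intro i j hij
  by_contra hne
  exact h3 j j i hne hne (by
    show φ i ∈ insert (φ j) (F (φ j) (φ j))
    rw [hij]
    exact Finset.mem_insert_self _ _)

end Pool.Agent.H39.TW
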