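import Pool.Agent.H39.TW.Arr
import Pool.Agent.H39.TW.Free
import Pool.Agent.H39.TW.CaseTwo

/-!
# Close letters
-/

set_option autoImplicit false

open scoped Classical

namespace Pool.Agent.H39.TW

open SimpleGraph

theorem src_ne_tgt {r : ℕ} (i j : Fin r) (t : Fin (r + 1)) (hij : i < j) : src i j t ≠ tgt i j t := by
  unfold src tgt
  split_ifs with h1 h2 h2
  · intro h
    exact absurd (Sum.inl_injective h) hij.ne
  · intro h
    exact absurd h (by simp)
  · intro h
    exact absurd h (by simp)
  · intro h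
    have := Sum.inr_injective h
    simp only [Prod.mk.injEq, Fin.mk.injEq, true_and] at this
    omega

theorem src_tgt_inj {r : ℕ} (i j i' j' : Fin r) (t t' : Fin (r + 1)) (h1 : src i j t = src i' j' t')
    (h2 : tgt i j t = tgt i' j' t') : i = i' ∧ j = j' ∧ t = t' := by
  have hr : 0 < r := i.pos
  unfold src at h1
  unfold tgt at h2
  split_ifs at h1 h2 with a b c d <;> simp at h1 h2
  all_goals omega

theorem src_tgt_swap {r : ℕ} (i j i' j' : Fin r) (t t' : Fin (r + 1)) (_ : i < j) (_ : i' < j')
    (h1 : src i j t = tgt i' j' t') (h2 : tgt i j t = src i' j' t') : False := by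
  have hr : 0 < r := i.pos
  unfold src at h1 h2
  unfold tgt at h1 h2
  split_ifs at h1 h2 with a b c d <;> simp at h1 h2
  all_goals omega

/-- Natural distance. -/
def nd (a b : ℕ) : ℕ := (a - b) + (b - a)

/-- The position `c` steps from `a` towards `b`. -/
def pos (a b c : ℕ) : ℕ := if a ≤ b then a + c else a - c

theorem caseClose (r M : ℕ) (hr : 0 < r)
    (hM : ∀ F : Fin M → Fin M → Finset (Fin M), (∀ i j, (F i j).card ≤ (4 * r + 1) * r) →
      ∃ φ : Fin (r + r * (r * r)) → Fin M, Function.Injective φ ∧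
        ∀ x y c, c ≠ x → c ≠ y → φ c ∉ F (φ x) (φ y))
    {V : Type*} (G : SimpleGraph V) (k : ℕ) (hk : 0 < k) (A : Arr G M k)
    (thin : ∀ q a, a < A.len q →
      (Finset.univ.filter fun i => G.Adj (A.star i) (A.path q a)).card < r)
    (close : ∀ i j, i ≠ j → ∃ q a b, a < A.len q ∧ b < A.len q ∧ G.Adj (A.star i) (A.path q a) ∧
      G.Adj (A.star j) (A.path q b) ∧ nd a b < r) : GoodSub G r := by
  have : Nonempty (Fin k) := ⟨⟨0, hk⟩⟩
  -- minimal witnesses
  have hW : ∀ i j, ∃ q a b, i ≠ j → (a < A.len q ∧ b < A.len q ∧ G.Adj (A.star i) (A.path q a) ∧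
      G.Adj (A.star j) (A.path q b) ∧ nd a b < r ∧ (∀ c, c < A.len q →
        G.Adj (A.star i) (A.path q c) → nd a b ≤ nd c b) ∧ (∀ c, c < A.len q →
        G.Adj (A.star j) (A.path q c) → nd a b ≤ nd a c)) := by
    intro i j
    by_cases hij : i = j
    · exact ⟨⟨0, hk⟩, 0, 0, fun h => absurd hij h⟩
    have hex : ∃ m q a b, a < A.len q ∧ b < A.len q ∧ G.Adj (A.star i) (A.path q a) ∧
        G.Adj (A.star j) (A.path q b) ∧ nd a b = m := by
      obtain ⟨q, a, b, h1, h2, h3, h4, _⟩ := close i j hij
      exact ⟨_, q, a, b, h1, h2, h3, h4, rfl⟩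
    obtain ⟨q, a, b, h1, h2, h3, h4, h5⟩ := Nat.find_spec hex
    have hmin : ∀ q a b, a < A.len q → b < A.len q → G.Adj (A.star i) (A.path q a) →
        G.Adj (A.star j) (A.path q b) → Nat.find hex ≤ nd a b := fun q a b g1 g2 g3 g4 =>
      Nat.find_min' hex ⟨q, a, b, g1, g2, g3, g4, rfl⟩
    refine ⟨q, a, b, fun _ => ⟨h1, h2, h3, h4, ?_, ?_, ?_⟩⟩
    · obtain ⟨q', a', b', g1, g2, g3, g4, g5⟩ := close i j hij
      have := hmin q' a' b' g1 g2 g3 g4
      omega
    · intro c hc hc'
      rw [h5]
      exact hmin q c b hc h2 hc' h4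
    · intro c hc hc'
      rw [h5]
      exact hmin q a c h1 hc h3 hc'
  choose Q α β hQ using hW
  set F : Fin M → Fin M → Finset (Fin M) := fun i j =>
    Finset.univ.filter fun l => ∃ c, c < A.len (Q i j) ∧ nd c (α i j) ≤ 2 * r ∧
      G.Adj (A.star l) (A.path (Q i j) c) with hF
  have hFcard : ∀ i j, (F i j).card ≤ (4 * r + 1) * r := by
    intro i j
    have hsub : F i j ⊆ (Finset.Icc (α i j - 2 * r) (α i j + 2 * r)).biUnion fun c =>
        if c < A.len (Q i j) then
          (Finset.univ.filter fun l => G.Adj (A.star l) (A.path (Q i j) c)) else ∅ := by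
      intro l hl
      rw [hF, Finset.mem_filter] at hl
      obtain ⟨_, c, hc, hc1, hc2⟩ := hl
      rw [Finset.mem_biUnion]
      refine ⟨c, ?_, ?_⟩
      · rw [Finset.mem_Icc]
        unfold nd at hc1
        omega
      · rw [if_pos hc, Finset.mem_filter]
        exact ⟨Finset.mem_univ _, hc2⟩
    refine (Finset.card_le_card hsub).trans (Finset.card_biUnion_le.trans ?_)
    refine (Finset.sum_le_card_nsmul _ _ r ?_).trans ?_
    · intro c _
      split_ifs with hc
      · exact (thin _ c hc).le
      · simp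
    · rw [smul_eq_mul]
      apply Nat.mul_le_mul_right
      rw [Nat.card_Icc]
      omega
  obtain ⟨φ, hφ, hfree⟩ := hM F hFcard
  have hcard : Fintype.card (Ix r) = r + r * (r * r) := by
    simp [Ix]
  set e : Ix r ≃ Fin (r + r * (r * r)) := Fintype.equivFinOfCardEq hcard with he
  set ψ : Ix r → Fin M := fun x => φ (e x) with hψ
  have hψinj : Function.Injective ψ := hφ.comp e.injective
  have hψfree : ∀ x y c, c ≠ x → c ≠ y → ψ c ∉ F (ψ x) (ψ y) := by
    intro x y c h1 h2
    exact hfree _ _ _ (fun h => h1 (e.injective h)) (fun h => h2 (e.injective h))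
  set S : Fin r → Fin r → Fin (r + 1) → Fin M := fun i j t => ψ (src i j t) with hS
  set T : Fin r → Fin r → Fin (r + 1) → Fin M := fun i j t => ψ (tgt i j t) with hT
  have hST : ∀ i j t, i < j → S i j t ≠ T i j t := fun i j t hij h =>
    src_ne_tgt i j t hij (hψinj h)
  -- the data of a connector
  have hmem : ∀ (i j : Fin r) (t : Fin (r + 1)) (x : Ix r) (c : ℕ), i < j →
      c < A.len (Q (S i j t) (T i j t)) → nd c (α (S i j t) (T i j t)) ≤ 2 * r →
      G.Adj (A.star (ψ x)) (A.path (Q (S i j t) (T i j t)) c) → x = src i j t ∨ x = tgt i j t := by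
    intro i j t x c hij hc hc1 hc2
    by_contra hcon
    push Not at hcon
    refine hψfree _ _ x hcon.1 hcon.2 ?_
    rw [hF, Finset.mem_filter]
    exact ⟨Finset.mem_univ _, c, hc, hc1, hc2⟩
  have hlen : ∀ (i j : Fin r) (t : Fin (r + 1)) (c : ℕ), i < j →
      c ≤ nd (α (S i j t) (T i j t)) (β (S i j t) (T i j t)) →
      pos (α (S i j t) (T i j t)) (β (S i j t) (T i j t)) c < A.len (Q (S i j t) (T i j t)) := by
    intro i j t c hij hc
    obtain ⟨h1, h2, _⟩ := hQ _ _ (hST i j t hij)
    unfold pos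
    unfold nd at hc
    split_ifs <;> omega
  have hkey : ∀ (i j i' j' : Fin r) (t t' : Fin (r + 1)) (c c' : ℕ), i < j → i' < j' →
      c ≤ nd (α (S i j t) (T i j t)) (β (S i j t) (T i j t)) →
      c' ≤ nd (α (S i' j' t') (T i' j' t')) (β (S i' j' t') (T i' j' t')) →
      Q (S i j t) (T i j t) = Q (S i' j' t') (T i' j' t') →
      nd (pos (α (S i j t) (T i j t)) (β (S i j t) (T i j t)) c)
        (pos (α (S i' j' t') (T i' j' t')) (β (S i' j' t') (T i' j' t')) c') ≤ 1 →
      i = i' ∧ j = j' ∧ t = t' := by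
    intro i j i' j' t t' c c' hij hij' hc hc' hq hd
    obtain ⟨h1, h2, h3, h4, h5, _, _⟩ := hQ _ _ (hST i j t hij)
    obtain ⟨g1, g2, g3, g4, g5, _, _⟩ := hQ _ _ (hST i' j' t' hij')
    rw [← hq] at g1 g2 g3 g4
    have m1 := hmem i j t (src i' j' t') (α (S i' j' t') (T i' j' t')) hij g1 (by
      unfold nd pos at *
      split_ifs at hd <;> omega) g3
    have m2 := hmem i j t (tgt i' j' t') (β (S i' j' t') (T i' j' t')) hij g2 (by
      unfold nd pos at *
      split_ifs at hd <;> omega) g4
    have hne := src_ne_tgt i' j' t' hij'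
    rcases m1 with m1 | m1 <;> rcases m2 with m2 | m2
    · exact absurd (m1.trans m2.symm) hne
    · exact src_tgt_inj i j i' j' t t' m1.symm m2.symm
    · exact (src_tgt_swap i' j' i j t' t hij' hij m1 m2).elim
    · exact absurd (m1.trans m2.symm) hne
  refine caseTwo G r (fun x => A.star (ψ x))
    (fun i j t => nd (α (S i j t) (T i j t)) (β (S i j t) (T i j t)))
    (fun i j t c => A.path (Q (S i j t) (T i j t))
      (pos (α (S i j t) (T i j t)) (β (S i j t) (T i j t)) c))
    (A.star_inj.comp hψinj) (fun p p' => A.star_stable _ _) ?_ ?_ ?_ ?_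
  · intro p i j t c hij hc
    exact A.star_path _ _ _ (hlen i j t c hij hc)
  · intro i j t c i' j' t' c' hij hij' hc hc' h
    obtain ⟨h1, h2⟩ := A.path_inj _ _ _ _ (hlen i j t c hij hc) (hlen i' j' t' c' hij' hc') h
    obtain ⟨h3, h4, h5⟩ := hkey i j i' j' t t' c c' hij hij' hc hc' h1 (by
      rw [h2]
      unfold nd
      omega)
    subst h3
    subst h4
    subst h5
    refine ⟨rfl, rfl, rfl, ?_⟩
    unfold pos at h2
    unfold nd at hc hc'
    split_ifs at h2 <;> omega
  · intro i j t c i' j' t' c' hij hij' hc hc'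
    rw [A.path_adj _ _ _ _ (hlen i j t c hij hc) (hlen i' j' t' c' hij' hc')]
    constructor
    · rintro ⟨h1, h2⟩
      obtain ⟨h3, h4, h5⟩ := hkey i j i' j' t t' c c' hij hij' hc hc' h1 (by
        unfold nd
        omega)
      subst h3
      subst h4
      subst h5
      refine ⟨rfl, rfl, rfl, ?_⟩
      unfold pos at h2
      unfold nd at hc hc'
      split_ifs at h2 <;> omega
    · rintro ⟨h3, h4, h5, h6⟩
      subst h3
      subst h4
      subst h5
      refine ⟨rfl, ?_⟩
      unfold pos
      unfold nd at hc hc'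
      split_ifs <;> omega
  · intro p i j t c hij hc
    obtain ⟨h1, h2, h3, h4, h5, h6, h7⟩ := hQ _ _ (hST i j t hij)
    constructor
    · intro h
      have m := hmem i j t p _ hij (hlen i j t c hij hc) (by
        unfold nd pos at *
        split_ifs <;> omega) h
      rcases m with m | m
      · refine Or.inl ⟨m, ?_⟩
        subst m
        have := h6 _ (hlen i j t c hij hc) h
        unfold nd pos at *
        split_ifs at this <;> omega
      · refine Or.inr ⟨m, ?_⟩
        subst m
        have := h7 _ (hlen i j t c hij hc) h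
        unfold nd pos at *
        split_ifs at this <;> omega
    · rintro (⟨hp, hc0⟩ | ⟨hp, hcn⟩)
      · subst hp
        rw [hc0]
        have : pos (α (S i j t) (T i j t)) (β (S i j t) (T i j t)) 0 = α (S i j t) (T i j t) := by
          unfold pos
          split_ifs <;> omega
        rw [this]
        exact h3
      · subst hp
        rw [hcn]
        have : pos (α (S i j t) (T i j t)) (β (S i j t) (T i j t))
            (nd (α (S i j t) (T i j t)) (β (S i j t) (T i j t))) = β (S i j t) (T i j t) := by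
          unfold pos nd
          split_ifs <;> omega
        rw [this]
        exact h4

end Pool.Agent.H39.TW
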