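import Pool.Agent.H39.TW.Seq

/-!
# Spaced letter systems have twin-width at most four
-/

set_option autoImplicit false

open scoped Classical

namespace Pool.Agent.H39.TW

open SimpleGraph

/-- A spaced letter system: letters (`isX`), pairwise nonadjacent, in different columns; the other
vertices are in columns such that adjacent ones are in neighbouring columns, a letter is adjacent
only to vertices of its own column, and they are ordered by `rk` such that adjacent ones are
consecutive. -/
def SpacedSystem {V : Type*} (H : SimpleGraph V) : Prop :=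
  ∃ (isX : V → Prop) (col rk : V → ℕ),
    (∀ x x', isX x → isX x' → ¬ H.Adj x x') ∧
    (∀ x x', isX x → isX x' → col x = col x' → x = x') ∧
    (∀ y y', ¬ isX y → ¬ isX y' → rk y = rk y' → y = y') ∧
    (∀ y y', ¬ isX y → ¬ isX y' → H.Adj y y' → col y ≤ col y' + 1) ∧
    (∀ x y, isX x → ¬ isX y → H.Adj x y → col y = col x) ∧
    (∀ y y' z, ¬ isX y → ¬ isX y' → ¬ isX z → H.Adj y y' → rk y < rk y' →
      rk z ≤ rk y ∨ rk y' ≤ rk z)

theorem homogeneous_of_not_adj {V : Type*} (G : SimpleGraph V) (X Y : Set V)
    (h : ¬ ∃ x ∈ X, ∃ y ∈ Y, G.Adj x y) : Homogeneous G X Y := by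
  right
  intro x hx y hy hxy
  exact h ⟨x, hx, y, hy, hxy⟩

theorem exists_adj_of_not_homogeneous {V : Type*} (G : SimpleGraph V) (X Y : Set V)
    (h : ¬ Homogeneous G X Y) : ∃ x ∈ X, ∃ y ∈ Y, G.Adj x y := by
  by_contra hcon
  exact h (homogeneous_of_not_adj G X Y hcon)

theorem homogeneous_singleton {V : Type*} (G : SimpleGraph V) (x y : V) (X Y : Set V)
    (hX : X ⊆ {x}) (hY : Y ⊆ {y}) : Homogeneous G X Y := by
  by_cases h : G.Adj x y
  · left
    intro a ha b hb
    rw [hX ha, hY hb]
    exact h
  · right
    intro a ha b hb
    rw [hX ha, hY hb]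
    exact h

theorem encard_le_four {α : Type*} (a b c d : α) : ({a, b, c, d} : Set α).encard ≤ (4 : ℕ) := by
  have h1 : ({a, b, c, d} : Set α) = ((({a, b, c, d} : Finset α)) : Set α) := by
    ext x
    simp
  rw [h1, Set.encard_coe_eq_coe_finsetCard]
  exact_mod_cast Finset.card_le_four

theorem twinWidth_spaced {V : Type*} [Finite V] (H : SimpleGraph V) (h : SpacedSystem H) :
    TwinWidthAtMost H 4 := by
  obtain ⟨isX, col, rk, hst, hcX, hrk, hcc, hcx, hbt⟩ := h
  apply twinWidthAtMost_of_HC
  set proc : V → Prop := fun v => ¬ isX v with hproc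
  set ix : V → ℕ := fun v => if isX v then 2 * col v else 2 * col v + 1 with hix
  obtain ⟨T, hT⟩ : ∃ T, ∀ v, rk v < T := by
    obtain ⟨T, hT⟩ := (Set.finite_range rk).bddAbove
    exact ⟨T + 1, fun v => Nat.lt_succ_of_le (hT ⟨v, rfl⟩)⟩
  -- adjacency between non-letters
  have hcol : ∀ y y', ¬ isX y → ¬ isX y' → H.Adj y y' → col y ≤ col y' + 1 ∧ col y' ≤ col y + 1 :=
    fun y y' h1 h2 h3 => ⟨hcc y y' h1 h2 h3, hcc y' y h2 h1 h3.symm⟩
  refine HC_stageOne H 4 proc rk col (fun u v hu hv huv => hrk u v hu hv huv) ?_ T ?_
  · intro τ
    apply red_of_fun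
    intro v
    have hcls : ∀ u a, stageOne proc rk col τ u = Sum.inl a → u = a := by
      intro u a hu
      unfold stageOne at hu
      split_ifs at hu
      exact Sum.inl_injective hu
    have hclr : ∀ u n, stageOne proc rk col τ u = Sum.inr n → ¬ isX u ∧ rk u < τ ∧ col u = n := by
      intro u n hu
      unfold stageOne at hu
      split_ifs at hu with h1
      exact ⟨h1.1, h1.2, Sum.inr_injective hu⟩
    rcases hv : stageOne proc rk col τ v with a | n
    · -- a single vertex
      have hva := hcls v a hv
      subst hva
      refine ⟨{Sum.inr (col v - 1), Sum.inr (col v), Sum.inr (col v + 1), Sum.inr (col v)},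
        encard_le_four _ _ _ _, ?_⟩
      intro u _ hnh
      rcases hu : stageOne proc rk col τ u with b | m
      · exfalso
        apply hnh
        apply homogeneous_singleton H v b
        · intro x hx
          exact hcls x v hx
        · intro x hx
          have hx' : stageOne proc rk col τ x = stageOne proc rk col τ u := hx
          rw [hu] at hx'
          exact hcls x b hx'
      · obtain ⟨x, hx, y, hy, hxy⟩ := exists_adj_of_not_homogeneous H _ _ hnh
        have hxv := hcls x v hx
        subst hxv
        have hy' : stageOne proc rk col τ y = stageOne proc rk col τ u := hy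
        rw [hu] at hy'
        obtain ⟨h1, h2, h3⟩ := hclr y m hy'
        simp only [Set.mem_insert_iff, Set.mem_singleton_iff, Sum.inr.injEq]
        by_cases hX : isX x
        · have := hcx x y hX h1 hxy
          omega
        · have := hcol x y hX h1 hxy
          omega
    · -- a part of processed vertices
      obtain ⟨hv1, hv2, hv3⟩ := hclr v n hv
      -- the unique unprocessed neighbour and the letter of the column
      obtain ⟨z, hz⟩ : ∃ z : V, ∀ z', ¬ isX z' → τ ≤ rk z' → (∃ y, ¬ isX y ∧ rk y < τ ∧
          H.Adj y z') → z' = z := by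
        by_cases hex : ∃ z', ¬ isX z' ∧ τ ≤ rk z' ∧ ∃ y, ¬ isX y ∧ rk y < τ ∧ H.Adj y z'
        · obtain ⟨z, hz1, hz2, y, hy1, hy2, hyz⟩ := hex
          refine ⟨z, fun z' hz1' hz2' ⟨y', hy1', hy2', hyz'⟩ => ?_⟩
          apply hrk z' z hz1' hz1
          have h1 := hbt y z z' hy1 hz1 hz1' hyz (by omega)
          have h2 := hbt y' z' z hy1' hz1' hz1 hyz' (by omega)
          omega
        · exact ⟨v, fun z' h1 h2 h3 => absurd ⟨z', h1, h2, h3⟩ hex⟩
      obtain ⟨l, hl⟩ : ∃ l : V, ∀ l', isX l' → col l' = n → l' = l := by
        by_cases hex : ∃ l', isX l' ∧ col l' = n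
        · obtain ⟨l, hl1, hl2⟩ := hex
          exact ⟨l, fun l' h1 h2 => hcX l' l h1 hl1 (by omega)⟩
        · exact ⟨v, fun l' h1 h2 => absurd ⟨l', h1, h2⟩ hex⟩
      refine ⟨{Sum.inr (n - 1), Sum.inr (n + 1), Sum.inl z, Sum.inl l},
        encard_le_four _ _ _ _, ?_⟩
      intro u hne hnh
      obtain ⟨x, hx, y, hy, hxy⟩ := exists_adj_of_not_homogeneous H _ _ hnh
      obtain ⟨hx1, hx2, hx3⟩ := hclr x n hx
      have hy' : stageOne proc rk col τ y = stageOne proc rk col τ u := hy
      rcases hu : stageOne proc rk col τ u with b | m
      · rw [hu] at hy'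
        have hyb := hcls y b hy'
        subst hyb
        simp only [Set.mem_insert_iff, Set.mem_singleton_iff, Sum.inl.injEq, reduceCtorEq, false_or]
        by_cases hX : isX y
        · right
          apply hl y hX
          have := hcx y x hX hx1 hxy.symm
          omega
        · left
          apply hz y hX ?_ ⟨x, hx1, hx2, hxy⟩
          by_contra hcon
          have : stageOne proc rk col τ y = Sum.inr (col y) := by
            unfold stageOne
            rw [if_pos ⟨hX, by omega⟩]
          rw [this] at hy'
          exact absurd hy' Sum.inr_ne_inl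
      · rw [hu] at hy' hne
        obtain ⟨h1, h2, h3⟩ := hclr y m hy'
        have h4 := hcol x y hx1 h1 hxy
        have h5 : m ≠ n := fun h => hne (by rw [h])
        simp only [Set.mem_insert_iff, Set.mem_singleton_iff, Sum.inr.injEq, reduceCtorEq, or_false]
        omega
  · have hker : Setoid.ker (stageOne proc rk col T) = Setoid.ker ix := by
      ext a b
      simp only [Setoid.ker_def]
      have e : ∀ u, stageOne proc rk col T u = if isX u then Sum.inl u else Sum.inr (col u) := by
        intro u
        unfold stageOne
        by_cases hX : isX u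
        · rw [if_pos hX, if_neg]
          rintro ⟨h1, _⟩
          exact h1 hX
        · rw [if_neg hX, if_pos ⟨hX, hT u⟩]
      rw [e, e]
      simp only [hix]
      by_cases ha : isX a
      · by_cases hb : isX b
        · rw [if_pos ha, if_pos hb, if_pos ha, if_pos hb]
          constructor
          · intro h
            rw [Sum.inl_injective h]
          · intro h
            rw [hcX a b ha hb (by omega)]
        · rw [if_pos ha, if_neg hb, if_pos ha, if_neg hb]
          constructor
          · intro h
            exact absurd h Sum.inl_ne_inr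
          · intro h
            omega
      · by_cases hb : isX b
        · rw [if_neg ha, if_pos hb, if_neg ha, if_pos hb]
          constructor
          · intro h
            exact absurd h Sum.inr_ne_inl
          · intro h
            omega
        · rw [if_neg ha, if_neg hb, if_neg ha, if_neg hb]
          constructor
          · intro h
            rw [Sum.inr_injective h]
          · intro h
            rw [show col a = col b by omega]
    rw [hker]
    apply HC_stageTwo
    intro σ
    apply red_of_fun
    have hadj : ∀ x y, H.Adj x y → ix x ≠ ix y → (ix x ≤ ix y + 2 ∧ ix y ≤ ix x + 2) ∧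
        (ix x % 2 = 0 → ix y = ix x + 1) ∧ (ix y % 2 = 0 → ix x = ix y + 1) := by
      intro x y hxy hne
      simp only [hix] at hne ⊢
      by_cases hX : isX x
      · by_cases hY : isX y
        · exact absurd hxy (hst x y hX hY)
        · have := hcx x y hX hY hxy
          rw [if_pos hX, if_neg hY]
          omega
      · by_cases hY : isX y
        · have := hcx y x hY hX hxy.symm
          rw [if_neg hX, if_pos hY]
          omega
        · have := hcol x y hX hY hxy
          rw [if_neg hX, if_neg hY]
          omega
    have hn : ∀ u, stageTwo ix σ u = none → ix u < σ := by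
      intro u hu
      unfold stageTwo at hu
      split_ifs at hu with h1
      exact h1
    have hs : ∀ u n, stageTwo ix σ u = some n → σ ≤ ix u ∧ ix u = n := by
      intro u n hu
      unfold stageTwo at hu
      split_ifs at hu with h1
      simp only [Option.some.injEq] at hu
      omega
    intro v
    rcases hv : stageTwo ix σ v with _ | n
    · refine ⟨{some σ, some (σ + 1), some σ, some σ}, encard_le_four _ _ _ _, ?_⟩
      intro u hne hnh
      obtain ⟨x, hx, y, hy, hxy⟩ := exists_adj_of_not_homogeneous H _ _ hnh
      have hx1 := hn x hx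
      have hy' : stageTwo ix σ y = stageTwo ix σ u := hy
      rcases hu : stageTwo ix σ u with _ | m
      · exact absurd hu hne
      · rw [hu] at hy'
        obtain ⟨h1, h2⟩ := hs y m hy'
        have h3 := hadj x y hxy (by omega)
        simp only [Set.mem_insert_iff, Set.mem_singleton_iff, Option.some.injEq]
        omega
    · have hv1 := hs v n hv
      refine ⟨{none, some (n - 2), some (n + 2), if n % 2 = 0 then some (n + 1) else some (n - 1)},
        encard_le_four _ _ _ _, ?_⟩
      intro u hne hnh
      obtain ⟨x, hx, y, hy, hxy⟩ := exists_adj_of_not_homogeneous H _ _ hnh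
      have hx1 := hs x n hx
      have hy' : stageTwo ix σ y = stageTwo ix σ u := hy
      rcases hu : stageTwo ix σ u with _ | m
      · simp
      · rw [hu] at hy' hne
        obtain ⟨h1, h2⟩ := hs y m hy'
        have h5 : m ≠ n := fun h => hne (by rw [h])
        have h3 := hadj x y hxy (by omega)
        simp only [Set.mem_insert_iff, Set.mem_singleton_iff, Option.some.injEq, reduceCtorEq,
          false_or]
        split_ifs with hpar
        · simp only [Option.some.injEq]
          omega
        · simp only [Option.some.injEq]
          omega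

/-- complete bipartite graphs -/
theorem twinWidth_bipartite {V : Type*} [Finite V] (H : SimpleGraph V) (side : V → ℕ)
    (hs : ∀ v, side v ≤ 1) (hadj : ∀ u v, H.Adj u v ↔ side u ≠ side v) :
    TwinWidthAtMost H 4 := by
  apply twinWidthAtMost_of_HC
  obtain ⟨n, ⟨e⟩⟩ := Finite.exists_equiv_fin V
  have hhom : ∀ X Y : Set V, (∀ x ∈ X, ∀ x' ∈ X, side x = side x') →
      (∀ y ∈ Y, ∀ y' ∈ Y, side y = side y') → Homogeneous H X Y := by
    intro X Y hX hY
    by_cases h : ∃ x ∈ X, ∃ y ∈ Y, H.Adj x y
    · left
      obtain ⟨x, hx, y, hy, hxy⟩ := h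
      intro x' hx' y' hy'
      rw [hadj] at hxy ⊢
      rw [hX x' hx' x hx, hY y' hy' y hy]
      exact hxy
    · exact homogeneous_of_not_adj H X Y h
  refine HC_stageOne H 4 (fun _ => True) (fun v => (e v : ℕ)) side
    (fun u v _ _ huv => e.injective (Fin.ext huv)) ?_ n ?_
  · intro τ
    apply red_of_fun
    intro v
    refine ⟨∅, by simp, ?_⟩
    intro u _ hnh
    exfalso
    apply hnh
    have key : ∀ w x x', stageOne (fun _ => True) (fun v => (e v : ℕ)) side τ x =
        stageOne (fun _ => True) (fun v => (e v : ℕ)) side τ w →
        stageOne (fun _ => True) (fun v => (e v : ℕ)) side τ x' =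
        stageOne (fun _ => True) (fun v => (e v : ℕ)) side τ w → side x = side x' := by
      intro w x x' h1 h2
      have h3 := h1.trans h2.symm
      unfold stageOne at h3
      split_ifs at h3 with h4 h5
      · exact Sum.inr_injective h3
      · rw [Sum.inl_injective h3]
    apply hhom
    · intro x hx x' hx'
      exact key v x x' hx hx'
    · intro x hx x' hx'
      exact key u x x' hx hx'
  · have hker : Setoid.ker (stageOne (fun _ => True) (fun v => (e v : ℕ)) side n) =
        Setoid.ker side := by
      ext a b
      have e1 : ∀ u, stageOne (fun _ => True) (fun v => (e v : ℕ)) side n u =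
          Sum.inr (side u) := by
        intro u
        unfold stageOne
        rw [if_pos ⟨trivial, (e u).isLt⟩]
      rw [Setoid.ker_def, Setoid.ker_def, e1, e1]
      exact Sum.inr_injective.eq_iff
    rw [hker]
    apply HC_stageTwo
    intro σ
    apply red_of_fun
    intro v
    refine ⟨{none, some 0, some 1, none}, encard_le_four _ _ _ _, ?_⟩
    intro u _ _
    unfold stageTwo
    have := hs u
    split_ifs
    · simp
    · simp only [Set.mem_insert_iff, Set.mem_singleton_iff, Option.some.injEq, reduceCtorEq,
        false_or, or_false]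
      omega

end Pool.Agent.H39.TW
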