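import Pool.Agent.H39.TW.Lower
import Pool.Agent.H39.TW.Upper

/-!
# Spaced constellations
-/

set_option autoImplicit false

open scoped Classical

namespace Pool.Agent.H39.TW

open SimpleGraph

/-- An induced subgraph with twin-width at most four (of one of two kinds) and a clique minor. -/
def GoodSub {V : Type*} (G : SimpleGraph V) (r : ℕ) : Prop :=
  ∃ (α : Type) (_ : Finite α) (val : α → V), Function.Injective val ∧
    CliqueMinor (G.comap val) r ∧ (SpacedSystem (G.comap val) ∨
      ∃ side : α → ℕ, (∀ v, side v ≤ 1) ∧ ∀ u v, (G.comap val).Adj u v ↔ side u ≠ side v)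

theorem caseOne {V : Type*} (G : SimpleGraph V) (r : ℕ) (star : Fin r → V) (len : Fin r → ℕ)
    (path : Fin r → ℕ → V)
    (star_inj : Function.Injective star) (star_stable : ∀ i j, ¬ G.Adj (star i) (star j))
    (star_path : ∀ i q a, a < len q → star i ≠ path q a)
    (path_inj : ∀ q q' a b, a < len q → b < len q' → path q a = path q' b → q = q' ∧ a = b)
    (path_adj : ∀ q q' a b, a < len q → b < len q' →
      (G.Adj (path q a) (path q' b) ↔ q = q' ∧ (a + 1 = b ∨ b + 1 = a)))
    (sees : ∀ i q, ∃ a < len q, G.Adj (star i) (path q a))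
    (spaced : ∀ i j q a b, i ≠ j → a < len q → b < len q → G.Adj (star i) (path q a) →
      G.Adj (star j) (path q b) → a + r ≤ b ∨ b + r ≤ a) : GoodSub G r := by
  set α := Fin r ⊕ (Σ q : Fin r, Fin (len q)) with hα
  set val : α → V := fun x => Sum.elim star (fun p => path p.1 p.2) x with hval
  have hinj : Function.Injective val := by
    rintro (i | ⟨q, a⟩) (j | ⟨q', b⟩) h
    · exact congrArg Sum.inl (star_inj h)
    · exact absurd h (star_path i q' b b.isLt)
    · exact absurd h.symm (star_path j q a a.isLt)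
    · obtain ⟨h1, h2⟩ := path_inj q q' a b a.isLt b.isLt h
      subst h1
      rw [Fin.ext h2]
  set S : (q : Fin r) → ℕ → Set ℕ := fun q a => {n | ∃ (i : Fin r) (b : ℕ), b < len q ∧
    G.Adj (star i) (path q b) ∧ n = i + ((a - b) + (b - a))} with hS
  set g : (q : Fin r) → ℕ → ℕ := fun q a => sInf (S q a) with hg
  have hSne : ∀ q a, (S q a).Nonempty := by
    intro q a
    obtain ⟨b, hb, hb'⟩ := sees q q
    exact ⟨_, q, b, hb, hb', rfl⟩
  have hgmem : ∀ q a, g q a ∈ S q a := fun q a => Nat.sInf_mem (hSne q a)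
  have hgle : ∀ q a n, n ∈ S q a → g q a ≤ n := fun q a n hn => Nat.sInf_le hn
  have hlip : ∀ q a b, (a + 1 = b ∨ b + 1 = a) → g q a ≤ g q b + 1 := by
    intro q a b hab
    obtain ⟨i, c, hc, hic, hn⟩ := hgmem q b
    have h1 := hgle q a (i + ((a - c) + (c - a))) ⟨i, c, hc, hic, rfl⟩
    rw [hn]
    omega
  have hlab : ∀ i q a, a < len q → G.Adj (star i) (path q a) → g q a = i := by
    intro i q a ha hia
    apply le_antisymm
    · have := hgle q a (i + ((a - a) + (a - a))) ⟨i, a, ha, hia, rfl⟩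
      omega
    · obtain ⟨j, b, hb, hjb, hn⟩ := hgmem q a
      rw [hn]
      by_cases hij : i = j
      · rw [hij]
        omega
      · have := spaced i j q a b hij ha hb hia hjb
        have := i.isLt
        omega
  obtain ⟨B, hB⟩ : ∃ B, ∀ q : Fin r, len q < B := by
    refine ⟨(Finset.univ.sup len) + 1, fun q => ?_⟩
    have := Finset.le_sup (f := len) (Finset.mem_univ q)
    omega
  refine ⟨α, inferInstance, val, hinj, ?_, Or.inl ?_⟩
  · -- clique minor
    refine ⟨fun i => {x | Sum.elim (fun j => j = i) (fun p => p.1 = i) x}, ?_, ?_, ?_, ?_⟩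
    · intro i
      exact ⟨Sum.inl i, rfl⟩
    · intro i j hij
      rw [Set.disjoint_left]
      rintro (a | ⟨q, a⟩) h1 h2
      · exact hij ((show a = i from h1).symm.trans h2)
      · exact hij ((show q = i from h1).symm.trans h2)
    · intro i P hP
      have hsym : ∀ x ∈ {x : α | Sum.elim (fun j => j = i) (fun p => p.1 = i) x},
          ∀ y ∈ {x : α | Sum.elim (fun j => j = i) (fun p => p.1 = i) x},
          (G.comap val).Adj x y → (P x ↔ P y) := fun x hx y hy hxy =>
        ⟨hP x hx y hy hxy, hP y hy x hx hxy.symm⟩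
      obtain ⟨a₀, ha₀, hadj₀⟩ := sees i i
      have h1 : P (Sum.inl i) ↔ P (Sum.inr ⟨i, ⟨a₀, ha₀⟩⟩) := by
        apply hsym
        · exact (rfl : i = i)
        · exact (rfl : i = i)
        · exact hadj₀
      have h2 : ∀ n (hn : n < len i), P (Sum.inr ⟨i, ⟨n, hn⟩⟩) ↔
          P (Sum.inr ⟨i, ⟨0, by omega⟩⟩) := by
        intro n
        induction n with
        | zero => exact fun _ => Iff.rfl
        | succ n ih =>
          intro hn
          rw [← ih (by omega)]
          apply hsym
          · exact (rfl : i = i)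
          · exact (rfl : i = i)
          · show G.Adj (path i (n + 1)) (path i n)
            rw [path_adj i i (n + 1) n hn (by omega)]
            exact ⟨rfl, Or.inr rfl⟩
      have h3 : ∀ x ∈ {x : α | Sum.elim (fun j => j = i) (fun p => p.1 = i) x},
          (P x ↔ P (Sum.inl i)) := by
        rintro (j | ⟨q, a⟩) hx
        · rw [show j = i from hx]
        · obtain rfl : q = i := hx
          rw [h1, h2 a₀ ha₀]
          exact h2 a a.isLt
      intro s hs t ht hPs
      rw [h3 t ht, ← h3 s hs]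
      exact hPs
    · intro i j _
      obtain ⟨a, ha, hadj⟩ := sees i j
      exact ⟨Sum.inl i, rfl, Sum.inr ⟨j, ⟨a, ha⟩⟩, rfl, hadj⟩
  · -- spaced system
    refine ⟨fun x => x.isLeft = true,
      fun x : Fin r ⊕ (Σ q : Fin r, Fin (len q)) => Sum.elim (fun i : Fin r => (i : ℕ))
        (fun p : (Σ q : Fin r, Fin (len q)) => g p.1 p.2) x,
      fun x : Fin r ⊕ (Σ q : Fin r, Fin (len q)) => Sum.elim (fun _ : Fin r => 0)
        (fun p : (Σ q : Fin r, Fin (len q)) => (p.1 : ℕ) * B + (p.2 : ℕ)) x,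
      ?_, ?_, ?_, ?_, ?_, ?_⟩
    · rintro (i | p) (j | p') h1 h2 <;> simp at h1 h2
      exact star_stable i j
    · rintro (i | p) (j | p') h1 h2 h3 <;> simp at h1 h2
      exact congrArg Sum.inl (Fin.ext h3)
    · rintro (i | ⟨q, a⟩) (j | ⟨q', b⟩) h1 h2 h3 <;> simp at h1 h2
      have h4 : (q : ℕ) * B + (a : ℕ) = (q' : ℕ) * B + (b : ℕ) := h3
      have ha := a.isLt
      have hb := b.isLt
      have hBq := hB q
      have hBq' := hB q'
      have h5 : (q : ℕ) = q' := by
        have e1 : ((q : ℕ) * B + (a : ℕ)) / B = q := by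
          rw [Nat.add_comm, Nat.add_mul_div_right _ _ (by omega), Nat.div_eq_of_lt (by omega)]
          simp
        have e2 : ((q' : ℕ) * B + (b : ℕ)) / B = q' := by
          rw [Nat.add_comm, Nat.add_mul_div_right _ _ (by omega), Nat.div_eq_of_lt (by omega)]
          simp
        rw [← e1, ← e2, h4]
      obtain rfl : q = q' := Fin.ext h5
      have h6 : (a : ℕ) = b := by omega
      rw [Fin.ext h6]
    · rintro (i | ⟨q, a⟩) (j | ⟨q', b⟩) h1 h2 h3 <;> simp at h1 h2
      have h4 : G.Adj (path q a) (path q' b) := h3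
      rw [path_adj q q' a b a.isLt b.isLt] at h4
      obtain ⟨h5, h6⟩ := h4
      subst h5
      exact hlip q a b h6
    · rintro (i | ⟨q, a⟩) (j | ⟨q', b⟩) h1 h2 h3 <;> simp at h1 h2
      exact hlab i q' b b.isLt h3
    · rintro (i | ⟨q, a⟩) (j | ⟨q', b⟩) z h1 h2 _ h3 h4 <;> simp at h1 h2
      have h5 : G.Adj (path q a) (path q' b) := h3
      rw [path_adj q q' a b a.isLt b.isLt] at h5
      obtain ⟨h6, h7⟩ := h5
      subst h6
      have h8 : (q : ℕ) * B + (a : ℕ) < (q : ℕ) * B + (b : ℕ) := h4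
      show _ ≤ (q : ℕ) * B + (a : ℕ) ∨ (q : ℕ) * B + (b : ℕ) ≤ _
      omega

end Pool.Agent.H39.TW
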