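import Pool.Agent.H39.TW.Arr

/-!
# Row CaseZero: induced bicliques, and good paths

`caseZero`: the induced subgraph on the `x i` and `y j` (`α = Fin r ⊕ Fin r`, `val = Sum.elim x y`) is complete
bipartite (`side = Sum.elim 0 1`); `CliqueMinor`: `B i = {inl i, inr i}` (see the definition in `Lower`; `ConnSet` is an
induction principle).

`goodPaths`: call a path `q` bad if some position `a < len q` is seen by at least `r` letters. If at most `k - r` paths
are bad, there are `r` good ones (an injection `Fin r → Fin k` into the complement). Otherwise more than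
`2 * r * s.choose r` (at least this many plus one; note `hk`) paths are bad; choose for each bad path a bad position
`a_q` and an `r`-subset of the letters seeing it; by pigeonhole (`Finset.powersetCard r univ` has
`s.choose r` elements) some `r`-set `I` of letters is chosen for at least `2 * r` (if `s.choose r = 0` no path is bad)
different bad paths; positions on different paths are nonadjacent (`path_adj`) and different (`path_inj`), so `r` of
them suffice: `caseZero` with `x` the letters in `I`, `y` the vertices `path q a_q`. (So `r * s.choose r + r ≤ k`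
is enough; parity is not needed.)
-/

set_option autoImplicit false

open scoped Classical

namespace Pool.Agent.H39.TW

open SimpleGraph

theorem caseZero {V : Type*} (G : SimpleGraph V) (r : ℕ) (x y : Fin r → V)
    (hx : Function.Injective x) (hy : Function.Injective y) (hxx : ∀ i j, ¬ G.Adj (x i) (x j))
    (hyy : ∀ i j, ¬ G.Adj (y i) (y j)) (hxy : ∀ i j, G.Adj (x i) (y j)) : GoodSub G r := by
  have hne : ∀ i j, x i ≠ y j := fun i j h => (G.ne_of_adj (hxy i j)) h
  refine ⟨Fin r ⊕ Fin r, inferInstance, fun u => Sum.elim x y u, ?_, ?_, Or.inr ?_⟩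
  · rintro (i | i) (j | j) h
    · exact congrArg Sum.inl (hx h)
    · exact absurd h (hne i j)
    · exact absurd h.symm (hne j i)
    · exact congrArg Sum.inr (hy h)
  · refine ⟨fun i => {u | u = Sum.inl i ∨ u = Sum.inr i}, ?_, ?_, ?_, ?_⟩
    · intro i
      exact ⟨Sum.inl i, Or.inl rfl⟩
    · intro i j hij
      rw [Set.disjoint_left]
      rintro (a | a) h1 h2
      · simp only [Set.mem_ofPred_eq, Sum.inl.injEq, reduceCtorEq, or_false] at h1 h2
        exact hij (h1.symm.trans h2)
      · simp only [Set.mem_ofPred_eq, Sum.inr.injEq, reduceCtorEq, false_or] at h1 h2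
        exact hij (h1.symm.trans h2)
    · intro i P hP s hs t ht hPs
      have h1 : (G.comap fun u => Sum.elim x y u).Adj (Sum.inl i) (Sum.inr i) := hxy i i
      rcases hs with rfl | rfl <;> rcases ht with rfl | rfl
      · exact hPs
      · exact hP _ (Or.inl rfl) _ (Or.inr rfl) h1 hPs
      · exact hP _ (Or.inr rfl) _ (Or.inl rfl) h1.symm hPs
      · exact hPs
    · intro i j _
      exact ⟨Sum.inl i, Or.inl rfl, Sum.inr j, Or.inr rfl, hxy i j⟩
  · refine ⟨fun u => Sum.elim (fun _ => 0) (fun _ => 1) u, ?_, ?_⟩
    · rintro (i | i) <;> simp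
    · rintro (i | i) (j | j)
      · simpa using hxx i j
      · simpa using hxy i j
      · simpa using (hxy j i).symm
      · simpa using hyy i j

theorem goodPaths {V : Type*} (G : SimpleGraph V) (r s k : ℕ) (hk : r * s.choose r + r ≤ k)
    (A : Arr G s k) : GoodSub G r ∨ ∃ e : Fin r → Fin k, Function.Injective e ∧
      ∀ q a, a < A.len (e q) →
        (Finset.univ.filter fun i => G.Adj (A.star i) (A.path (e q) a)).card < r := by
  obtain ⟨Bad, hBad⟩ : ∃ Bad : Finset (Fin k), ∀ q, q ∈ Bad ↔ ∃ a, a < A.len q ∧
      r ≤ (Finset.univ.filter fun i => G.Adj (A.star i) (A.path q a)).card :=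
    ⟨Finset.univ.filter fun q => ∃ a, a < A.len q ∧
      r ≤ (Finset.univ.filter fun i => G.Adj (A.star i) (A.path q a)).card, fun q => by simp⟩
  have hcard : Badᶜ.card = k - Bad.card := by
    rw [Finset.card_compl, Fintype.card_fin]
  by_cases hgood : r ≤ Badᶜ.card
  · right
    obtain ⟨S, hS1, hS2⟩ := Finset.exists_subset_card_eq hgood
    refine ⟨fun q => ((S.equivFinOfCardEq hS2).symm q : Fin k), fun i j h => ?_, fun q a ha => ?_⟩
    · exact (S.equivFinOfCardEq hS2).symm.injective (Subtype.ext h)
    · have h1 := Finset.mem_compl.1 (hS1 ((S.equivFinOfCardEq hS2).symm q).2)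
      rw [hBad] at h1
      by_contra hcon
      exact h1 ⟨a, ha, not_lt.1 hcon⟩
  · left
    have hmany : s.choose r * r < Bad.card := by
      have h1 := Nat.mul_comm r (s.choose r)
      omega
    have hch : ∀ q, ∃ (a : ℕ) (T : Finset (Fin s)), q ∈ Bad → a < A.len q ∧ T.card = r ∧
        ∀ i ∈ T, G.Adj (A.star i) (A.path q a) := by
      intro q
      by_cases hq : q ∈ Bad
      · obtain ⟨a, ha, hc⟩ := (hBad q).1 hq
        obtain ⟨T, hT1, hT2⟩ := Finset.exists_subset_card_eq hc
        exact ⟨a, T, fun _ => ⟨ha, hT2, fun i hi => (Finset.mem_filter.1 (hT1 hi)).2⟩⟩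
      · exact ⟨0, ∅, fun h => absurd h hq⟩
    choose a T haT using hch
    have hmaps : ∀ q ∈ Bad, T q ∈ Finset.powersetCard r (Finset.univ : Finset (Fin s)) := by
      intro q hq
      rw [Finset.mem_powersetCard]
      exact ⟨Finset.subset_univ _, (haT q hq).2.1⟩
    obtain ⟨I, hI, hfib⟩ := Finset.exists_lt_card_fiber_of_mul_lt_card_of_maps_to (n := r) hmaps (by
      rw [Finset.card_powersetCard, Finset.card_univ, Fintype.card_fin]
      exact hmany)
    obtain ⟨S, hS1, hS2⟩ := Finset.exists_subset_card_eq hfib.le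
    have hIr : I.card = r := (Finset.mem_powersetCard.1 hI).2
    obtain ⟨e, he1, he2⟩ : ∃ e : Fin r → Fin k, Function.Injective e ∧
        ∀ j, e j ∈ Bad ∧ T (e j) = I := by
      refine ⟨fun q => ((S.equivFinOfCardEq hS2).symm q : Fin k), fun i j h => ?_, fun q => ?_⟩
      · exact (S.equivFinOfCardEq hS2).symm.injective (Subtype.ext h)
      · exact Finset.mem_filter.1 (hS1 ((S.equivFinOfCardEq hS2).symm q).2)
    obtain ⟨x, hx1, hx2⟩ : ∃ x : Fin r → Fin s, Function.Injective x ∧ ∀ i, x i ∈ I := by
      refine ⟨fun q => ((I.equivFinOfCardEq hIr).symm q : Fin s), fun i j h => ?_, fun q => ?_⟩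
      · exact (I.equivFinOfCardEq hIr).symm.injective (Subtype.ext h)
      · exact ((I.equivFinOfCardEq hIr).symm q).2
    refine caseZero G r (fun i => A.star (x i)) (fun j => A.path (e j) (a (e j))) ?_ ?_ ?_ ?_ ?_
    · intro i j h
      exact hx1 (A.star_inj h)
    · intro i j h
      exact he1 (A.path_inj _ _ _ _ (haT _ (he2 i).1).1 (haT _ (he2 j).1).1 h).1
    · intro i j
      exact A.star_stable _ _
    · intro i j h
      rw [A.path_adj _ _ _ _ (haT _ (he2 i).1).1 (haT _ (he2 j).1).1] at h
      obtain ⟨h1, h2⟩ := h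
      have h3 : a (e i) = a (e j) := by rw [h1]
      omega
    · intro i j
      refine (haT _ (he2 j).1).2.2 (x i) ?_
      rw [(he2 j).2]
      exact hx2 i

end Pool.Agent.H39.TW
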