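import Mathlib

/-!
# MP_24e2a8_co: treewidth, twin-width, constellations (definitions, helper39)

All graphs are finite and simple (vertex type `Fin n` in the final statement).
-/

set_option autoImplicit false

namespace Pool.Agent.H39.TW

open SimpleGraph

/-- A tree decomposition of `G`: a tree and a bag of vertices of `G` for each of its nodes; every
vertex and every edge of `G` is in a bag, and the nodes whose bags contain a given vertex induce a
connected subgraph of the tree. -/
structure TreeDecomposition {V : Type*} (G : SimpleGraph V) where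
  node : Type
  tree : SimpleGraph node
  isTree : tree.IsTree
  bag : node → Set V
  vertex : ∀ v, ∃ t, v ∈ bag t
  edge : ∀ u v, G.Adj u v → ∃ t, u ∈ bag t ∧ v ∈ bag t
  connected : ∀ v, (tree.induce {t | v ∈ bag t}).Preconnected

/-- `G` has treewidth at most `k`: it has a tree decomposition all of whose bags have at most `k + 1`
elements. -/
def TreewidthAtMost {V : Type*} (G : SimpleGraph V) (k : ℕ) : Prop :=
  ∃ D : TreeDecomposition G, ∀ t, (D.bag t).encard ≤ (k + 1 : ℕ)

/-- The vertex sets `X` and `Y` are homogeneous to each other: all pairs are adjacent or no pair is. -/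
def Homogeneous {V : Type*} (G : SimpleGraph V) (X Y : Set V) : Prop :=
  (∀ x ∈ X, ∀ y ∈ Y, G.Adj x y) ∨ (∀ x ∈ X, ∀ y ∈ Y, ¬ G.Adj x y)

/-- In the trigraph given by the partition `P` of the vertex set (its vertices are the parts; two
parts are joined by a black edge if all pairs are adjacent, by no edge if no pair is, and by a red
edge otherwise) every vertex has at most `d` red edges. -/
def RedDegreeAtMost {V : Type*} (G : SimpleGraph V) (P : Setoid V) (d : ℕ) : Prop :=
  ∀ X ∈ P.classes, {Y | Y ∈ P.classes ∧ Y ≠ X ∧ ¬ Homogeneous G X Y}.encard ≤ d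

/-- `Q` is obtained from the partition `P` by contracting two parts into one. -/
def Contracts {V : Type*} (P Q : Setoid V) : Prop :=
  ∃ X ∈ P.classes, ∃ Y ∈ P.classes, X ≠ Y ∧ Q.classes = insert (X ∪ Y) (P.classes \ {X, Y})

/-- `G` has twin-width at most `d`: there is a sequence of contractions from `G` (partition into
single vertices) to one vertex in which every trigraph has red degree at most `d`. -/
def TwinWidthAtMost {V : Type*} (G : SimpleGraph V) (d : ℕ) : Prop :=
  ∃ (m : ℕ) (P : ℕ → Setoid V), P 0 = ⊥ ∧ P m = ⊤ ∧ (∀ i < m, Contracts (P i) (P (i + 1))) ∧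
    ∀ i ≤ m, RedDegreeAtMost G (P i) d

/-- An `(s, k)`-constellation in `G`: `s` pairwise nonadjacent vertices and `k` pairwise disjoint and
anticomplete induced paths avoiding them, such that each of the vertices has a neighbour on each of
the paths. -/
structure Constellation {V : Type*} (G : SimpleGraph V) (s k : ℕ) where
  star : Fin s → V
  len : Fin k → ℕ
  path : (q : Fin k) → Fin (len q) → V
  star_inj : Function.Injective star
  star_stable : ∀ i i', ¬ G.Adj (star i) (star i')
  star_path : ∀ i q a, star i ≠ path q a
  path_inj : ∀ q, Function.Injective (path q)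
  path_adj : ∀ q a b, G.Adj (path q a) (path q b) ↔ ((a : ℕ) + 1 = b ∨ (b : ℕ) + 1 = a)
  disjoint : ∀ q q' a b, q ≠ q' → path q a ≠ path q' b
  anticomplete : ∀ q q' a b, q ≠ q' → ¬ G.Adj (path q a) (path q' b)
  sees : ∀ i q, ∃ a, G.Adj (star i) (path q a)

/-- A class of finite graphs is hereditary: closed under isomorphism and induced subgraphs. -/
def Hereditary (C : (n : ℕ) → SimpleGraph (Fin n) → Prop) : Prop :=
  ∀ (m n : ℕ) (G : SimpleGraph (Fin n)) (f : Fin m ↪ Fin n), C n G → C m (G.comap f)

end Pool.Agent.H39.TW
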