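import Mathlib

/-!
# Row Ram: Ramsey's theorem for graphs

Proof: the usual double induction, or the tree/majority argument; any finite bound will do. (Do not use
Classical infinite Ramsey unless convenient.)
-/

set_option autoImplicit false

open scoped Classical

namespace Pool.Agent.H39.TW

theorem ramsey_aux (r : ℕ) : ∀ M : ℕ, ∃ N : ℕ, ∀ (α : Type) (R : α → α → Prop),
    (∀ i j, R i j → R j i) → ∀ S : Finset α, N ≤ S.card →
    (∃ T ⊆ S, T.card = r ∧ ∀ x ∈ T, ∀ y ∈ T, x ≠ y → ¬ R x y) ∨
    (∃ T ⊆ S, T.card = M ∧ ∀ x ∈ T, ∀ y ∈ T, x ≠ y → R x y) := by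
  induction r with
  | zero =>
    intro M
    exact ⟨0, fun α R _ S _ => Or.inl ⟨∅, Finset.empty_subset _, by simp, by simp⟩⟩
  | succ r ihr =>
    intro M
    induction M with
    | zero =>
      exact ⟨0, fun α R _ S _ => Or.inr ⟨∅, Finset.empty_subset _, by simp, by simp⟩⟩
    | succ M ihM =>
      obtain ⟨N1, h1⟩ := ihr (M + 1)
      obtain ⟨N2, h2⟩ := ihM
      refine ⟨N1 + N2 + 1, fun α R hR S hS => ?_⟩
      have hne : S.Nonempty := by
        rw [← Finset.card_pos]; omega
      obtain ⟨v, hv⟩ := hne
      have hc := Finset.card_erase_of_mem hv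
      have hcard := Finset.card_filter_add_card_filter_not (s := S.erase v) (fun w => R v w)
      have hor : N1 ≤ ((S.erase v).filter (fun w => ¬ R v w)).card ∨
          N2 ≤ ((S.erase v).filter (fun w => R v w)).card := by
        by_contra hcon
        push Not at hcon
        omega
      rcases hor with hB | hA
      · rcases h1 α R hR _ hB with ⟨T, hTs, hTc, hT⟩ | ⟨T, hTs, hTc, hT⟩
        · left
          have hvT : v ∉ T := fun h => by
            have := hTs h
            simp at this
          refine ⟨insert v T, ?_, ?_, ?_⟩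
          · intro x hx
            rcases Finset.mem_insert.1 hx with rfl | hx
            · exact hv
            · exact Finset.mem_of_mem_erase (Finset.mem_filter.1 (hTs hx)).1
          · rw [Finset.card_insert_of_notMem hvT, hTc]
          · intro x hx y hy hxy
            rcases Finset.mem_insert.1 hx with rfl | hx'
            · rcases Finset.mem_insert.1 hy with rfl | hy'
              · exact absurd rfl hxy
              · exact (Finset.mem_filter.1 (hTs hy')).2
            · rcases Finset.mem_insert.1 hy with rfl | hy'
              · exact fun h => (Finset.mem_filter.1 (hTs hx')).2 (hR _ _ h)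
              · exact hT x hx' y hy' hxy
        · right
          refine ⟨T, ?_, hTc, hT⟩
          intro x hx
          exact Finset.mem_of_mem_erase (Finset.mem_filter.1 (hTs hx)).1
      · rcases h2 α R hR _ hA with ⟨T, hTs, hTc, hT⟩ | ⟨T, hTs, hTc, hT⟩
        · left
          refine ⟨T, ?_, hTc, hT⟩
          intro x hx
          exact Finset.mem_of_mem_erase (Finset.mem_filter.1 (hTs hx)).1
        · right
          have hvT : v ∉ T := fun h => by
            have := hTs h
            simp at this
          refine ⟨insert v T, ?_, ?_, ?_⟩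
          · intro x hx
            rcases Finset.mem_insert.1 hx with rfl | hx
            · exact hv
            · exact Finset.mem_of_mem_erase (Finset.mem_filter.1 (hTs hx)).1
          · rw [Finset.card_insert_of_notMem hvT, hTc]
          · intro x hx y hy hxy
            rcases Finset.mem_insert.1 hx with rfl | hx'
            · rcases Finset.mem_insert.1 hy with rfl | hy'
              · exact absurd rfl hxy
              · exact (Finset.mem_filter.1 (hTs hy')).2
            · rcases Finset.mem_insert.1 hy with rfl | hy'
              · exact hR _ _ (Finset.mem_filter.1 (hTs hx')).2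
              · exact hT x hx' y hy' hxy

theorem exists_fin_map {α : Type} (T : Finset α) (k : ℕ) (h : T.card = k) :
    ∃ φ : Fin k → α, Function.Injective φ ∧ ∀ i, φ i ∈ T := by
  refine ⟨fun i => ((T.equivFinOfCardEq h).symm i : α), ?_, fun i => Subtype.mem _⟩
  intro i j hij
  exact (T.equivFinOfCardEq h).symm.injective (Subtype.ext hij)

theorem ramsey (r M : ℕ) : ∃ N, ∀ R : Fin N → Fin N → Prop, (∀ i j, R i j → R j i) →
    (∃ φ : Fin r → Fin N, Function.Injective φ ∧ ∀ i j, i ≠ j → ¬ R (φ i) (φ j)) ∨
    (∃ φ : Fin M → Fin N, Function.Injective φ ∧ ∀ i j, i ≠ j → R (φ i) (φ j)) := by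
  obtain ⟨N, hN⟩ := ramsey_aux r M
  refine ⟨N, fun R hR => ?_⟩
  rcases hN (Fin N) R hR Finset.univ (by simp) with ⟨T, -, hTc, hT⟩ | ⟨T, -, hTc, hT⟩
  · left
    obtain ⟨φ, hφ, hm⟩ := exists_fin_map T r hTc
    exact ⟨φ, hφ, fun i j hij => hT _ (hm i) _ (hm j) (fun h => hij (hφ h))⟩
  · right
    obtain ⟨φ, hφ, hm⟩ := exists_fin_map T M hTc
    exact ⟨φ, hφ, fun i j hij => hT _ (hm i) _ (hm j) (fun h => hij (hφ h))⟩

end Pool.Agent.H39.TW
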