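import Pool.Agent.H39.TW.CaseClose
import Pool.Agent.H39.TW.CaseZero
import Pool.Agent.H39.TW.Ram

/-!
# Extraction from constellations, and the transport to `Fin m`
-/

set_option autoImplicit false

open scoped Classical

namespace Pool.Agent.H39.TW

open SimpleGraph

theorem thin_mono {M N : ℕ} (φ : Fin M → Fin N) (hφ : Function.Injective φ) (p : Fin N → Prop) :
    (Finset.univ.filter fun i => p (φ i)).card ≤ (Finset.univ.filter fun i => p i).card := by
  apply Finset.card_le_card_of_injOn φ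
  · intro i hi
    have h1 := (Finset.mem_filter.mp (Finset.mem_coe.mp hi)).2
    exact Finset.mem_coe.mpr (Finset.mem_filter.mpr ⟨Finset.mem_univ _, h1⟩)
  · exact hφ.injOn

theorem extract (r : ℕ) (hr : 0 < r) : ∃ K, ∀ k ≥ K, ∀ (V : Type) (G : SimpleGraph V),
    Nonempty (Constellation G k k) → GoodSub G r := by
  obtain ⟨M, hM⟩ := free_fun (r + r * (r * r)) ((4 * r + 1) * r)
  obtain ⟨N, hN⟩ := ramsey r M
  refine ⟨max N (r * N.choose r + r), ?_⟩
  rintro k hk V G ⟨C⟩
  obtain ⟨A₀⟩ := Arr.of_constellation C (by omega)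
  set A : Arr G N (r * N.choose r + r) := A₀.restrict
    (Fin.castLE ((le_max_left _ _).trans hk)) (Fin.castLE_injective _)
    (Fin.castLE ((le_max_right _ _).trans hk)) (Fin.castLE_injective _) with hA
  rcases goodPaths G r N _ le_rfl A with h | ⟨e, he, thin⟩
  · exact h
  set A₂ : Arr G N r := A.restrict id Function.injective_id e he with hA₂
  have thin₂ : ∀ q a, a < A₂.len q →
      (Finset.univ.filter fun i => G.Adj (A₂.star i) (A₂.path q a)).card < r := thin
  set R : Fin N → Fin N → Prop := fun i j => ∃ q a b, a < A₂.len q ∧ b < A₂.len q ∧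
    G.Adj (A₂.star i) (A₂.path q a) ∧ G.Adj (A₂.star j) (A₂.path q b) ∧ nd a b < r with hR
  have hRs : ∀ i j, R i j → R j i := by
    rintro i j ⟨q, a, b, h1, h2, h3, h4, h5⟩
    refine ⟨q, b, a, h2, h1, h4, h3, ?_⟩
    unfold nd at *
    omega
  rcases hN R hRs with ⟨φ, hφ, hind⟩ | ⟨φ, hφ, hcl⟩
  · set A₃ : Arr G r r := A₂.restrict φ hφ id Function.injective_id with hA₃
    refine A₃.caseOne ?_
    intro i j q a b hij ha hb hia hjb
    have := hind i j hij
    by_contra hcon
    refine this ⟨q, a, b, ha, hb, hia, hjb, ?_⟩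
    unfold nd
    omega
  · set A₃ : Arr G M r := A₂.restrict φ hφ id Function.injective_id with hA₃
    refine caseClose r M hr hM G r hr A₃ ?_ ?_
    · intro q a ha
      exact lt_of_le_of_lt (thin_mono φ hφ fun i => G.Adj (A₂.star i) (A₂.path q a))
        (thin₂ q a ha)
    · intro i j hij
      exact hcl i j hij

theorem CliqueMinor.comap_equiv {V W : Type*} {G : SimpleGraph V} {r : ℕ} (h : CliqueMinor G r)
    (e : W ≃ V) : CliqueMinor (G.comap e) r := by
  obtain ⟨B, h1, h2, h3, h4⟩ := h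
  refine ⟨fun i => e ⁻¹' B i, ?_, ?_, ?_, ?_⟩
  · intro i
    obtain ⟨x, hx⟩ := h1 i
    exact ⟨e.symm x, by simpa using hx⟩
  · intro i j hij
    exact (h2 i j hij).preimage _
  · intro i P hP s hs t ht hPs
    have := h3 i (fun v => P (e.symm v)) (by
      intro x hx y hy hxy hPx
      refine hP _ (by simpa using hx) _ (by simpa using hy) ?_ hPx
      simpa using hxy) (e s) hs (e t) ht (by simpa using hPs)
    simpa using this
  · intro i j hij
    obtain ⟨u, hu, v, hv, huv⟩ := h4 i j hij
    exact ⟨e.symm u, by simpa using hu, e.symm v, by simpa using hv, by simpa using huv⟩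

theorem SpacedSystem.comap_equiv {V W : Type*} {G : SimpleGraph V} (h : SpacedSystem G)
    (e : W ≃ V) : SpacedSystem (G.comap e) := by
  obtain ⟨isX, col, rk, h1, h2, h3, h4, h5, h6⟩ := h
  refine ⟨fun x => isX (e x), fun x => col (e x), fun x => rk (e x), ?_, ?_, ?_, ?_, ?_, ?_⟩
  · exact fun x x' hx hx' => h1 _ _ hx hx'
  · exact fun x x' hx hx' h => e.injective (h2 _ _ hx hx' h)
  · exact fun y y' hy hy' h => e.injective (h3 _ _ hy hy' h)
  · exact fun y y' hy hy' h => h4 _ _ hy hy' h
  · exact fun x y hx hy h => h5 _ _ hx hy h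
  · exact fun y y' z hy hy' hz h h' => h6 _ _ _ hy hy' hz h h'

/-- A good subgraph of a graph in a hereditary class. -/
theorem of_goodSub (C : (n : ℕ) → SimpleGraph (Fin n) → Prop) (hC : Hereditary C) (w n : ℕ)
    (G : SimpleGraph (Fin n)) (hG : C n G) (h : GoodSub G (w + 2)) :
    ∃ (m : ℕ) (H : SimpleGraph (Fin m)), C m H ∧ TwinWidthAtMost H 4 ∧ ¬ TreewidthAtMost H w := by
  obtain ⟨α, hα, val, hval, hcl, hor⟩ := h
  obtain ⟨m, ⟨e⟩⟩ := Finite.exists_equiv_fin α
  set f : Fin m ↪ Fin n := ⟨fun i => val (e.symm i), hval.comp e.symm.injective⟩ with hf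
  have hcomap : G.comap f = (G.comap val).comap e.symm := rfl
  refine ⟨m, G.comap f, hC m n G f hG, ?_, ?_⟩
  · rw [hcomap]
    rcases hor with hs | ⟨side, h1, h2⟩
    · exact twinWidth_spaced _ (hs.comap_equiv e.symm)
    · exact twinWidth_bipartite _ (fun i => side (e.symm i)) (fun v => h1 _)
        (fun u v => h2 _ _)
  · rw [hcomap]
    exact not_treewidthAtMost _ w (hcl.comap_equiv e.symm)

end Pool.Agent.H39.TW
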