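import Pool.Agent.H39.TW.Def

/-!
# Contraction sequences given by functions
-/

set_option autoImplicit false

open scoped Classical

namespace Pool.Agent.H39.TW

open SimpleGraph

/-- There is a contraction sequence of red degree at most `d` from the partition `P` to one part. -/
inductive HC {V : Type*} (G : SimpleGraph V) (d : ℕ) : Setoid V → Prop
  | top : HC G d ⊤
  | step {P Q : Setoid V} : RedDegreeAtMost G P d → Contracts P Q → HC G d Q → HC G d P

theorem red_top {V : Type*} (G : SimpleGraph V) (d : ℕ) : RedDegreeAtMost G ⊤ d := by
  intro X hX
  have : {Y | Y ∈ (⊤ : Setoid V).classes ∧ Y ≠ X ∧ ¬ Homogeneous G X Y} = ∅ := by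
    ext Y
    simp only [Set.mem_ofPred_eq, Set.mem_empty_iff_false, iff_false]
    rintro ⟨hY, hne, _⟩
    apply hne
    obtain ⟨x, rfl⟩ := hX
    obtain ⟨y, rfl⟩ := hY
    ext z
    simp [Setoid.top_def]
  rw [this]
  simp

theorem seq_of_HC {V : Type*} (G : SimpleGraph V) (d : ℕ) (P : Setoid V) (h : HC G d P) :
    ∃ (m : ℕ) (S : ℕ → Setoid V), S 0 = P ∧ S m = ⊤ ∧ (∀ i < m, Contracts (S i) (S (i + 1))) ∧
      ∀ i ≤ m, RedDegreeAtMost G (S i) d := by
  induction h with
  | top =>
    refine ⟨0, fun _ => ⊤, rfl, rfl, ?_, ?_⟩
    · intro i hi
      omega
    · intro i _
      exact red_top G d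
  | @step P Q hr hc _ ih =>
    obtain ⟨m, S, h0, hm, h1, h2⟩ := ih
    refine ⟨m + 1, fun i => Nat.casesOn i P S, rfl, hm, ?_, ?_⟩
    · intro i hi
      cases i with
      | zero =>
        show Contracts P (S 0)
        rw [h0]
        exact hc
      | succ i => exact h1 i (by omega)
    · intro i hi
      cases i with
      | zero => exact hr
      | succ i => exact h2 i (by omega)

theorem twinWidthAtMost_of_HC {V : Type*} (G : SimpleGraph V) (d : ℕ) (h : HC G d ⊥) :
    TwinWidthAtMost G d := seq_of_HC G d ⊥ h

theorem red_of_fun {V α : Type*} (G : SimpleGraph V) (d : ℕ) (K : V → α)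
    (h : ∀ v, ∃ F : Set α, F.encard ≤ d ∧ ∀ u, K u ≠ K v →
      ¬ Homogeneous G {x | K x = K v} {x | K x = K u} → K u ∈ F) :
    RedDegreeAtMost G (Setoid.ker K) d := by
  intro X hX
  obtain ⟨v, rfl⟩ := hX
  obtain ⟨F, hF, hF2⟩ := h v
  have hsub : {Y | Y ∈ (Setoid.ker K).classes ∧ Y ≠ {x | (Setoid.ker K) x v} ∧
      ¬ Homogeneous G {x | (Setoid.ker K) x v} Y} ⊆ (fun c => {x | K x = c}) '' F := by
    rintro Y ⟨hY, hne, hnh⟩
    obtain ⟨u, rfl⟩ := hY
    simp only [Setoid.ker_def] at hne hnh ⊢
    refine ⟨K u, hF2 u ?_ hnh, rfl⟩
    intro huv
    apply hne
    rw [huv]
  exact (Set.encard_le_encard hsub).trans ((Set.encard_image_le _ _).trans hF)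

theorem contracts_fun {V α : Type*} (K : V → α) (v w : V) (h : K v ≠ K w) :
    Contracts (Setoid.ker K) (Setoid.ker fun u => if K u = K v then K w else K u) := by
  refine ⟨{x | K x = K v}, ⟨v, ?_⟩, {x | K x = K w}, ⟨w, ?_⟩, ?_, ?_⟩
  · ext x
    simp [Setoid.ker_def]
  · ext x
    simp [Setoid.ker_def]
  · intro heq
    have : v ∈ {x | K x = K w} := by
      rw [← heq]
      exact (rfl : K v = K v)
    exact h this
  · ext Y
    constructor
    · rintro ⟨u, rfl⟩
      simp only [Setoid.ker_def]
      by_cases hu : K u = K v ∨ K u = K w
      · left
        ext x
        simp only [Set.mem_ofPred_eq, Set.mem_union]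
        rcases hu with hu | hu
        · simp only [hu, if_true]
          constructor
          · intro hx
            by_cases hxv : K x = K v
            · exact Or.inl hxv
            · rw [if_neg hxv] at hx
              exact Or.inr hx
          · rintro (hx | hx)
            · rw [if_pos hx]
            · split_ifs
              · rfl
              · exact hx
        · have hu' : K u ≠ K v := fun h' => h (h'.symm.trans hu)
          rw [if_neg hu', hu]
          constructor
          · intro hx
            by_cases hxv : K x = K v
            · exact Or.inl hxv
            · rw [if_neg hxv] at hx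
              exact Or.inr hx
          · rintro (hx | hx)
            · rw [if_pos hx]
            · split_ifs
              · rfl
              · exact hx
      · right
        push Not at hu
        obtain ⟨hu1, hu2⟩ := hu
        have hset : {x | (if K x = K v then K w else K x) = if K u = K v then K w else K u} =
            {x | K x = K u} := by
          ext x
          simp only [Set.mem_ofPred_eq, if_neg hu1]
          constructor
          · intro hx
            split_ifs at hx with hxv
            · exact absurd hx.symm hu2
            · exact hx
          · intro hx
            rw [if_neg (by rw [hx]; exact hu1)]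
            exact hx
        rw [hset]
        refine ⟨⟨u, ?_⟩, ?_⟩
        · ext x
          simp [Setoid.ker_def]
        · simp only [Set.mem_insert_iff, Set.mem_singleton_iff, not_or]
          constructor
          · intro heq
            have : u ∈ {x | K x = K v} := by
              rw [← heq]
              exact (rfl : K u = K u)
            exact hu1 this
          · intro heq
            have : u ∈ {x | K x = K w} := by
              rw [← heq]
              exact (rfl : K u = K u)
            exact hu2 this
    · rintro (rfl | ⟨⟨u, rfl⟩, hY⟩)
      · refine ⟨w, ?_⟩
        ext x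
        simp only [Set.mem_union, Set.mem_ofPred_eq, Setoid.ker_def]
        rw [if_neg (Ne.symm h)]
        constructor
        · rintro (hx | hx)
          · rw [if_pos hx]
          · split_ifs
            · rfl
            · exact hx
        · intro hx
          by_cases hxv : K x = K v
          · exact Or.inl hxv
          · rw [if_neg hxv] at hx
            exact Or.inr hx
      · simp only [Setoid.ker_def, Set.mem_insert_iff, Set.mem_singleton_iff, not_or] at hY
        obtain ⟨hu1, hu2⟩ := hY
        have hu1' : K u ≠ K v := fun h' => hu1 (by rw [h'])
        have hu2' : K u ≠ K w := fun h' => hu2 (by rw [h'])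
        refine ⟨u, ?_⟩
        ext x
        simp only [Set.mem_ofPred_eq, Setoid.ker_def, if_neg hu1']
        constructor
        · intro hx
          rw [if_neg (by rw [hx]; exact hu1')]
          exact hx
        · intro hx
          split_ifs at hx with hxv
          · exact absurd hx.symm hu2'
          · exact hx

/-- one step: the partition does not change, or two parts are merged -/
theorem HC_step {V α β : Type*} (G : SimpleGraph V) (d : ℕ) (K : V → α) (K' : V → β)
    (hred : RedDegreeAtMost G (Setoid.ker K) d)
    (h : Setoid.ker K = Setoid.ker K' ∨ ∃ v w, K v ≠ K w ∧
      Setoid.ker K' = Setoid.ker fun u => if K u = K v then K w else K u)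
    (hK : HC G d (Setoid.ker K')) : HC G d (Setoid.ker K) := by
  rcases h with h | ⟨v, w, hne, h⟩
  · rw [h]
    exact hK
  · refine HC.step hred (contracts_fun K v w hne) ?_
    rw [← h]
    exact hK

/-- vertices of rank less than `τ` have been put into the part given by their key -/
noncomputable def stageOne {V κ : Type*} (proc : V → Prop) (rk : V → ℕ) (key : V → κ) (τ : ℕ)
    (v : V) : V ⊕ κ := if proc v ∧ rk v < τ then Sum.inr (key v) else Sum.inl v

theorem HC_stageOne {V κ : Type*} (G : SimpleGraph V) (d : ℕ) (proc : V → Prop) (rk : V → ℕ)
    (key : V → κ) (hinj : ∀ u v, proc u → proc v → rk u = rk v → u = v)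
    (hred : ∀ τ, RedDegreeAtMost G (Setoid.ker (stageOne proc rk key τ)) d) (T : ℕ)
    (hT : HC G d (Setoid.ker (stageOne proc rk key T))) : HC G d ⊥ := by
  have key1 : ∀ k ≤ T, HC G d (Setoid.ker (stageOne proc rk key (T - k))) := by
    intro k
    induction k with
    | zero => exact fun _ => hT
    | succ k ih =>
      intro hk
      have ih' := ih (by omega)
      have hTk : T - k = (T - (k + 1)) + 1 := by omega
      rw [hTk] at ih'
      set τ := T - (k + 1) with hτ
      refine HC_step G d _ _ (hred τ) ?_ ih'
      by_cases hv : ∃ v, proc v ∧ rk v = τ
      · obtain ⟨v, hpv, hrv⟩ := hv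
        by_cases hw : ∃ w, proc w ∧ rk w < τ ∧ key w = key v
        · obtain ⟨w, hpw, hrw, hkw⟩ := hw
          right
          have e1 : stageOne proc rk key τ v = Sum.inl v := by
            unfold stageOne
            rw [if_neg]
            rintro ⟨_, h⟩
            omega
          have e2 : stageOne proc rk key τ w = Sum.inr (key v) := by
            unfold stageOne
            rw [if_pos ⟨hpw, hrw⟩, hkw]
          refine ⟨v, w, ?_, ?_⟩
          · rw [e1, e2]
            exact Sum.inl_ne_inr
          · congr 1
            funext u
            rw [e1, e2]
            by_cases huv : u = v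
            · subst huv
              rw [if_pos e1]
              unfold stageOne
              rw [if_pos ⟨hpv, by omega⟩]
            · have hne : stageOne proc rk key τ u ≠ Sum.inl v := by
                unfold stageOne
                split_ifs
                · exact Sum.inr_ne_inl
                · intro h
                  exact huv (Sum.inl_injective h)
              rw [if_neg hne]
              unfold stageOne
              by_cases hpu : proc u ∧ rk u < τ
              · rw [if_pos hpu, if_pos ⟨hpu.1, by omega⟩]
              · rw [if_neg hpu, if_neg]
                rintro ⟨h1, h2⟩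
                apply hpu
                refine ⟨h1, ?_⟩
                rcases Nat.lt_succ_iff_lt_or_eq.1 h2 with h3 | h3
                · exact h3
                · exact absurd (hinj u v h1 hpv (h3.trans hrv.symm)) huv
        · left
          push Not at hw
          have e1 : ∀ u, u ≠ v → stageOne proc rk key (τ + 1) u = stageOne proc rk key τ u := by
            intro u huv
            unfold stageOne
            by_cases hpu : proc u ∧ rk u < τ
            · rw [if_pos hpu, if_pos ⟨hpu.1, by omega⟩]
            · rw [if_neg hpu, if_neg]
              rintro ⟨h1, h2⟩
              apply hpu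
              refine ⟨h1, ?_⟩
              rcases Nat.lt_succ_iff_lt_or_eq.1 h2 with h3 | h3
              · exact h3
              · exact absurd (hinj u v h1 hpv (h3.trans hrv.symm)) huv
          have e2 : stageOne proc rk key τ v = Sum.inl v := by
            unfold stageOne
            rw [if_neg]
            rintro ⟨_, h⟩
            omega
          have e3 : stageOne proc rk key (τ + 1) v = Sum.inr (key v) := by
            unfold stageOne
            rw [if_pos ⟨hpv, by omega⟩]
          have e4 : ∀ u, u ≠ v → stageOne proc rk key τ u ≠ Sum.inr (key v) := by
            intro u huv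
            unfold stageOne
            split_ifs with hpu
            · intro h
              exact hw u hpu.1 hpu.2 (Sum.inr_injective h)
            · exact Sum.inl_ne_inr
          have e5 : ∀ u, u ≠ v → stageOne proc rk key τ u ≠ Sum.inl v := by
            intro u huv
            unfold stageOne
            split_ifs
            · exact Sum.inr_ne_inl
            · intro h
              exact huv (Sum.inl_injective h)
          ext a b
          simp only [Setoid.ker_def]
          by_cases ha : a = v
          · by_cases hb : b = v
            · rw [ha, hb]
              simp
            · rw [ha, e1 b hb, e2, e3]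
              constructor
              · intro h
                exact absurd h.symm (e5 b hb)
              · intro h
                exact absurd h.symm (e4 b hb)
          · by_cases hb : b = v
            · rw [hb, e1 a ha, e2, e3]
              constructor
              · intro h
                exact absurd h (e5 a ha)
              · intro h
                exact absurd h (e4 a ha)
            · rw [e1 a ha, e1 b hb]
      · left
        push Not at hv
        congr 1
        funext u
        unfold stageOne
        by_cases hpu : proc u ∧ rk u < τ
        · rw [if_pos hpu, if_pos ⟨hpu.1, by omega⟩]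
        · rw [if_neg hpu, if_neg]
          rintro ⟨h1, h2⟩
          apply hpu
          refine ⟨h1, ?_⟩
          have := hv u h1
          omega
  have h0 := key1 T le_rfl
  rw [Nat.sub_self] at h0
  have : Setoid.ker (stageOne proc rk key 0) = ⊥ := by
    ext a b
    have e : ∀ u, stageOne proc rk key 0 u = Sum.inl u := fun u => by
      unfold stageOne
      rw [if_neg]
      rintro ⟨_, h⟩
      omega
    simp only [Setoid.ker_def, e, Sum.inl.injEq]
  rw [← this]
  exact h0

/-- parts of index less than `σ` have been merged into one part -/
noncomputable def stageTwo {V : Type*} (ix : V → ℕ) (σ : ℕ) (v : V) : Option ℕ :=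
  if ix v < σ then none else some (ix v)

theorem HC_stageTwo {V : Type*} [Finite V] (G : SimpleGraph V) (d : ℕ) (ix : V → ℕ)
    (hred : ∀ σ, RedDegreeAtMost G (Setoid.ker (stageTwo ix σ)) d) :
    HC G d (Setoid.ker ix) := by
  obtain ⟨T, hT⟩ : ∃ T, ∀ v, ix v < T := by
    obtain ⟨T, hT⟩ := (Set.finite_range ix).bddAbove
    exact ⟨T + 1, fun v => Nat.lt_succ_of_le (hT ⟨v, rfl⟩)⟩
  have key1 : ∀ k ≤ T, HC G d (Setoid.ker (stageTwo ix (T - k))) := by
    intro k
    induction k with
    | zero =>
      intro _
      have : Setoid.ker (stageTwo ix (T - 0)) = ⊤ := by
        ext a b
        have e : ∀ u, stageTwo ix (T - 0) u = none := fun u => by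
          unfold stageTwo
          rw [if_pos (by have := hT u; omega)]
        rw [Setoid.ker_def, e, e]
        simp [Setoid.top_def]
      rw [this]
      exact HC.top
    | succ k ih =>
      intro hk
      have ih' := ih (by omega)
      have hTk : T - k = (T - (k + 1)) + 1 := by omega
      rw [hTk] at ih'
      set σ := T - (k + 1) with hσ
      refine HC_step G d _ _ (hred σ) ?_ ih'
      by_cases hv : ∃ v, ix v = σ
      · obtain ⟨v, hv⟩ := hv
        have e1 : stageTwo ix σ v = some σ := by
          unfold stageTwo
          rw [if_neg (by omega), hv]
        by_cases hw : ∃ w, ix w < σ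
        · obtain ⟨w, hw⟩ := hw
          right
          have e2 : stageTwo ix σ w = none := by
            unfold stageTwo
            rw [if_pos hw]
          refine ⟨v, w, ?_, ?_⟩
          · rw [e1, e2]
            simp
          · congr 1
            funext u
            rw [e1, e2]
            unfold stageTwo
            by_cases h1 : ix u < σ
            · rw [if_pos (by omega), if_pos h1]
              simp
            · rw [if_neg h1]
              by_cases h2 : ix u = σ
              · rw [if_pos (by omega), if_pos (by rw [h2])]
              · rw [if_neg (by omega), if_neg (by simpa using h2)]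
        · left
          push Not at hw
          ext a b
          simp only [Setoid.ker_def]
          unfold stageTwo
          have ha := hw a
          have hb := hw b
          rw [if_neg (by omega), if_neg (by omega)]
          by_cases h1 : ix a < σ + 1
          · rw [if_pos h1]
            by_cases h2 : ix b < σ + 1
            · rw [if_pos h2]
              simp only [Option.some.injEq, iff_true]
              omega
            · rw [if_neg h2]
              simp only [Option.some.injEq, reduceCtorEq, iff_false]
              omega
          · rw [if_neg h1]
            by_cases h2 : ix b < σ + 1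
            · rw [if_pos h2]
              simp only [Option.some.injEq, reduceCtorEq, iff_false]
              omega
            · rw [if_neg h2]
      · left
        push Not at hv
        congr 1
        funext u
        unfold stageTwo
        have := hv u
        by_cases h1 : ix u < σ
        · rw [if_pos h1, if_pos (by omega)]
        · rw [if_neg h1, if_neg (by omega)]
  have h0 := key1 T le_rfl
  rw [Nat.sub_self] at h0
  have : Setoid.ker (stageTwo ix 0) = Setoid.ker ix := by
    ext a b
    simp [Setoid.ker_def, stageTwo]
  rw [← this]
  exact h0

end Pool.Agent.H39.TW
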