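import Pool.Agent.H39.TW.Upper

/-!
# Row Sweep: the column sweep without letters

Proof: copy `twinWidth_spaced` (file `Upper`) with `isX = fun _ => False` (`proc = True`). Stage one: the partition
`stageOne proc rk col τ`: `K_c` = vertices of rank `< τ` in column `c`, the others are single vertices. `red_of_fun` asks for
a set containing the keys of all parts not homogeneous to the given one.
* single vertex `v`: only `inr (col v - 1)`, `inr (col v)`, `inr (col v + 1)`: at most `3 ≤ F + 2`;
* `inr c`: `inr (c - 1)`, `inr (c + 1)` (from `hcc` both ways) and `inl v` for `v` in the front set of `(τ, c)`: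
  at most `2 + F` (the part itself does not count, see `red_of_fun`).
Stage two (`HC_stageTwo` with `ix = col`, after `T` larger than all ranks, when the partition is `Setoid.ker col`):
`none` and `some c` (`c ≥ σ`): red neighbours of `none`: only `some σ`; of `some c`: `none`, `some (c - 1)`, `some (c + 1)`: at most `3`.
-/

set_option autoImplicit false

open scoped Classical

namespace Pool.Agent.H39.TW

open SimpleGraph

theorem Sweep_encard_three {α : Type*} (F : ℕ) (hF : 1 ≤ F) (a b c : α) :
    ({a, b, c} : Set α).encard ≤ ((F + 2 : ℕ) : ℕ∞) := by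
  have h1 : ({a, b, c} : Set α) = ((({a, b, c} : Finset α)) : Set α) := by
    ext x
    simp
  rw [h1, Set.encard_coe_eq_coe_finsetCard]
  have h2 : ({a, b, c} : Finset α).card ≤ 3 := Finset.card_le_three
  exact_mod_cast h2.trans (by omega)

theorem Sweep_encard_two {α β : Type*} (F : ℕ) (a b : β) (f : α → β) (S : Set α)
    (hS : S.encard ≤ F) :
    (({a, b} : Set β) ∪ f '' S).encard ≤ ((F + 2 : ℕ) : ℕ∞) := by
  have h1 : ({a, b} : Set β).encard ≤ (2 : ℕ) := by
    have h1 : ({a, b} : Set β) = ((({a, b} : Finset β)) : Set β) := by
      ext x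
      simp
    rw [h1, Set.encard_coe_eq_coe_finsetCard]
    exact_mod_cast Finset.card_le_two
  refine (Set.encard_union_le _ _).trans ?_
  refine (add_le_add h1 ((Set.encard_image_le f S).trans hS)).trans ?_
  rw [← Nat.cast_add, add_comm]

theorem twinWidth_sweep {V : Type*} [Finite V] (H : SimpleGraph V) (F : ℕ) (hF : 1 ≤ F)
    (col rk : V → ℕ) (hrk : Function.Injective rk) (hcc : ∀ u v, H.Adj u v → col u ≤ col v + 1)
    (hfront : ∀ τ c, {v | τ ≤ rk v ∧ ∃ u, rk u < τ ∧ col u = c ∧ H.Adj u v}.encard ≤ F) :
    TwinWidthAtMost H (F + 2) := by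
  apply twinWidthAtMost_of_HC
  obtain ⟨T, hT⟩ : ∃ T, ∀ v, rk v < T := by
    obtain ⟨T, hT⟩ := (Set.finite_range rk).bddAbove
    exact ⟨T + 1, fun v => Nat.lt_succ_of_le (hT ⟨v, rfl⟩)⟩
  have hcol : ∀ y y', H.Adj y y' → col y ≤ col y' + 1 ∧ col y' ≤ col y + 1 :=
    fun y y' h3 => ⟨hcc y y' h3, hcc y' y h3.symm⟩
  refine HC_stageOne H (F + 2) (fun _ => True) rk col (fun u v _ _ huv => hrk huv) ?_ T ?_
  · intro τ
    apply red_of_fun
    intro v
    have hcls : ∀ u a, stageOne (fun _ => True) rk col τ u = Sum.inl a → u = a ∧ τ ≤ rk u := by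
      intro u a hu
      unfold stageOne at hu
      split_ifs at hu with h1
      refine ⟨Sum.inl_injective hu, ?_⟩
      by_contra hcon
      exact h1 ⟨trivial, by omega⟩
    have hclr : ∀ u n, stageOne (fun _ => True) rk col τ u = Sum.inr n → rk u < τ ∧ col u = n := by
      intro u n hu
      unfold stageOne at hu
      split_ifs at hu with h1
      exact ⟨h1.2, Sum.inr_injective hu⟩
    rcases hv : stageOne (fun _ => True) rk col τ v with a | n
    · -- a single vertex
      have hva := (hcls v a hv).1
      subst hva
      refine ⟨{Sum.inr (col v - 1), Sum.inr (col v), Sum.inr (col v + 1)},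
        Sweep_encard_three F hF _ _ _, ?_⟩
      intro u _ hnh
      rcases hu : stageOne (fun _ => True) rk col τ u with b | m
      · exfalso
        apply hnh
        apply homogeneous_singleton H v b
        · intro x hx
          exact (hcls x v hx).1
        · intro x hx
          have hx' : stageOne (fun _ => True) rk col τ x = stageOne (fun _ => True) rk col τ u := hx
          rw [hu] at hx'
          exact (hcls x b hx').1
      · obtain ⟨x, hx, y, hy, hxy⟩ := exists_adj_of_not_homogeneous H _ _ hnh
        have hxv := (hcls x v hx).1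
        subst hxv
        have hy' : stageOne (fun _ => True) rk col τ y = stageOne (fun _ => True) rk col τ u := hy
        rw [hu] at hy'
        obtain ⟨h2, h3⟩ := hclr y m hy'
        simp only [Set.mem_insert_iff, Set.mem_singleton_iff, Sum.inr.injEq]
        have := hcol x y hxy
        omega
    · -- a part of processed vertices
      refine ⟨{Sum.inr (n - 1), Sum.inr (n + 1)} ∪ Sum.inl ''
        {v | τ ≤ rk v ∧ ∃ u, rk u < τ ∧ col u = n ∧ H.Adj u v},
        Sweep_encard_two F _ _ _ _ (hfront τ n), ?_⟩
      intro u hne hnh
      obtain ⟨x, hx, y, hy, hxy⟩ := exists_adj_of_not_homogeneous H _ _ hnh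
      obtain ⟨hx2, hx3⟩ := hclr x n hx
      have hy' : stageOne (fun _ => True) rk col τ y = stageOne (fun _ => True) rk col τ u := hy
      rcases hu : stageOne (fun _ => True) rk col τ u with b | m
      · rw [hu] at hy'
        obtain ⟨hyb, hyτ⟩ := hcls y b hy'
        subst hyb
        right
        exact ⟨y, ⟨hyτ, x, hx2, hx3, hxy⟩, rfl⟩
      · rw [hu] at hy' hne
        obtain ⟨h2, h3⟩ := hclr y m hy'
        have h4 := hcol x y hxy
        have h5 : m ≠ n := fun h => hne (by rw [h])
        left
        simp only [Set.mem_insert_iff, Set.mem_singleton_iff, Sum.inr.injEq]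
        omega
  · have hker : Setoid.ker (stageOne (fun _ => True) rk col T) = Setoid.ker col := by
      ext a b
      have e : ∀ u, stageOne (fun _ => True) rk col T u = Sum.inr (col u) := by
        intro u
        unfold stageOne
        rw [if_pos ⟨trivial, hT u⟩]
      rw [Setoid.ker_def, Setoid.ker_def, e, e]
      exact Sum.inr_injective.eq_iff
    rw [hker]
    apply HC_stageTwo
    intro σ
    apply red_of_fun
    have hn : ∀ u, stageTwo col σ u = none → col u < σ := by
      intro u hu
      unfold stageTwo at hu
      split_ifs at hu with h1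
      exact h1
    have hs : ∀ u n, stageTwo col σ u = some n → σ ≤ col u ∧ col u = n := by
      intro u n hu
      unfold stageTwo at hu
      split_ifs at hu with h1
      simp only [Option.some.injEq] at hu
      omega
    intro v
    rcases hv : stageTwo col σ v with _ | n
    · refine ⟨{some σ, some σ, some σ}, Sweep_encard_three F hF _ _ _, ?_⟩
      intro u hne hnh
      obtain ⟨x, hx, y, hy, hxy⟩ := exists_adj_of_not_homogeneous H _ _ hnh
      have hx1 := hn x hx
      have hy' : stageTwo col σ y = stageTwo col σ u := hy
      rcases hu : stageTwo col σ u with _ | m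
      · exact absurd hu hne
      · rw [hu] at hy'
        obtain ⟨h1, h2⟩ := hs y m hy'
        have h3 := hcol x y hxy
        simp only [Set.mem_insert_iff, Set.mem_singleton_iff, Option.some.injEq]
        omega
    · refine ⟨{none, some (n - 1), some (n + 1)}, Sweep_encard_three F hF _ _ _, ?_⟩
      intro u hne hnh
      obtain ⟨x, hx, y, hy, hxy⟩ := exists_adj_of_not_homogeneous H _ _ hnh
      have hx1 := hs x n hx
      have hy' : stageTwo col σ y = stageTwo col σ u := hy
      rcases hu : stageTwo col σ u with _ | m
      · simp
      · rw [hu] at hy' hne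
        obtain ⟨h1, h2⟩ := hs y m hy'
        have h5 : m ≠ n := fun h => hne (by rw [h])
        have h3 := hcol x y hxy
        simp only [Set.mem_insert_iff, Set.mem_singleton_iff, Option.some.injEq, reduceCtorEq,
          false_or]
        omega

end Pool.Agent.H39.TW
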