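import Pool.Agent.H39.TW.Def

/-!
# Subdivided walls
-/

set_option autoImplicit false

namespace Pool.Agent.H39.TW

open SimpleGraph

/-- The vertices of the subdivided wall with `h` rows and `2 h` columns. `(i, j, 0, 0)` is the
branch vertex in row `i` and column `j`; `(i, j, 0, p)`, `1 ≤ p ≤ a i j`, are the subdivision vertices of
the horizontal edge between the columns `j` and `j + 1` of row `i`; `(i, j, 1, p)`, `1 ≤ p ≤ b i j`, are those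
of the vertical edge between the rows `i` and `i + 1` in column `j` (present if `i + j` is even). -/
def WallVertex (h : ℕ) (a b : ℕ → ℕ → ℕ) (x : ℕ × ℕ × ℕ × ℕ) : Prop :=
  x.1 < h ∧ x.2.1 < 2 * h ∧
    ((x.2.2.1 = 0 ∧ x.2.2.2 = 0) ∨
      (x.2.2.1 = 0 ∧ 1 ≤ x.2.2.2 ∧ x.2.2.2 ≤ a x.1 x.2.1 ∧ x.2.1 + 1 < 2 * h) ∨
      (x.2.2.1 = 1 ∧ 1 ≤ x.2.2.2 ∧ x.2.2.2 ≤ b x.1 x.2.1 ∧ x.1 + 1 < h ∧ Even (x.1 + x.2.1)))

/-- `y` is the next vertex after `x` in its row, or in its vertical path. -/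
def WallNext (a b : ℕ → ℕ → ℕ) (x y : ℕ × ℕ × ℕ × ℕ) : Prop :=
  (x.2.2.1 = 0 ∧ y.2.2.1 = 0 ∧ x.1 = y.1 ∧
    ((x.2.1 = y.2.1 ∧ x.2.2.2 + 1 = y.2.2.2) ∨
      (x.2.1 + 1 = y.2.1 ∧ x.2.2.2 = a x.1 x.2.1 ∧ y.2.2.2 = 0))) ∨
  ((x.2.2.1 = 1 ∨ x.2.2.2 = 0) ∧ Even (x.1 + x.2.1) ∧ x.2.1 = y.2.1 ∧
    ((x.1 = y.1 ∧ y.2.2.1 = 1 ∧ x.2.2.2 + 1 = y.2.2.2) ∨
      (x.1 + 1 = y.1 ∧ x.2.2.2 = b x.1 x.2.1 ∧ y.2.2.1 = 0 ∧ y.2.2.2 = 0)))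

/-- The subdivided wall with `h` rows, in which the edges are subdivided `a i j` and `b i j` times. -/
def subdividedWall (h : ℕ) (a b : ℕ → ℕ → ℕ) :
    SimpleGraph {x : ℕ × ℕ × ℕ × ℕ // WallVertex h a b x} where
  Adj x y := WallNext a b x.1 y.1 ∨ WallNext a b y.1 x.1
  symm := ⟨fun _ _ h => h.symm⟩
  loopless := ⟨fun x h => by
    have h1 : WallNext a b x.1 x.1 := h.elim id id
    unfold WallNext at h1
    omega⟩

end Pool.Agent.H39.TW
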